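import Pool.Agent.Helper34.NF.Meas

/-! Absolute continuity. -/

set_option autoImplicit false

open MeasureTheory Filter Topology Metric Set

namespace Pool.Agent.Helper34.NF

lemma vol_image (h : ℤ) (hh : h ≠ 0) (K : Set UnitAddCircle) (hK : IsCompact K)
    (hK0 : volume K = 0) : volume (T h '' K) = 0 := by
  have hm : MeasurableSet (T h '' K) := (hK.image (T_cont h)).isClosed.measurableSet
  rw [← (T_mp h hh).measure_preimage hm.nullMeasurableSet]
  have hsub : T h ⁻¹' (T h '' K) ⊆
      ⋃ t ∈ {t : UnitAddCircle | h.natAbs • t = 0}, (fun y => t + y) ⁻¹' K := by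
    rintro y ⟨k, hk, hky⟩
    refine Set.mem_biUnion (x := k - y) ?_ ?_
    · have h1 : h • (k - y) = 0 := by
        rw [smul_sub]
        exact sub_eq_zero.2 hky
      rw [Set.mem_ofPred_eq]
      rcases Int.natAbs_eq h with h2 | h2
      · rw [h2, natCast_zsmul] at h1
        exact h1
      · rw [h2, neg_smul, natCast_zsmul, neg_eq_zero] at h1
        exact h1
    · rw [Set.mem_preimage, sub_add_cancel]
      exact hk
  refine measure_mono_null hsub ?_
  rw [measure_biUnion_null_iff (AddCircle.finite_torsion (1 : ℝ) (Int.natAbs_pos.2 hh)).countable]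
  intro t _
  rw [measure_preimage_add]
  exact hK0

/-- **Absolute continuity.** -/
theorem ac {c : ℤ → ℂ} (hc : Summable fun h => ‖c h‖) (hA : ∑' h, c h ≠ c 0)
    (μ : Measure UnitAddCircle) [IsProbabilityMeasure μ]
    (H : ∀ m : ℕ, 1 ≤ m → ∑' h : ℤ, c h * ∫ y, (fourier (h * m) y : ℂ) ∂μ = c 0) :
    μ ≪ volume := by
  classical
  rw [← Measure.singularPart_eq_zero]
  set σ := μ.singularPart volume with hσ
  obtain ⟨N, hN, h1, h2⟩ := μ.mutuallySingular_singularPart volume
  rw [← hσ] at h1
  have hfin : ∀ S, σ S ≠ ⊤ := fun S => measure_ne_top _ _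
  have hs1 : σ Nᶜ = σ univ := by
    rw [← measure_add_measure_compl (μ := σ) hN, h1, zero_add]
  have hμσ : ∀ S, volume S = 0 → μ S = σ S := by
    intro S hS
    have h3 := congrArg (fun ν : Measure UnitAddCircle => ν S)
      (Measure.haveLebesgueDecomposition_add μ volume)
    simp only [Measure.coe_add, Pi.add_apply] at h3
    rw [h3]
    have h4 : (volume.withDensity (μ.rnDeriv volume)) S = 0 :=
      withDensity_absolutelyContinuous _ _ hS
    rw [h4, add_zero]
  have hK : ∀ n : ℕ, ∃ K ⊆ Nᶜ, IsCompact K ∧ σ Nᶜ < σ K + ENNReal.ofReal (1 / ((n : ℝ) + 1)) :=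
    fun n => hN.compl.exists_isCompact_lt_add (hfin _)
      (by rw [Ne, ENNReal.ofReal_eq_zero, not_le]; positivity)
  choose K hKN hKc hKs using hK
  have hK0 : ∀ n, volume (K n) = 0 := fun n => measure_mono_null (hKN n) h2
  set F : ℕ → Finset ℤ := fun n => (Finset.Icc (-(n : ℤ)) n).erase 0 with hF
  set E : ℕ → Set UnitAddCircle := fun n => ⋃ h ∈ F n, T h '' K n with hE
  have hEc : ∀ n, IsCompact (E n) := fun n =>
    (F n).isCompact_biUnion fun h _ => (hKc n).image (T_cont h)
  have hE0 : ∀ n, volume (E n) = 0 := by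
    intro n
    refine (measure_biUnion_null_iff (F n).finite_toSet.countable).2 ?_
    intro h hh
    exact vol_image h (Finset.ne_of_mem_erase (Finset.mem_coe.1 hh)) _ (hKc n) (hK0 n)
  set s : ℝ := σ.real univ with hs
  have hup : ∀ n h, h ≠ 0 → μ.real (T h ⁻¹' E n) ≤ s := by
    intro n h hh
    have h3 : volume (T h ⁻¹' E n) = 0 := by
      rw [(T_mp h hh).measure_preimage (hEc n).isClosed.measurableSet.nullMeasurableSet]
      exact hE0 n
    rw [Measure.real, hμσ _ h3, hs, Measure.real]
    exact ENNReal.toReal_mono (hfin _) (measure_mono (subset_univ _))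
  have hlow : ∀ n h, h ∈ F n → s - 1 / ((n : ℝ) + 1) ≤ μ.real (T h ⁻¹' E n) := by
    intro n h hh
    have h3 : K n ⊆ T h ⁻¹' E n := by
      intro y hy
      exact Set.mem_biUnion hh ⟨y, hy, rfl⟩
    have h4 : σ.real (K n) ≤ μ.real (T h ⁻¹' E n) := by
      have h5 : σ ≤ μ := Measure.singularPart_le μ volume
      refine ENNReal.toReal_mono (measure_ne_top _ _) ?_
      exact (measure_mono h3).trans (h5 _)
    have h5 : s < σ.real (K n) + 1 / ((n : ℝ) + 1) := by
      have h6 := hKs n
      rw [hs1] at h6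
      have h7 := (ENNReal.toReal_lt_toReal (hfin _) (by
        exact ENNReal.add_ne_top.2 ⟨hfin _, ENNReal.ofReal_ne_top⟩)).2 h6
      rw [ENNReal.toReal_add (hfin _) ENNReal.ofReal_ne_top,
        ENNReal.toReal_ofReal (by positivity)] at h7
      exact h7
    linarith
  have hz := fun n => null_sum hc μ H (E n) (hEc n) (hE0 n)
  have hlim : Tendsto (fun n => ∑' h : ℤ, (if h = 0 then 0 else c h) * (μ.real (T h ⁻¹' E n) : ℂ))
      atTop (𝓝 (∑' h : ℤ, (if h = 0 then 0 else c h) * (s : ℂ))) := by
    refine tendsto_tsum_of_dominated_convergence hc ?_ ?_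
    · intro h
      split_ifs with h0
      · simp
      · refine Tendsto.const_mul _ ?_
        refine (Complex.continuous_ofReal.tendsto _).comp ?_
        refine tendsto_of_tendsto_of_tendsto_of_le_of_le'
          (g := fun n : ℕ => s - 1 / ((n : ℝ) + 1)) (h := fun _ => s) ?_ tendsto_const_nhds ?_ ?_
        · have := (tendsto_const_nhds (x := s)).sub
            (tendsto_one_div_add_atTop_nhds_zero_nat (𝕜 := ℝ))
          rwa [sub_zero] at this
        · filter_upwards [eventually_ge_atTop h.natAbs] with n hn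
          refine hlow n h ?_
          rw [hF, Finset.mem_erase, Finset.mem_Icc]
          exact ⟨h0, by omega, by omega⟩
        · exact Eventually.of_forall fun n => hup n h h0
    · refine Eventually.of_forall fun n h => ?_
      rw [norm_mul, Complex.norm_real, Real.norm_eq_abs, abs_of_nonneg measureReal_nonneg]
      refine (mul_le_of_le_one_right (norm_nonneg _) measureReal_le_one).trans ?_
      split_ifs
      · simp
      · exact le_rfl
  have h3 := tendsto_nhds_unique hlim (tendsto_const_nhds.congr fun n => (hz n).symm)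
  rw [tsum_mul_right] at h3
  have h4 : ∑' h : ℤ, (if h = 0 then 0 else c h) ≠ 0 := by
    have h5 := hc.of_norm.tsum_eq_add_tsum_ite 0
    intro h6
    rw [h6, add_zero] at h5
    exact hA h5
  have h5 : (s : ℂ) = 0 := (mul_eq_zero.1 h3).resolve_left h4
  have h6 : s = 0 := by exact_mod_cast h5
  rw [hs, Measure.real, ENNReal.toReal_eq_zero_iff] at h6
  rcases h6 with h6 | h6
  · exact Measure.measure_univ_eq_zero.1 h6
  · exact absurd h6 (hfin _)

end Pool.Agent.Helper34.NF
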