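import Pool.Agent.Helper34.NF.UE

/-! A continuous function whose integrals with respect to a family of measures vanish. -/

set_option autoImplicit false

open MeasureTheory Filter Topology
open Q241.SW (avg e ex ex_norm Normal)

namespace Pool.Agent.Helper34.NF

/-- the truncation -/
noncomputable def clip (δ t : ℝ) : ℝ := max (-δ) (min δ t)

lemma clip_cont (δ : ℝ) : Continuous (clip δ) :=
  continuous_const.max (continuous_const.min continuous_id)

lemma clip_abs (δ t : ℝ) (hδ : 0 ≤ δ) : |clip δ t| ≤ δ := by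
  unfold clip
  rw [abs_le]
  refine ⟨le_max_left _ _, max_le (by linarith) (min_le_left _ _)⟩

lemma clip_err (δ ε t a : ℝ) (hε : 0 ≤ ε) (hδ : ε < δ) (ha : |a| ≤ ε) :
    |t - clip δ t| ≤ (t - a) ^ 2 / (4 * (δ - ε)) := by
  have hc : 0 < δ - ε := by linarith
  rw [le_div_iff₀ (by positivity)]
  rw [abs_le] at ha
  unfold clip
  rcases le_total t δ with h | h
  · rw [min_eq_right h]
    rcases le_total (-δ) t with h' | h'
    · rw [max_eq_right h', sub_self, abs_zero, zero_mul]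
      positivity
    · rw [max_eq_left h', abs_of_nonpos (by linarith)]
      have h1 : 0 ≤ -(t - -δ) := by linarith
      have h2 : -(t - -δ) + (δ - ε) ≤ a - t := by linarith
      nlinarith [sq_nonneg (-(t - -δ) - (δ - ε))]
  · rw [min_eq_left h, max_eq_right (by linarith), abs_of_nonneg (by linarith)]
    have h1 : 0 ≤ t - δ := by linarith
    have h2 : (t - δ) + (δ - ε) ≤ t - a := by linarith
    nlinarith [sq_nonneg ((t - δ) - (δ - ε))]

/-- the complexification -/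
def cx (S : C(UnitAddCircle, ℝ)) : C(UnitAddCircle, ℂ) :=
  ⟨fun y => (S y : ℂ), Complex.continuous_ofReal.comp S.continuous⟩

/-- the real averages -/
noncomputable def Ar (b N : ℕ) (S : C(UnitAddCircle, ℝ)) : C(UnitAddCircle, ℝ) :=
  ⟨fun y => (∑ n ∈ Finset.range N, S (T ((b : ℤ) ^ n) y)) / N,
    (continuous_finsetSum _ fun _ _ => S.continuous.comp (T_cont _)).div_const _⟩

lemma Ar_cx (b N : ℕ) (S : C(UnitAddCircle, ℝ)) (y : UnitAddCircle) :
    AN b N (cx S) y = ((Ar b N S y : ℝ) : ℂ) := by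
  unfold AN avg Ar cx
  simp only [ContinuousMap.coe_mk]
  push_cast
  rfl

lemma rint (τ : ProbabilityMeasure UnitAddCircle) (S : C(UnitAddCircle, ℝ)) :
    Integrable (fun y => S y) (τ : Measure UnitAddCircle) :=
  S.continuous.integrable_of_hasCompactSupport (HasCompactSupport.of_compactSpace _)

/-- the measures are invariant -/
def Inv (b : ℕ) (M : Set (ProbabilityMeasure UnitAddCircle)) : Prop :=
  ∀ τ ∈ M, ∀ (n : ℕ) (g : C(UnitAddCircle, ℂ)),
    ∫ y, g (T ((b : ℤ) ^ n) y) ∂(τ : Measure UnitAddCircle) = ∫ y, g y ∂(τ : Measure UnitAddCircle)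

lemma Ar_int (b N : ℕ) (hN : 0 < N) {M : Set (ProbabilityMeasure UnitAddCircle)} (hM : Inv b M)
    (τ : ProbabilityMeasure UnitAddCircle) (hτ : τ ∈ M) (S : C(UnitAddCircle, ℝ)) :
    ∫ y, Ar b N S y ∂(τ : Measure UnitAddCircle) = ∫ y, S y ∂(τ : Measure UnitAddCircle) := by
  have hNr : (N : ℝ) ≠ 0 := by exact_mod_cast hN.ne'
  have h1 : ∀ n : ℕ, ∫ y, S (T ((b : ℤ) ^ n) y) ∂(τ : Measure UnitAddCircle) =
      ∫ y, S y ∂(τ : Measure UnitAddCircle) := by
    intro n
    have h2 := hM τ hτ n (cx S)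
    have h3 : ∀ y, cx S y = ((S y : ℝ) : ℂ) := fun y => rfl
    simp_rw [h3] at h2
    rw [integral_complex_ofReal, integral_complex_ofReal] at h2
    exact_mod_cast h2
  have h2 : ∀ y, Ar b N S y = (∑ n ∈ Finset.range N, S (T ((b : ℤ) ^ n) y)) / N := fun y => rfl
  simp_rw [h2]
  rw [integral_div, integral_finsetSum]
  · simp_rw [h1]
    rw [Finset.sum_const, Finset.card_range, nsmul_eq_mul]
    field_simp
  · intro n _
    exact (S.continuous.comp (T_cont _)).integrable_of_hasCompactSupport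
      (HasCompactSupport.of_compactSpace _)

/-- **One step** -/
lemma step {b : ℕ} {M : Set (ProbabilityMeasure UnitAddCircle)} (hM : Inv b M)
    (hU : ∀ g, UE b M g) (S : C(UnitAddCircle, ℝ)) (ε δ η : ℝ) (hε : 0 ≤ ε) (hδ : ε < δ)
    (hη : 0 < η) (hS : ∀ τ ∈ M, |∫ y, S y ∂(τ : Measure UnitAddCircle)| ≤ ε) :
    ∃ S' : C(UnitAddCircle, ℝ), ‖S' - S‖ ≤ δ ∧
      ∀ τ ∈ M, |∫ y, S' y ∂(τ : Measure UnitAddCircle)| ≤ η := by
  have hc : 0 < δ - ε := by linarith
  obtain ⟨N₀, hN₀⟩ := hU (cx S) (4 * (δ - ε) * η) (by positivity)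
  set N := max N₀ 1 with hN
  have hN1 : 0 < N := lt_of_lt_of_le one_pos (le_max_right _ _)
  set E : C(UnitAddCircle, ℝ) := ⟨fun y => clip δ (Ar b N S y), (clip_cont δ).comp (Ar b N S).continuous⟩
    with hE
  have hEa : ∀ y, E y = clip δ (Ar b N S y) := fun y => rfl
  refine ⟨S - E, ?_, fun τ hτ => ?_⟩
  · rw [sub_sub_cancel_left, norm_neg, ContinuousMap.norm_le _ (by linarith)]
    intro y
    rw [Real.norm_eq_abs, hEa]
    exact clip_abs _ _ (by linarith)
  · have h1 : ∫ y, (S - E) y ∂(τ : Measure UnitAddCircle) =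
        ∫ y, (Ar b N S y - clip δ (Ar b N S y)) ∂(τ : Measure UnitAddCircle) := by
      have e1 : ∫ y, (S - E) y ∂(τ : Measure UnitAddCircle) =
          ∫ y, S y ∂(τ : Measure UnitAddCircle) - ∫ y, E y ∂(τ : Measure UnitAddCircle) :=
        integral_sub (rint τ S) (rint τ E)
      rw [e1, ← Ar_int b N hN1 hM τ hτ S, ← integral_sub (rint τ _) (rint τ E)]
      rfl
    rw [h1]
    set a := ∫ y, S y ∂(τ : Measure UnitAddCircle) with ha
    have h2 := hN₀ N (le_max_left _ _) τ hτ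
    have h3 : V b N (cx S) τ = ∫ y, (Ar b N S y - a) ^ 2 ∂(τ : Measure UnitAddCircle) := by
      unfold V
      refine integral_congr_ae (ae_of_all _ fun y => ?_)
      simp only
      have e1 : ∫ z, cx S z ∂(τ : Measure UnitAddCircle) = ((a : ℝ) : ℂ) := integral_complex_ofReal
      rw [e1, Ar_cx, ← Complex.ofReal_sub, Complex.norm_real, Real.norm_eq_abs, sq_abs]
    rw [h3] at h2
    have h4 : ∫ y, |Ar b N S y - clip δ (Ar b N S y)| ∂(τ : Measure UnitAddCircle) ≤
        ∫ y, (Ar b N S y - a) ^ 2 / (4 * (δ - ε)) ∂(τ : Measure UnitAddCircle) := by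
      refine integral_mono ?_ ?_ fun y => clip_err δ ε _ a hε hδ (hS τ hτ)
      · exact Continuous.integrable_of_hasCompactSupport
          ((Ar b N S).continuous.sub ((clip_cont δ).comp (Ar b N S).continuous)).abs
          (HasCompactSupport.of_compactSpace _)
      · exact Continuous.integrable_of_hasCompactSupport
          ((((Ar b N S).continuous.sub continuous_const).pow 2).div_const _)
          (HasCompactSupport.of_compactSpace _)
    rw [integral_div] at h4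
    refine (abs_integral_le_integral_abs).trans (h4.trans ?_)
    rw [div_le_iff₀ (by positivity)]
    linarith

/-- **The construction** -/
theorem construct {b : ℕ} {M : Set (ProbabilityMeasure UnitAddCircle)} (hM : Inv b M)
    (hU : ∀ g, UE b M g) (γ : ℝ) (hγ : 0 ≤ γ) (hγ1 : γ < 1) (S₀ : C(UnitAddCircle, ℝ))
    (hS0 : S₀ 0 = 1) (hS : ∀ τ ∈ M, |∫ y, S₀ y ∂(τ : Measure UnitAddCircle)| ≤ γ) :
    ∃ f : C(UnitAddCircle, ℝ), 0 < f 0 ∧ ∀ τ ∈ M, ∫ y, f y ∂(τ : Measure UnitAddCircle) = 0 := by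
  set κ : ℝ := (1 - γ) / 2 with hκ
  have hκ0 : 0 < κ := by rw [hκ]; linarith
  obtain ⟨S₁, h1, h2⟩ := step hM hU S₀ γ ((1 + γ) / 2) (κ / 8) hγ (by linarith) (by positivity) hS
  set ε : ℕ → ℝ := fun j => κ / 8 * (1 / 8) ^ j with hε
  have hε0 : ∀ j, 0 < ε j := fun j => by rw [hε]; positivity
  have hstep : ∀ (j : ℕ) (S : {S : C(UnitAddCircle, ℝ) //
      ∀ τ ∈ M, |∫ y, S y ∂(τ : Measure UnitAddCircle)| ≤ ε j}),
      ∃ S' : {S : C(UnitAddCircle, ℝ) //
        ∀ τ ∈ M, |∫ y, S y ∂(τ : Measure UnitAddCircle)| ≤ ε (j + 1)},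
        ‖(S' : C(UnitAddCircle, ℝ)) - S‖ ≤ 2 * ε j := by
    intro j S
    obtain ⟨S', h3, h4⟩ := step hM hU S.1 (ε j) (2 * ε j) (ε (j + 1)) (hε0 j).le
      (by linarith [hε0 j]) (hε0 _) S.2
    exact ⟨⟨S', h4⟩, h3⟩
  choose next hnext using hstep
  obtain ⟨G, hG0, hGs⟩ : ∃ G : (j : ℕ) → {S : C(UnitAddCircle, ℝ) //
      ∀ τ ∈ M, |∫ y, S y ∂(τ : Measure UnitAddCircle)| ≤ ε j},
      (G 0 : C(UnitAddCircle, ℝ)) = S₁ ∧ ∀ j, G (j + 1) = next j (G j) := by
    have h3 : ∀ τ ∈ M, |∫ y, S₁ y ∂(τ : Measure UnitAddCircle)| ≤ ε 0 := by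
      intro τ hτ
      refine (h2 τ hτ).trans (le_of_eq ?_)
      rw [hε]
      simp
    exact ⟨fun j => Nat.rec (motive := fun j => {S : C(UnitAddCircle, ℝ) //
      ∀ τ ∈ M, |∫ y, S y ∂(τ : Measure UnitAddCircle)| ≤ ε j}) ⟨S₁, h3⟩ (fun j S => next j S) j,
      rfl, fun j => rfl⟩
  have hd : ∀ j, dist (G j : C(UnitAddCircle, ℝ)) (G (j + 1)) ≤ κ / 4 * (1 / 8) ^ j := by
    intro j
    rw [dist_comm, dist_eq_norm, hGs]
    refine (hnext j (G j)).trans (le_of_eq ?_)
    rw [hε]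
    ring
  have hcauchy := cauchySeq_of_le_geometric (1 / 8 : ℝ) (κ / 4) (by norm_num) hd
  obtain ⟨f, hf⟩ := cauchySeq_tendsto_of_complete hcauchy
  refine ⟨f, ?_, fun τ hτ => ?_⟩
  · have h3 := dist_le_of_le_geometric_of_tendsto₀ (1 / 8 : ℝ) (κ / 4) (by norm_num) hd hf
    rw [hG0] at h3
    have h4 := ContinuousMap.dist_apply_le_dist (f := S₁) (g := f) 0
    have h5 := ContinuousMap.norm_coe_le_norm (S₁ - S₀) 0
    rw [ContinuousMap.sub_apply, hS0, Real.norm_eq_abs, abs_le] at h5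
    rw [Real.dist_eq, abs_le] at h4
    have h6 : κ / 4 / (1 - 1 / 8) = 2 * κ / 7 := by ring
    rw [h6] at h3
    have h7 : (1 + γ) / 2 = 1 - κ := by rw [hκ]; ring
    rw [h7] at h1
    linarith [h4.2, h5.1]
  · have h3 : Tendsto (fun j => ∫ y, (G j : C(UnitAddCircle, ℝ)) y ∂(τ : Measure UnitAddCircle)) atTop
        (𝓝 (∫ y, f y ∂(τ : Measure UnitAddCircle))) := by
      rw [tendsto_iff_dist_tendsto_zero] at hf ⊢
      refine squeeze_zero (fun _ => dist_nonneg) (fun j => ?_) hf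
      rw [dist_eq_norm, dist_eq_norm, ← integral_sub (rint τ _) (rint τ _)]
      have h4 := norm_integral_le_of_norm_le_const (μ := (τ : Measure UnitAddCircle))
        (f := fun y => (G j : C(UnitAddCircle, ℝ)) y - f y)
        (C := ‖(G j : C(UnitAddCircle, ℝ)) - f‖)
        (ae_of_all _ fun y => ContinuousMap.norm_coe_le_norm ((G j : C(UnitAddCircle, ℝ)) - f) y)
      simpa using h4
    have h4 : Tendsto (fun j => ∫ y, (G j : C(UnitAddCircle, ℝ)) y ∂(τ : Measure UnitAddCircle)) atTop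
        (𝓝 0) := by
      refine squeeze_zero_norm (a := ε) (fun j => ?_) ?_
      · rw [Real.norm_eq_abs]
        exact (G j).2 τ hτ
      · have := (tendsto_pow_atTop_nhds_zero_of_lt_one (r := (1 / 8 : ℝ)) (by norm_num)
          (by norm_num)).const_mul (κ / 8)
        rwa [mul_zero] at this
    exact tendsto_nhds_unique h3 h4

end Pool.Agent.Helper34.NF
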