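import Pool.Agent.Helper34.NF.Seq

/-! The Fourier series of the distance to the nearest integer. -/

set_option autoImplicit false

open MeasureTheory Filter Topology Metric Set
open Q241.SW (avg e ex ex_norm Normal)

namespace Pool.Agent.Helper34.NF

lemma b2 (y : ℝ) : HasSum (fun h : ℤ => 1 / (h : ℂ) ^ 2 * e (h * y))
    ((2 * Real.pi ^ 2 * (Int.fract y ^ 2 - Int.fract y + 1 / 6) : ℝ) : ℂ) := by
  have h1 := hasSum_one_div_pow_mul_fourier_mul_bernoulliFun (k := 2) le_rfl
    (x := Int.fract y) ⟨Int.fract_nonneg y, (Int.fract_lt_one y).le⟩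
  rw [bernoulliFun_two] at h1
  have h2 : ((Int.fract y : ℝ) : UnitAddCircle) = (y : UnitAddCircle) := by
    rw [← sub_eq_zero, ← AddCircle.coe_sub, AddCircle.coe_eq_zero_iff]
    refine ⟨-⌊y⌋, ?_⟩
    rw [Int.fract]
    simp
  rw [h2] at h1
  simp_rw [fourier_e] at h1
  convert! h1 using 1
  push_cast [Nat.factorial]
  ring_nf
  rw [Complex.I_sq]
  ring

lemma dist_b2 (y : ℝ) : |y - round y| = 1 / 4 -
    (Int.fract y ^ 2 - Int.fract y + 1 / 6) +
    (Int.fract (y + 1 / 2) ^ 2 - Int.fract (y + 1 / 2) + 1 / 6) := by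
  have h0 := Int.fract_nonneg y
  have h1 := Int.fract_lt_one y
  rw [abs_sub_round_eq_min]
  rcases lt_or_ge (Int.fract y) (1 / 2) with h | h
  · have h2 : Int.fract (y + 1 / 2) = Int.fract y + 1 / 2 := by
      rw [Int.fract_eq_iff]
      refine ⟨by linarith, by linarith, ⌊y⌋, ?_⟩
      rw [Int.fract]
      ring
    rw [h2, min_eq_left (by linarith)]
    ring
  · have h2 : Int.fract (y + 1 / 2) = Int.fract y - 1 / 2 := by
      rw [Int.fract_eq_iff]
      refine ⟨by linarith, by linarith, ⌊y⌋ + 1, ?_⟩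
      rw [Int.fract]
      push_cast
      ring
    rw [h2, min_eq_right (by linarith)]
    ring

/-- the Fourier coefficients of the distance to the nearest integer -/
noncomputable def cd (h : ℤ) : ℂ :=
  (if h = 0 then 1 / 4 else 0) - 1 / (2 * Real.pi ^ 2) * ((1 - e (h * (1 / 2))) * (1 / (h : ℂ) ^ 2))

lemma cd_zero : cd 0 = 1 / 4 := by
  unfold cd
  simp

lemma cd_summable : Summable fun h => ‖cd h‖ := by
  have h1 : Summable fun h : ℤ => 1 / (h : ℝ) ^ 2 := Real.summable_one_div_int_pow.2 one_lt_two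
  have h2 : Summable fun h : ℤ => (if h = 0 then (1 / 4 : ℝ) else 0) :=
    (hasSum_ite_eq (0 : ℤ) (1 / 4 : ℝ)).summable
  refine Summable.of_nonneg_of_le (fun _ => norm_nonneg _) (fun h => ?_)
    (h2.add (h1.mul_left (1 / (2 * Real.pi ^ 2) * 2)))
  unfold cd
  refine (norm_sub_le _ _).trans (add_le_add ?_ ?_)
  · split_ifs <;> simp
  · rw [norm_mul, norm_mul, mul_assoc]
    have e1 : ‖(1 / (2 * Real.pi ^ 2) : ℂ)‖ = 1 / (2 * Real.pi ^ 2) := by
      have : (1 / (2 * Real.pi ^ 2) : ℂ) = ((1 / (2 * Real.pi ^ 2) : ℝ) : ℂ) := by push_cast; rfl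
      rw [this, Complex.norm_real, Real.norm_eq_abs, abs_of_nonneg (by positivity)]
    have e2 : ‖1 / (h : ℂ) ^ 2‖ = 1 / (h : ℝ) ^ 2 := by
      have : (1 / (h : ℂ) ^ 2) = ((1 / (h : ℝ) ^ 2 : ℝ) : ℂ) := by push_cast; rfl
      rw [this, Complex.norm_real, Real.norm_eq_abs, abs_of_nonneg (by positivity)]
    rw [e1, e2]
    refine mul_le_mul_of_nonneg_left ?_ (by positivity)
    refine mul_le_mul_of_nonneg_right ?_ (by positivity)
    refine (norm_sub_le _ _).trans ?_
    rw [Q241.SW.e_norm, norm_one]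
    norm_num

/-- **The Fourier series of the distance to the nearest integer.** -/
theorem cd_sum (y : ℝ) : Fn cd y = ((|y - round y| : ℝ) : ℂ) := by
  unfold Fn
  refine HasSum.tsum_eq ?_
  have h1 := (b2 y).sub (b2 (y + 1 / 2))
  have h2 := h1.mul_left (1 / (2 * Real.pi ^ 2) : ℂ)
  have h3 : HasSum (fun h : ℤ => (if h = 0 then (1 / 4 : ℂ) else 0) * e (h * y)) (1 / 4) := by
    have h4 := hasSum_ite_eq (0 : ℤ) (1 / 4 : ℂ)
    refine h4.congr_fun ?_ |> id
    intro h
    split_ifs with h0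
    · subst h0
      simp [Q241.SW.e]
    · simp
  have h5 := h3.sub h2
  have hpi : (Real.pi : ℂ) ≠ 0 := by exact_mod_cast Real.pi_ne_zero
  convert! h5 using 1
  · funext h
    unfold cd
    rw [mul_add, Q241.SW.e_add]
    ring
  · rw [dist_b2]
    push_cast
    field_simp
    ring

end Pool.Agent.Helper34.NF
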