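import Pool.Agent.Helper34.NF.Nn

/-! An infinite product. -/

set_option autoImplicit false

open Filter Topology

namespace Pool.Agent.Helper34.NF

/-- one factor -/
noncomputable def q (x : ℝ) : ℝ := 1 - Real.sin (Real.pi * x) ^ 2 / 2

lemma q_lo (x : ℝ) : 1 / 2 ≤ q x := by
  unfold q
  have := Real.sin_sq_le_one (Real.pi * x)
  linarith

lemma q_hi (x : ℝ) : q x ≤ 1 := by
  unfold q
  have := sq_nonneg (Real.sin (Real.pi * x))
  linarith

lemma q_pos (x : ℝ) : 0 < q x := lt_of_lt_of_le (by norm_num) (q_lo x)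

lemma q_le (x : ℝ) : q x ≤ 1 - 2 * nn x ^ 2 := by
  unfold q
  have h1 := (sin_nn x).1
  have h2 := nn_nonneg x
  have h3 : (2 * nn x) ^ 2 ≤ |Real.sin (Real.pi * x)| ^ 2 := by gcongr
  rw [sq_abs] at h3
  linarith

lemma q_exp (x : ℝ) : q x ≤ Real.exp (-2 * nn x ^ 2) := by
  refine (q_le x).trans ?_
  have := Real.add_one_le_exp (-2 * nn x ^ 2)
  linarith

lemma q_ge (x : ℝ) : 1 - Real.pi ^ 2 / 2 * x ^ 2 ≤ q x := by
  unfold q
  have h1 := Real.abs_sin_le_abs (x := Real.pi * x)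
  have h2 : |Real.sin (Real.pi * x)| ^ 2 ≤ |Real.pi * x| ^ 2 := by gcongr
  rw [sq_abs, sq_abs] at h2
  nlinarith

lemma q_diff (x y : ℝ) : |q (x - y) - q x * q y| ≤ 2 * Real.pi ^ 2 * (nn x * nn y) := by
  have hx := (sin_nn x).2
  have hy := (sin_nn y).2
  set s := Real.sin (Real.pi * x) with hs
  set t := Real.sin (Real.pi * y) with ht
  set c := Real.cos (Real.pi * x) with hc
  set d := Real.cos (Real.pi * y) with hd
  have h1 : s ^ 2 + c ^ 2 = 1 := Real.sin_sq_add_cos_sq _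
  have h2 : t ^ 2 + d ^ 2 = 1 := Real.sin_sq_add_cos_sq _
  have h3 : Real.sin (Real.pi * (x - y)) = s * d - c * t := by
    rw [mul_sub, Real.sin_sub]
  have h4 : q (x - y) - q x * q y = s * t * (3 / 4 * (s * t) + c * d) := by
    unfold q
    rw [h3, ← hs, ← ht]
    have e1 : c ^ 2 = 1 - s ^ 2 := by linarith
    have e2 : d ^ 2 = 1 - t ^ 2 := by linarith
    have e3 : (s * d - c * t) ^ 2 = s ^ 2 * d ^ 2 + c ^ 2 * t ^ 2 - 2 * s * t * (c * d) := by ring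
    rw [e3, e1, e2]
    ring
  have hs1 : |s| ≤ 1 := Real.abs_sin_le_one _
  have ht1 : |t| ≤ 1 := Real.abs_sin_le_one _
  have hc1 : |c| ≤ 1 := Real.abs_cos_le_one _
  have hd1 : |d| ≤ 1 := Real.abs_cos_le_one _
  rw [h4, abs_mul, abs_mul]
  have h5 : |3 / 4 * (s * t) + c * d| ≤ 2 := by
    refine (abs_add_le _ _).trans ?_
    rw [abs_mul, abs_mul, abs_mul, abs_of_pos (by norm_num : (0 : ℝ) < 3 / 4)]
    have := mul_le_one₀ hs1 (abs_nonneg t) ht1
    have := mul_le_one₀ hc1 (abs_nonneg d) hd1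
    linarith
  have hnx : 0 ≤ Real.pi * nn x := mul_nonneg Real.pi_pos.le (nn_nonneg x)
  have hny : 0 ≤ Real.pi * nn y := mul_nonneg Real.pi_pos.le (nn_nonneg y)
  have h6 : |s| * |t| ≤ (Real.pi * nn x) * (Real.pi * nn y) :=
    mul_le_mul hx hy (abs_nonneg _) hnx
  calc |s| * |t| * |3 / 4 * (s * t) + c * d| ≤ ((Real.pi * nn x) * (Real.pi * nn y)) * 2 :=
        mul_le_mul h6 h5 (abs_nonneg _) (mul_nonneg hnx hny)
    _ = 2 * Real.pi ^ 2 * (nn x * nn y) := by ring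

/-- the partial products -/
noncomputable def PF (b : ℕ) (m : ℤ) (n : ℕ) : ℝ :=
  ∏ p ∈ Finset.range n, q (m / (b : ℝ) ^ (p + 1))

lemma PF_pos (b : ℕ) (m : ℤ) (n : ℕ) : 0 < PF b m n := Finset.prod_pos fun _ _ => q_pos _

lemma PF_le_one (b : ℕ) (m : ℤ) (n : ℕ) : PF b m n ≤ 1 :=
  Finset.prod_le_one (fun _ _ => (q_pos _).le) fun _ _ => q_hi _

lemma PF_anti (b : ℕ) (m : ℤ) : Antitone (PF b m) := by
  refine antitone_nat_of_succ_le fun n => ?_
  unfold PF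
  rw [Finset.prod_range_succ]
  exact mul_le_of_le_one_right (PF_pos b m n).le (q_hi _)

/-- the infinite product -/
noncomputable def F (b : ℕ) (m : ℤ) : ℝ := ⨅ n, PF b m n

lemma PF_bdd (b : ℕ) (m : ℤ) : BddBelow (Set.range (PF b m)) := by
  refine ⟨0, ?_⟩
  rintro _ ⟨n, rfl⟩
  exact (PF_pos b m n).le

lemma PF_tendsto (b : ℕ) (m : ℤ) : Tendsto (PF b m) atTop (𝓝 (F b m)) :=
  tendsto_atTop_ciInf (PF_anti b m) (PF_bdd b m)

lemma F_le (b : ℕ) (m : ℤ) (n : ℕ) : F b m ≤ PF b m n := ciInf_le (PF_bdd b m) n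

lemma F_nonneg (b : ℕ) (m : ℤ) : 0 ≤ F b m := le_ciInf fun n => (PF_pos b m n).le

lemma F_le_one (b : ℕ) (m : ℤ) : F b m ≤ 1 := (F_le b m 0).trans (PF_le_one b m 0)

lemma F_zero (b : ℕ) : F b 0 = 1 := by
  refine tendsto_nhds_unique (PF_tendsto b 0) (tendsto_const_nhds.congr fun n => ?_)
  unfold PF q
  simp

lemma F_neg (b : ℕ) (m : ℤ) : F b (-m) = F b m := by
  refine tendsto_nhds_unique (PF_tendsto b (-m)) ((PF_tendsto b m).congr fun n => ?_)
  unfold PF q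
  refine Finset.prod_congr rfl fun p _ => ?_
  push_cast
  rw [neg_div, mul_neg, Real.sin_neg, neg_sq]

lemma F_le_q (b : ℕ) (m : ℤ) (p : ℕ) : F b m ≤ q (m / (b : ℝ) ^ (p + 1)) := by
  refine (F_le b m (p + 1)).trans ?_
  unfold PF
  rw [Finset.prod_range_succ]
  exact mul_le_of_le_one_left (q_pos _).le (PF_le_one b m p)

variable {b : ℕ} (hb : 2 ≤ b)

include hb

lemma F_exp (m : ℤ) : F b m ≤ Real.exp (-2 * ∑' p, A b m p ^ 2) := by
  have h1 : ∀ n, PF b m n ≤ Real.exp (-2 * ∑ p ∈ Finset.range n, A b m p ^ 2) := by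
    intro n
    rw [Finset.mul_sum, Real.exp_sum]
    unfold PF
    exact Finset.prod_le_prod (fun p _ => (q_pos _).le) fun p _ => q_exp _
  have h2 := (A_sq_summable hb m).hasSum.tendsto_sum_nat
  have h3 := (Real.continuous_exp.tendsto _).comp (h2.const_mul (-2))
  exact le_of_tendsto_of_tendsto' (PF_tendsto b m) h3 h1

lemma PF_mul (m : ℤ) (k n : ℕ) : PF b (m * (b : ℤ) ^ k) (k + n) = PF b m n := by
  have hb0 : (2 : ℝ) ≤ b := by exact_mod_cast hb
  unfold PF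
  rw [Finset.prod_range_add]
  have h1 : ∏ p ∈ Finset.range k, q ((m * (b : ℤ) ^ k : ℤ) / (b : ℝ) ^ (p + 1)) = 1 := by
    refine Finset.prod_eq_one fun p hp => ?_
    obtain ⟨j, rfl⟩ := Nat.exists_eq_add_of_lt (Finset.mem_range.1 hp)
    have : ((m * (b : ℤ) ^ (p + j + 1) : ℤ) : ℝ) / (b : ℝ) ^ (p + 1) = ((m * (b : ℤ) ^ j : ℤ) : ℝ) := by
      push_cast
      have : (b : ℝ) ^ (p + j + 1) = (b : ℝ) ^ (p + 1) * (b : ℝ) ^ j := by ring
      rw [this]
      field_simp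
    rw [this]
    unfold q
    rw [mul_comm, Real.sin_int_mul_pi]
    norm_num
  rw [h1, one_mul]
  refine Finset.prod_congr rfl fun p _ => ?_
  congr 1
  push_cast
  have : (b : ℝ) ^ (k + p + 1) = (b : ℝ) ^ (p + 1) * (b : ℝ) ^ k := by ring
  rw [this]
  field_simp

lemma F_mul (m : ℤ) (k : ℕ) : F b (m * (b : ℤ) ^ k) = F b m := by
  have h1 := (tendsto_add_atTop_iff_nat k).2 (PF_tendsto b (m * (b : ℤ) ^ k))
  refine tendsto_nhds_unique h1 ((PF_tendsto b m).congr fun n => ?_)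
  rw [add_comm n k, PF_mul hb]

omit hb in
lemma prod_diff (u v : ℕ → ℝ) (hu : ∀ p, |u p| ≤ 1) (hv : ∀ p, |v p| ≤ 1) (n : ℕ) :
    |∏ p ∈ Finset.range n, u p - ∏ p ∈ Finset.range n, v p| ≤
      ∑ p ∈ Finset.range n, |u p - v p| := by
  induction n with
  | zero => simp
  | succ n ih =>
    rw [Finset.prod_range_succ, Finset.prod_range_succ, Finset.sum_range_succ]
    have h1 : |∏ p ∈ Finset.range n, v p| ≤ 1 := by
      rw [Finset.abs_prod]
      exact Finset.prod_le_one (fun _ _ => abs_nonneg _) fun p _ => hv p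
    have e1 : (∏ p ∈ Finset.range n, u p) * u n - (∏ p ∈ Finset.range n, v p) * v n =
        (∏ p ∈ Finset.range n, u p - ∏ p ∈ Finset.range n, v p) * u n +
        (∏ p ∈ Finset.range n, v p) * (u n - v n) := by ring
    rw [e1]
    refine (abs_add_le _ _).trans (add_le_add ?_ ?_)
    · rw [abs_mul]
      exact (mul_le_of_le_one_right (abs_nonneg _) (hu n)).trans ih
    · rw [abs_mul]
      exact mul_le_of_le_one_left (abs_nonneg _) h1

lemma pair_summable (m : ℤ) (k : ℕ) : Summable fun p => A b m p * A b m (p + k) := by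
  refine Summable.of_nonneg_of_le (fun p => mul_nonneg (A_nonneg _ _ _) (A_nonneg _ _ _))
    (fun p => ?_) (A_summable hb m)
  have h1 := A_nonneg b m p
  have h2 := A_half b m (p + k)
  nlinarith

lemma F_diff (m : ℤ) (k : ℕ) : |F b (m * (b : ℤ) ^ k - m) - F b m ^ 2| ≤
    2 * Real.pi ^ 2 * ∑' p, A b m p * A b m (p + k) := by
  have hs : Summable fun p => A b (m * (b : ℤ) ^ k) p * A b m p := by
    refine Summable.of_nonneg_of_le (fun p => mul_nonneg (A_nonneg _ _ _) (A_nonneg _ _ _))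
      (fun p => ?_) (A_summable hb m)
    have h1 := A_nonneg b m p
    have h2 := A_half b (m * (b : ℤ) ^ k) p
    nlinarith
  have h0 : ∑' p, A b (m * (b : ℤ) ^ k) p * A b m p = ∑' p, A b m p * A b m (p + k) := by
    rw [← hs.sum_add_tsum_nat_add k]
    have e1 : ∑ p ∈ Finset.range k, A b (m * (b : ℤ) ^ k) p * A b m p = 0 :=
      Finset.sum_eq_zero fun p hp => by
        rw [A_mul_lt hb m k p (Finset.mem_range.1 hp), zero_mul]
    rw [e1, zero_add]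
    refine tsum_congr fun p => ?_
    rw [A_mul hb]
  have h1 : ∀ n, |PF b (m * (b : ℤ) ^ k - m) n - PF b (m * (b : ℤ) ^ k) n * PF b m n| ≤
      2 * Real.pi ^ 2 * ∑' p, A b m p * A b m (p + k) := by
    intro n
    unfold PF
    rw [← Finset.prod_mul_distrib]
    have habs : ∀ x, |q x| ≤ 1 := fun x => abs_le.2 ⟨by linarith [q_pos x], q_hi x⟩
    refine (prod_diff _ _ (fun p => habs _) (fun p => ?_) n).trans ?_
    · rw [abs_mul]
      exact mul_le_one₀ (habs _) (abs_nonneg _) (habs _)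
    · have h2 : ∀ p, |q ((m * (b : ℤ) ^ k - m : ℤ) / (b : ℝ) ^ (p + 1)) -
          q ((m * (b : ℤ) ^ k : ℤ) / (b : ℝ) ^ (p + 1)) * q (m / (b : ℝ) ^ (p + 1))| ≤
          2 * Real.pi ^ 2 * (A b (m * (b : ℤ) ^ k) p * A b m p) := by
        intro p
        have h3 := q_diff ((m * (b : ℤ) ^ k : ℤ) / (b : ℝ) ^ (p + 1)) (m / (b : ℝ) ^ (p + 1))
        rw [← sub_div, ← Int.cast_sub] at h3
        exact h3
      refine (Finset.sum_le_sum fun p _ => h2 p).trans ?_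
      rw [← Finset.mul_sum, ← h0]
      refine mul_le_mul_of_nonneg_left ?_ (by positivity)
      exact hs.sum_le_tsum _ fun p _ => mul_nonneg (A_nonneg _ _ _) (A_nonneg _ _ _)
  have h2 := ((PF_tendsto b (m * (b : ℤ) ^ k - m)).sub
    ((PF_tendsto b (m * (b : ℤ) ^ k)).mul (PF_tendsto b m))).abs
  rw [F_mul hb, ← sq] at h2
  exact le_of_tendsto' h2 h1

lemma F_gap (m : ℤ) (hm : m ≠ 0) : F b m ≤ 1 - 2 / (b : ℝ) ^ 2 := by
  have hb0 : (2 : ℝ) ≤ b := by exact_mod_cast hb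
  obtain ⟨p, m', h1, h2⟩ : ∃ (p : ℕ) (m' : ℤ), ¬ (b : ℤ) ∣ m' ∧ m = m' * (b : ℤ) ^ p := by
    obtain ⟨p, n, h3, h4⟩ := Nat.exists_eq_pow_mul_and_not_dvd (n := m.natAbs) (by omega) b (by omega)
    rcases Int.natAbs_eq m with h5 | h5
    · refine ⟨p, n, fun h => h3 (by exact_mod_cast h), ?_⟩
      rw [h5, h4]
      push_cast
      ring
    · refine ⟨p, -n, fun h => h3 ?_, ?_⟩
      · rw [dvd_neg] at h
        exact_mod_cast h
      · rw [h5, h4]
        push_cast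
        ring
  rw [h2, F_mul hb]
  refine (F_le_q b m' 0).trans ?_
  refine (q_le _).trans ?_
  have h3 : 1 / (b : ℝ) ≤ nn (m' / (b : ℝ) ^ (0 + 1)) := by
    rw [nn_eq, zero_add, pow_one]
    set r := round ((m' : ℝ) / b) with hr
    have h4 : (m' : ℝ) / b - r = ((m' - b * r : ℤ) : ℝ) / b := by
      push_cast
      field_simp
    rw [h4, abs_div, abs_of_pos (by linarith : (0 : ℝ) < b)]
    refine div_le_div_of_nonneg_right ?_ (by linarith)
    have h5 : m' - b * r ≠ 0 := fun h => h1 ⟨r, by linarith⟩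
    have h6 : (1 : ℤ) ≤ |m' - b * r| := Int.one_le_abs h5
    exact_mod_cast h6
  have h4 : (1 / (b : ℝ)) ^ 2 ≤ nn (m' / (b : ℝ) ^ (0 + 1)) ^ 2 := by gcongr
  have h5 : (1 / (b : ℝ)) ^ 2 = 1 / (b : ℝ) ^ 2 := by rw [div_pow, one_pow]
  rw [h5] at h4
  have h6 : 2 / (b : ℝ) ^ 2 = 2 * (1 / (b : ℝ) ^ 2) := by ring
  linarith

lemma F_one_pos : 0 < F b 1 := by
  have hb0 : (2 : ℝ) ≤ b := by exact_mod_cast hb
  have hpi := Real.pi_lt_d2
  have hpi0 := Real.pi_pos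
  have h1 : ∀ n : ℕ, 1 - (1 / 2) * (1 - (1 / 4 : ℝ) ^ n) ≤
      ∏ p ∈ Finset.range n, q ((1 : ℤ) / (b : ℝ) ^ (p + 1 + 1)) ∧
      ∏ p ∈ Finset.range n, q ((1 : ℤ) / (b : ℝ) ^ (p + 1 + 1)) ≤ 1 := by
    intro n
    induction n with
    | zero => simp
    | succ n ih =>
      rw [Finset.prod_range_succ]
      set P := ∏ p ∈ Finset.range n, q ((1 : ℤ) / (b : ℝ) ^ (p + 1 + 1)) with hP
      have h2 := q_ge ((1 : ℤ) / (b : ℝ) ^ (n + 1 + 1))
      have h2' := q_hi ((1 : ℤ) / (b : ℝ) ^ (n + 1 + 1))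
      have h2'' := q_pos ((1 : ℤ) / (b : ℝ) ^ (n + 1 + 1))
      set Q := q ((1 : ℤ) / (b : ℝ) ^ (n + 1 + 1)) with hQ
      have h3 : (((1 : ℤ) : ℝ) / (b : ℝ) ^ (n + 1 + 1)) ^ 2 ≤ (1 / 4 : ℝ) ^ n * (1 / 16) := by
        push_cast
        rw [div_pow, one_pow, ← pow_mul]
        have h4 : (2 : ℝ) ^ ((n + 1 + 1) * 2) ≤ (b : ℝ) ^ ((n + 1 + 1) * 2) := by gcongr
        have h5 : (1 / 4 : ℝ) ^ n * (1 / 16) = 1 / (2 : ℝ) ^ ((n + 1 + 1) * 2) := by
          have : (2 : ℝ) ^ ((n + 1 + 1) * 2) = 4 ^ n * 16 := by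
            rw [show (4 : ℝ) = 2 ^ 2 by norm_num, ← pow_mul]
            ring
          rw [this, one_div_pow]
          field_simp
        rw [h5]
        exact one_div_le_one_div_of_le (by positivity) h4
      have h6 : Real.pi ^ 2 ≤ 10 := by nlinarith
      have h7 : 1 - (5 / 16) * (1 / 4 : ℝ) ^ n ≤ Q := by
        refine le_trans ?_ h2
        have : Real.pi ^ 2 / 2 * (((1 : ℤ) : ℝ) / (b : ℝ) ^ (n + 1 + 1)) ^ 2 ≤
            10 / 2 * ((1 / 4 : ℝ) ^ n * (1 / 16)) := by gcongr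
        linarith
      have h8 : (0 : ℝ) < (1 / 4) ^ n := by positivity
      have h9 : (1 / 4 : ℝ) ^ n ≤ 1 := pow_le_one₀ (by norm_num) (by norm_num)
      have h10 : (1 / 4 : ℝ) ^ (n + 1) = (1 / 4) ^ n / 4 := by rw [pow_succ]; ring
      rw [h10]
      constructor
      · nlinarith [ih.1, ih.2]
      · exact mul_le_one₀ ih.2 h2''.le h2'
  have h2 : ∀ n : ℕ, 1 / 4 ≤ PF b 1 (1 + n) := by
    intro n
    unfold PF
    rw [Finset.prod_range_add, Finset.prod_range_one]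
    have h3 := (h1 n).1
    have h4 : ∏ x ∈ Finset.range n, q (((1 : ℤ) : ℝ) / (b : ℝ) ^ (1 + x + 1)) =
        ∏ p ∈ Finset.range n, q ((1 : ℤ) / (b : ℝ) ^ (p + 1 + 1)) := by
      refine Finset.prod_congr rfl fun p _ => ?_
      rw [add_comm 1 p]
    rw [h4]
    have h5 := q_lo (((1 : ℤ) : ℝ) / (b : ℝ) ^ (0 + 1))
    have h6 : (0 : ℝ) < (1 / 4) ^ n := by positivity
    have h7 : (1 / 2 : ℝ) ≤ ∏ p ∈ Finset.range n, q ((1 : ℤ) / (b : ℝ) ^ (p + 1 + 1)) := by linarith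
    calc (1 / 4 : ℝ) = 1 / 2 * (1 / 2) := by norm_num
      _ ≤ _ := mul_le_mul h5 h7 (by norm_num) (by linarith)
  have h3 := (tendsto_add_atTop_iff_nat 1).2 (PF_tendsto b 1)
  have h4 : (1 / 4 : ℝ) ≤ F b 1 := ge_of_tendsto' h3 fun n => by
    rw [add_comm]
    exact h2 n
  linarith

end Pool.Agent.Helper34.NF
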