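import Pool.Agent.Helper34.NF.Dist

/-! Functions of a real variable. -/

set_option autoImplicit false

open MeasureTheory Filter Topology Metric Set
open Q241.SW (avg e ex ex_norm Normal)

namespace Pool.Agent.Helper34.NF

lemma FC_vol {c : ℤ → ℂ} (hc : Summable fun h => ‖c h‖) :
    ∫ z : UnitAddCircle, FC c z = c 0 := by
  have h4 := FC_int hc (volume : Measure UnitAddCircle) 1
  have h5 : ∀ y : UnitAddCircle, T 1 y = y := fun y => one_smul _ _
  simp_rw [h5, mul_one] at h4
  rw [h4, tsum_eq_single 0]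
  · have : ∫ z : UnitAddCircle, (fourier 0 z : ℂ) = 1 := by
      simp
    rw [this, mul_one]
  · intro h hh
    rw [Q241.SW.int_fourier hh, mul_zero]

lemma FC_unit {c : ℤ → ℂ} (hc : Summable fun h => ‖c h‖) :
    ∫ y in (0 : ℝ)..1, Fn c y = c 0 := by
  rw [← FC_vol hc]
  have h1 := UnitAddCircle.intervalIntegral_preimage 0 (fun z => FC c z)
  rw [zero_add] at h1
  rw [← h1]
  simp_rw [FC_coe hc]

lemma Fn_zero (c : ℤ → ℂ) : Fn c 0 = ∑' h, c h := by
  unfold Fn
  refine tsum_congr fun h => ?_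
  simp [e]

lemma not_normal_zero (b : ℕ) (hb : 2 ≤ b) : ¬ Normal b 0 := by
  intro h
  have h1 := Q241.SW.exp_of_normal b hb 0 h 1 one_ne_zero
  have h2 : Tendsto (avg (ex b 0 1)) atTop (𝓝 1) := by
    refine tendsto_const_nhds.congr' ?_
    filter_upwards [eventually_gt_atTop 0] with N hN
    have hN0 : (N : ℂ) ≠ 0 := by exact_mod_cast hN.ne'
    unfold avg ex
    simp [e, hN0]
  exact zero_ne_one (tendsto_nhds_unique h1 h2)

/-- **The exact condition.** -/
theorem exact {c : ℤ → ℂ} (hc : Summable fun h => ‖c h‖) (b : ℕ) (hb : 2 ≤ b) :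
    (∀ x : ℝ, Normal b x ↔ Tests (Fn c) (c 0) b x) ↔ Fn c 0 ≠ c 0 := by
  rw [Fn_zero]
  constructor
  · intro h hA
    refine not_normal_zero b hb ((h 0).2 fun m _ => ?_)
    refine tendsto_const_nhds.congr' ?_
    filter_upwards [eventually_gt_atTop 0] with N hN
    have hN0 : (N : ℂ) ≠ 0 := by exact_mod_cast hN.ne'
    unfold avg
    simp [Fn_zero, hA, hN0]
  · intro hA x
    exact ⟨tests_of_normal hc b hb x, normal_of_tests hc hA b hb x⟩

/-- **The distances to the nearest integers.** -/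
theorem dist_iff (b : ℕ) (hb : 2 ≤ b) (x : ℝ) :
    Normal b x ↔ ∀ m : ℕ, 1 ≤ m → Tendsto (fun N : ℕ =>
      (∑ n ∈ Finset.range N, |m * (b : ℝ) ^ n * x - round (m * (b : ℝ) ^ n * x)|) / (N : ℝ))
      atTop (𝓝 (1 / 4)) := by
  have h1 : Fn cd 0 ≠ cd 0 := by
    rw [cd_sum, cd_zero]
    simp
  rw [(exact cd_summable b hb).2 h1 x]
  unfold Tests
  refine forall₂_congr fun m hm => ?_
  have h2 : ∀ N : ℕ, avg (fun n => Fn cd (m * ((b : ℝ) ^ n * x))) N =
      (((∑ n ∈ Finset.range N, |m * (b : ℝ) ^ n * x - round (m * (b : ℝ) ^ n * x)|) / (N : ℝ) : ℝ) : ℂ) := by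
    intro N
    unfold avg
    push_cast
    congr 1
    refine Finset.sum_congr rfl fun n _ => ?_
    rw [cd_sum, ← mul_assoc]
  have h3 : (1 / 4 : ℂ) = ((1 / 4 : ℝ) : ℂ) := by push_cast; rfl
  rw [cd_zero, h3]
  constructor
  · intro h
    have h4 := (Complex.continuous_re.tendsto _).comp h
    rw [Complex.ofReal_re] at h4
    refine h4.congr fun N => ?_
    simp only [Function.comp]
    rw [h2, Complex.ofReal_re]
  · intro h
    refine ((Complex.continuous_ofReal.tendsto _).comp h).congr fun N => ?_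
    rw [h2]
    rfl

end Pool.Agent.Helper34.NF
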