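import Pool.Agent.Helper34.NF.Cons
import Pool.Agent.Helper34.NF.Fin

/-! Generic points, and the counterexample. -/

set_option autoImplicit false

open MeasureTheory Filter Topology
open Q241.SW (avg e ex ex_norm Normal)

namespace Pool.Agent.Helper34.NF

lemma avg_near (u : ℕ → ℂ) (hu : ∀ n, ‖u n‖ ≤ 1) (K N : ℕ) (hK : 0 < K) (hKN : K ≤ N) :
    ‖avg u N - avg u K‖ ≤ 2 * (N - K) / N := by
  have hKr : (0 : ℝ) < K := by exact_mod_cast hK
  have hNr : (0 : ℝ) < N := by exact_mod_cast hK.trans_le hKN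
  have hKc : (K : ℂ) ≠ 0 := by exact_mod_cast hK.ne'
  have hNc : (N : ℂ) ≠ 0 := by exact_mod_cast (hK.trans_le hKN).ne'
  obtain ⟨d, rfl⟩ := Nat.exists_eq_add_of_le hKN
  have h1 : avg u (K + d) - avg u K =
      (∑ j ∈ Finset.range d, u (K + j) - d * avg u K) / ((K + d : ℕ) : ℂ) := by
    unfold avg
    rw [Finset.sum_range_add]
    field_simp
    push_cast
    ring
  have h2 : ‖avg u K‖ ≤ 1 := by
    unfold avg
    rw [norm_div, Complex.norm_natCast, div_le_one hKr]
    refine (norm_sum_le _ _).trans ?_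
    have := Finset.sum_le_card_nsmul (Finset.range K) (fun n => ‖u n‖) 1 fun n _ => hu n
    simpa using this
  have h3 : ‖∑ j ∈ Finset.range d, u (K + j)‖ ≤ d := by
    refine (norm_sum_le _ _).trans ?_
    have := Finset.sum_le_card_nsmul (Finset.range d) (fun j => ‖u (K + j)‖) 1 fun n _ => hu _
    simpa using this
  rw [h1, norm_div, Complex.norm_natCast]
  refine div_le_div_of_nonneg_right ?_ hNr.le
  refine (norm_sub_le _ _).trans ?_
  rw [norm_mul, Complex.norm_natCast]
  have h4 : (d : ℝ) * ‖avg u K‖ ≤ d := mul_le_of_le_one_right (Nat.cast_nonneg _) h2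
  push_cast
  linarith

lemma avg_squares (u : ℕ → ℂ) (hu : ∀ n, ‖u n‖ ≤ 1) (a : ℂ)
    (h : Tendsto (fun j : ℕ => avg u ((j + 1) ^ 2)) atTop (𝓝 a)) : Tendsto (avg u) atTop (𝓝 a) := by
  have hs : Tendsto (fun N : ℕ => N.sqrt - 1) atTop atTop := by
    rw [tendsto_atTop]
    intro k
    filter_upwards [eventually_ge_atTop ((k + 1) ^ 2)] with N hN
    have : k + 1 ≤ N.sqrt := by
      rw [Nat.le_sqrt']
      exact hN
    omega
  have h1 := h.comp hs
  have h2 : Tendsto (fun N : ℕ => avg u N - avg u ((N.sqrt - 1 + 1) ^ 2)) atTop (𝓝 0) := by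
    rw [tendsto_zero_iff_norm_tendsto_zero]
    have h3 : Tendsto (fun N : ℕ => 4 / (((N.sqrt - 1 : ℕ) : ℝ) + 1)) atTop (𝓝 0) := by
      have h4 := ((tendsto_one_div_add_atTop_nhds_zero_nat (𝕜 := ℝ)).const_mul 4).comp hs
      rw [mul_zero] at h4
      refine h4.congr fun N => ?_
      simp only [Function.comp]
      rw [mul_one_div]
    refine squeeze_zero' (Eventually.of_forall fun _ => norm_nonneg _) ?_ h3
    filter_upwards [eventually_ge_atTop 1] with N hN
    have h5 : 1 ≤ N.sqrt := by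
      rw [Nat.le_sqrt']
      simpa using hN
    have e1 : N.sqrt - 1 + 1 = N.sqrt := by omega
    have e2 : ((N.sqrt - 1 : ℕ) : ℝ) + 1 = (N.sqrt : ℝ) := by
      have : ((N.sqrt - 1 + 1 : ℕ) : ℝ) = (N.sqrt : ℝ) := by rw [e1]
      push_cast at this
      exact this
    rw [e1, e2]
    have h6 : N.sqrt ^ 2 ≤ N := Nat.sqrt_le' N
    have h7 : N < (N.sqrt + 1) ^ 2 := by
      have := Nat.lt_succ_sqrt' N
      exact this
    refine (avg_near u hu (N.sqrt ^ 2) N (by positivity) h6).trans ?_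
    have hs0 : (0 : ℝ) < N.sqrt := by exact_mod_cast h5
    have h8 : ((N.sqrt ^ 2 : ℕ) : ℝ) ≤ N := by exact_mod_cast h6
    have h9 : (N : ℝ) ≤ ((N.sqrt ^ 2 : ℕ) : ℝ) + 2 * N.sqrt := by
      have : N ≤ N.sqrt ^ 2 + 2 * N.sqrt := by nlinarith
      exact_mod_cast this
    have hNr : (0 : ℝ) < N := by exact_mod_cast hN
    rw [div_le_div_iff₀ hNr hs0]
    push_cast at h8 h9 ⊢
    nlinarith
  have h3 := h2.add h1
  rw [zero_add] at h3
  refine h3.congr fun N => ?_
  simp only [Function.comp]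
  ring

/-- a general form of Weyl's criterion -/
lemma weyl_gen (y : ℕ → UnitAddCircle) (μ : ProbabilityMeasure UnitAddCircle)
    (h : ∀ m : ℤ, Tendsto (avg fun n => (fourier m (y n) : ℂ)) atTop
      (𝓝 (∫ z, (fourier m z : ℂ) ∂(μ : Measure UnitAddCircle)))) (f : C(UnitAddCircle, ℂ)) :
    Tendsto (avg fun n => f (y n)) atTop (𝓝 (∫ z, f z ∂(μ : Measure UnitAddCircle))) := by
  have hspan : ∀ g ∈ Submodule.span ℂ (Set.range (@fourier 1)),
      Tendsto (avg fun n => g (y n)) atTop (𝓝 (∫ z, g z ∂(μ : Measure UnitAddCircle))) := by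
    intro g hg
    refine Submodule.span_induction ?_ ?_ ?_ ?_ hg
    · rintro _ ⟨m, rfl⟩
      exact h m
    · simp only [ContinuousMap.coe_zero, Pi.zero_apply, integral_zero]
      refine tendsto_const_nhds.congr fun N => ?_
      simp [avg]
    · intro g₁ g₂ _ _ h1 h2
      have h3 := h1.add h2
      simp only [ContinuousMap.coe_add, Pi.add_apply]
      rw [integral_add (cint _ g₁) (cint _ g₂)]
      refine h3.congr fun N => ?_
      unfold avg
      rw [Finset.sum_add_distrib, add_div]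
    · intro c g₁ _ h1
      have h3 := h1.const_mul c
      simp only [ContinuousMap.coe_smul, Pi.smul_apply, smul_eq_mul]
      rw [integral_const_mul]
      refine h3.congr fun N => ?_
      unfold avg
      rw [← Finset.mul_sum, mul_div_assoc]
  have hf : f ∈ closure (Submodule.span ℂ (Set.range (@fourier 1)) : Set C(UnitAddCircle, ℂ)) := by
    rw [← Submodule.topologicalClosure_coe, span_fourier_closure_eq_top]
    trivial
  rw [Metric.tendsto_atTop]
  intro ε hε
  obtain ⟨g, hg, hfg⟩ := Metric.mem_closure_iff.1 hf (ε / 3) (by positivity)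
  obtain ⟨N0, hN0⟩ := Metric.tendsto_atTop.1 (hspan g hg) (ε / 3) (by positivity)
  refine ⟨max N0 1, fun N hN => ?_⟩
  have hN1 : N0 ≤ N := (le_max_left _ _).trans hN
  have hN2 : 1 ≤ N := (le_max_right _ _).trans hN
  have hNr : (0 : ℝ) < N := by exact_mod_cast hN2
  rw [dist_eq_norm] at hfg
  have hpt : ∀ z, ‖f z - g z‖ ≤ ε / 3 := fun z => by
    have := (ContinuousMap.norm_coe_le_norm (f - g) z).trans hfg.le
    simpa using this
  have h1 : ‖avg (fun n => f (y n)) N - avg (fun n => g (y n)) N‖ ≤ ε / 3 := by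
    unfold avg
    rw [← sub_div, ← Finset.sum_sub_distrib, norm_div, Complex.norm_natCast, div_le_iff₀ hNr]
    refine (norm_sum_le _ _).trans ?_
    have := Finset.sum_le_sum (s := Finset.range N) fun n _ => hpt (y n)
    rw [Finset.sum_const, Finset.card_range, nsmul_eq_mul] at this
    linarith
  have h2 : ‖(∫ z, f z ∂(μ : Measure UnitAddCircle)) - ∫ z, g z ∂(μ : Measure UnitAddCircle)‖ ≤
      ε / 3 := by
    rw [← integral_sub (cint _ f) (cint _ g)]
    have := norm_integral_le_of_norm_le_const (μ := (μ : Measure UnitAddCircle))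
      (ae_of_all _ hpt)
    simpa using this
  have h3 := hN0 N hN1
  rw [dist_eq_norm] at h3 ⊢
  calc ‖avg (fun n => f (y n)) N - ∫ z, f z ∂(μ : Measure UnitAddCircle)‖
      = ‖(avg (fun n => f (y n)) N - avg (fun n => g (y n)) N) +
        (avg (fun n => g (y n)) N - ∫ z, g z ∂(μ : Measure UnitAddCircle)) -
        ((∫ z, f z ∂(μ : Measure UnitAddCircle)) - ∫ z, g z ∂(μ : Measure UnitAddCircle))‖ := by
          congr 1
          ring
    _ ≤ ‖avg (fun n => f (y n)) N - avg (fun n => g (y n)) N‖ +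
        ‖avg (fun n => g (y n)) N - ∫ z, g z ∂(μ : Measure UnitAddCircle)‖ +
        ‖(∫ z, f z ∂(μ : Measure UnitAddCircle)) - ∫ z, g z ∂(μ : Measure UnitAddCircle)‖ :=
          (norm_sub_le _ _).trans (add_le_add (norm_add_le _ _) le_rfl)
    _ < ε := by linarith

/-- Almost every point is generic. -/
theorem generic (b : ℕ) (hb : 2 ≤ b) : ∃ (σ : ProbabilityMeasure UnitAddCircle) (x : ℝ),
    (∀ m : ℤ, ∫ y, (fourier m y : ℂ) ∂(σ : Measure UnitAddCircle) = ((F b m : ℝ) : ℂ)) ∧
    ∀ m : ℤ, Tendsto (avg (ex b x m)) atTop (𝓝 ((F b m : ℝ) : ℂ)) := by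
  obtain ⟨σ, hσ⟩ := sig b
  have hae : ∀ m : ℤ, ∀ᵐ y ∂(σ : Measure UnitAddCircle),
      Tendsto (fun j : ℕ => AN b ((j + 1) ^ 2) (fourier m) y) atTop (𝓝 ((F b m : ℝ) : ℂ)) := by
    intro m
    obtain ⟨C, hC0, hC⟩ := Va_fixed hb m
    have h1 : ∀ j : ℕ, ∫ y, ‖AN b ((j + 1) ^ 2) (fourier m) y - ((F b m : ℝ) : ℂ)‖ ^ 2
        ∂(σ : Measure UnitAddCircle) ≤ C / ((j : ℝ) + 1) ^ 2 := by
      intro j
      have h2 := V_fourier b ((j + 1) ^ 2) (by positivity) σ (F b) hσ (fun m n => F_mul hb m n) m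
      have h3 := hC ((j + 1) ^ 2) (by positivity)
      unfold V at h2
      rw [hσ m] at h2
      rw [h2]
      refine h3.trans (le_of_eq ?_)
      push_cast
      rfl
    set H : ℕ → UnitAddCircle → ENNReal := fun j y =>
      ENNReal.ofReal (‖AN b ((j + 1) ^ 2) (fourier m) y - ((F b m : ℝ) : ℂ)‖ ^ 2) with hH
    have hHm : ∀ j, Measurable (H j) := fun j =>
      (((AN_cont b _ (fourier m)).sub continuous_const).norm.pow 2).measurable.ennreal_ofReal
    have h2 : ∫⁻ y, ∑' j, H j y ∂(σ : Measure UnitAddCircle) ≠ ⊤ := by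
      rw [lintegral_tsum fun j => (hHm j).aemeasurable]
      have h3 : ∀ j : ℕ, ∫⁻ y, H j y ∂(σ : Measure UnitAddCircle) ≤
          ENNReal.ofReal (C / ((j : ℝ) + 1) ^ 2) := by
        intro j
        rw [hH]
        simp only
        rw [← ofReal_integral_eq_lintegral_ofReal (V_integrable b _ (fourier m) σ _)
          (ae_of_all _ fun y => by positivity)]
        exact ENNReal.ofReal_le_ofReal (h1 j)
      have h4 : Summable fun j : ℕ => C / ((j : ℝ) + 1) ^ 2 := by
        have h5 : Summable fun j : ℕ => 1 / (j : ℝ) ^ 2 := Real.summable_one_div_nat_pow.2 one_lt_two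
        have h6 := ((summable_nat_add_iff 1).2 h5).mul_left C
        refine h6.congr fun j => ?_
        push_cast
        rw [mul_one_div]
      refine ne_top_of_le_ne_top ?_ (ENNReal.tsum_le_tsum h3)
      rw [← ENNReal.ofReal_tsum_of_nonneg (fun j => by positivity) h4]
      exact ENNReal.ofReal_ne_top
    have h3 := ae_lt_top' (AEMeasurable.tsum fun j => (hHm j).aemeasurable) h2
    filter_upwards [h3] with y hy
    have h4 := ENNReal.tendsto_atTop_zero_of_tsum_ne_top hy.ne
    have h5 := (ENNReal.tendsto_toReal ENNReal.zero_ne_top).comp h4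
    rw [ENNReal.toReal_zero] at h5
    have h6 : Tendsto (fun j : ℕ => ‖AN b ((j + 1) ^ 2) (fourier m) y - ((F b m : ℝ) : ℂ)‖ ^ 2) atTop
        (𝓝 0) := by
      refine h5.congr fun j => ?_
      simp only [Function.comp, hH]
      exact ENNReal.toReal_ofReal (by positivity)
    have h7 := h6.sqrt
    simp only [Real.sqrt_zero] at h7
    rw [← tendsto_sub_nhds_zero_iff, tendsto_zero_iff_norm_tendsto_zero]
    refine h7.congr fun j => ?_
    exact Real.sqrt_sq (norm_nonneg _)
  obtain ⟨y, hy⟩ := (ae_all_iff.2 hae).exists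
  obtain ⟨x, rfl⟩ := QuotientAddGroup.mk_surjective y
  refine ⟨σ, x, hσ, fun m => avg_squares _ (ex_norm b x m) _ ?_⟩
  refine (hy m).congr fun j => ?_
  unfold AN
  congr 1
  funext n
  change (fourier m (T ((b : ℤ) ^ n) (x : UnitAddCircle)) : ℂ) = _
  rw [T_coe]
  have := fourier_orb b x m n
  unfold orb at this
  rw [← this]
  push_cast
  rfl

/-- two functionals -/
lemma int_ext (μ ν : ProbabilityMeasure UnitAddCircle) (k : ℤ)
    (h : ∀ m : ℤ, ∫ y, (fourier m (T k y) : ℂ) ∂(μ : Measure UnitAddCircle) =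
      ∫ y, (fourier m y : ℂ) ∂(ν : Measure UnitAddCircle)) (g : C(UnitAddCircle, ℂ)) :
    ∫ y, g (T k y) ∂(μ : Measure UnitAddCircle) = ∫ y, g y ∂(ν : Measure UnitAddCircle) := by
  have hc : Summable fun h : ℤ => ‖(if h = k then (1 : ℂ) else 0)‖ := by
    refine summable_of_hasFiniteSupport ((Set.finite_singleton k).subset fun h hh => ?_)
    rw [Function.mem_support] at hh
    by_contra h'
    exact hh (by rw [if_neg (by simpa using h'), norm_zero])
  have h1 : ∀ g, L hc (μ : Measure UnitAddCircle) g = ∫ y, g (T k y) ∂(μ : Measure UnitAddCircle) := by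
    intro g
    rw [L_apply, tsum_eq_single k]
    · rw [if_pos rfl, one_mul]
    · intro h hh
      rw [if_neg hh, zero_mul]
  rw [← h1 g, ← J_apply]
  have h2 : L hc (μ : Measure UnitAddCircle) = J (ν : Measure UnitAddCircle) := by
    refine ContinuousLinearMap.ext_on (s := Set.range (@fourier 1)) ?_ ?_
    · have h3 := span_fourier_closure_eq_top (T := 1)
      rw [dense_iff_closure_eq]
      have h4 := congrArg (fun S : Submodule ℂ C(UnitAddCircle, ℂ) => (S : Set C(UnitAddCircle, ℂ))) h3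
      simpa using h4
    · rintro _ ⟨m, rfl⟩
      rw [h1, h m, J_apply]
  rw [h2]

/-- **The counterexample** -/
theorem counter (b : ℕ) (hb : 2 ≤ b) : ∃ (f : C(UnitAddCircle, ℝ)) (x : ℝ), 0 < f 0 ∧
    (∫ y : UnitAddCircle, f y = 0) ∧ ¬ Normal b x ∧
    ∀ m : ℤ, m ≠ 0 → Tendsto (avg fun n => ((f ((m * ((b : ℝ) ^ n * x) : ℝ) : UnitAddCircle) : ℝ) : ℂ))
      atTop (𝓝 0) := by
  have hb0 : (2 : ℝ) ≤ b := by exact_mod_cast hb
  obtain ⟨σ, x, hσ, hx⟩ := generic b hb
  set σm : ℤ → ProbabilityMeasure UnitAddCircle := fun m =>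
    σ.map (f := T m) (T_cont m).measurable.aemeasurable with hσm
  have hint : ∀ m (g : C(UnitAddCircle, ℂ)), ∫ y, g y ∂(σm m : Measure UnitAddCircle) =
      ∫ y, g (T m y) ∂(σ : Measure UnitAddCircle) := by
    intro m g
    have : (σm m : Measure UnitAddCircle) = (σ : Measure UnitAddCircle).map (T m) := rfl
    rw [this, integral_map (T_cont m).measurable.aemeasurable g.continuous.aestronglyMeasurable]
  have hF : ∀ (m : ℤ) (h : ℤ), ∫ y, (fourier h y : ℂ) ∂(σm m : Measure UnitAddCircle) =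
      ((F b (m * h) : ℝ) : ℂ) := by
    intro m h
    rw [hint]
    simp_rw [fourier_T]
    exact hσ _
  set vol : ProbabilityMeasure UnitAddCircle := ⟨volume, vol_prob⟩ with hvol
  have hV : ∀ h : ℤ, ∫ y, (fourier h y : ℂ) ∂(vol : Measure UnitAddCircle) =
      (((if h = 0 then 1 else 0 : ℝ)) : ℂ) := by
    intro h
    change ∫ y : UnitAddCircle, (fourier h y : ℂ) = _
    split_ifs with h0
    · subst h0
      simp
    · rw [Q241.SW.int_fourier h0]
      simp
  set M : Set (ProbabilityMeasure UnitAddCircle) := {τ | τ = vol ∨ ∃ m : ℤ, m ≠ 0 ∧ τ = σm m} with hM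
  have hbn : ∀ n : ℕ, (b : ℤ) ^ n ≠ 0 := fun n => pow_ne_zero _ (by exact_mod_cast (by omega : b ≠ 0))
  have hφv : ∀ (m : ℤ) (n : ℕ), (if m * (b : ℤ) ^ n = 0 then 1 else 0 : ℝ) = if m = 0 then 1 else 0 := by
    intro m n
    congr 1
    rw [mul_eq_zero, or_iff_left (hbn n)]
  have hφm : ∀ (k : ℤ) (m : ℤ) (n : ℕ), F b (k * (m * (b : ℤ) ^ n)) = F b (k * m) := by
    intro k m n
    rw [← mul_assoc, F_mul hb]
  have hinv : Inv b M := by
    intro τ hτ n g
    refine int_ext τ τ _ (fun m => ?_) g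
    simp_rw [fourier_T, mul_comm _ m]
    rcases hτ with rfl | ⟨k, _, rfl⟩
    · rw [hV, hV, hφv]
    · rw [hF, hF, hφm]
  have hUE : ∀ g, UE b M g := by
    refine UE_all fun h => ?_
    intro η hη
    obtain ⟨N₀, hN₀⟩ := Va_unif hb η hη
    obtain ⟨N₁, hN₁⟩ := exists_nat_gt (1 / η)
    refine ⟨max (max N₀ N₁) 1, fun N hN τ hτ => ?_⟩
    have hN1 : 0 < N := lt_of_lt_of_le one_pos ((le_max_right _ _).trans hN)
    have hNr : (0 : ℝ) < N := by exact_mod_cast hN1
    rcases hτ with rfl | ⟨k, _, rfl⟩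
    · rw [V_fourier b N hN1 vol (fun m => if m = 0 then 1 else 0) hV hφv h]
      rcases eq_or_ne h 0 with h0 | h0
      · subst h0
        simp
        exact hη.le
      · have e1 : ∀ i ∈ Finset.range N, ∑ j ∈ Finset.range N,
            ((if h * ((b : ℤ) ^ i - (b : ℤ) ^ j) = 0 then 1 else 0 : ℝ) -
              (if h = 0 then 1 else 0 : ℝ) ^ 2) = 1 := by
          intro i hi
          rw [if_neg h0]
          have e2 : ∀ j, ((if h * ((b : ℤ) ^ i - (b : ℤ) ^ j) = 0 then 1 else 0 : ℝ) - (0 : ℝ) ^ 2) =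
              if j = i then 1 else 0 := by
            intro j
            have e3 : h * ((b : ℤ) ^ i - (b : ℤ) ^ j) = 0 ↔ j = i := by
              rw [mul_eq_zero, or_iff_right h0, sub_eq_zero]
              constructor
              · intro h'
                exact (Nat.pow_right_injective hb (by exact_mod_cast h')).symm
              · rintro rfl
                rfl
            simp only [e3]
            norm_num
          simp_rw [e2]
          rw [Finset.sum_ite_eq', if_pos hi]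
        rw [Finset.sum_congr rfl e1, Finset.sum_const, Finset.card_range, nsmul_eq_mul, mul_one,
          div_le_iff₀ (by positivity)]
        have h1 : (N₁ : ℝ) ≤ N := by
          exact_mod_cast ((le_max_right N₀ N₁).trans (le_max_left _ _)).trans hN
        have h2 : 1 ≤ η * N := by
          rw [div_lt_iff₀ hη] at hN₁
          nlinarith
        nlinarith
    · rw [V_fourier b N hN1 (σm k) (fun m => F b (k * m)) (hF k) (hφm k) h]
      have h1 := hN₀ N (((le_max_left N₀ N₁).trans (le_max_left _ _)).trans hN) (k * h)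
      refine le_trans (le_of_eq ?_) h1
      unfold Va
      congr 1
      refine Finset.sum_congr rfl fun i _ => Finset.sum_congr rfl fun j _ => ?_
      rw [mul_assoc]
  obtain ⟨S₀, hS₀⟩ : ∃ S₀ : C(UnitAddCircle, ℝ), ∀ y, S₀ y = (fourier 1 y : ℂ).re :=
    ⟨⟨fun y => (fourier 1 y : ℂ).re, Complex.continuous_re.comp (map_continuous (fourier 1))⟩,
      fun y => rfl⟩
  have hγ0 : (0 : ℝ) ≤ 1 - 2 / (b : ℝ) ^ 2 := by
    have : 2 / (b : ℝ) ^ 2 ≤ 1 := by
      rw [div_le_one (by positivity)]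
      nlinarith
    linarith
  have hγ1 : (1 : ℝ) - 2 / (b : ℝ) ^ 2 < 1 := by
    have : 0 < 2 / (b : ℝ) ^ 2 := by positivity
    linarith
  obtain ⟨f, hf0, hf⟩ := construct hinv hUE (1 - 2 / (b : ℝ) ^ 2) hγ0 hγ1 S₀ (by rw [hS₀]; simp) (by
    intro τ hτ
    have h1 : ∫ y, S₀ y ∂(τ : Measure UnitAddCircle) =
        (∫ y, (fourier 1 y : ℂ) ∂(τ : Measure UnitAddCircle)).re := by
      simp_rw [hS₀]
      exact integral_re (cint _ (fourier 1))
    rw [h1]
    rcases hτ with rfl | ⟨k, hk, rfl⟩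
    · rw [hV, if_neg one_ne_zero]
      simpa using hγ0
    · rw [hF, Complex.ofReal_re, abs_of_nonneg (F_nonneg _ _)]
      refine F_gap hb _ ?_
      simpa using hk)
  refine ⟨f, x, hf0, hf vol (Or.inl rfl), ?_, fun m hm => ?_⟩
  · intro hn
    have h1 := Q241.SW.exp_of_normal b hb x hn 1 one_ne_zero
    have h2 := tendsto_nhds_unique h1 (hx 1)
    have h3 := F_one_pos hb
    have h4 : (0 : ℝ) = F b 1 := by exact_mod_cast h2
    linarith
  · have h1 := weyl_gen (fun n => T m (orb b x n)) (σm m) (fun h => by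
      rw [hF]
      refine (hx (m * h)).congr fun N => ?_
      congr 1
      funext n
      rw [fourier_T, fourier_orb]) (cx f)
    have h2 : ∫ z, cx f z ∂(σm m : Measure UnitAddCircle) = 0 := by
      have h3 : ∫ z, cx f z ∂(σm m : Measure UnitAddCircle) =
          ((∫ z, f z ∂(σm m : Measure UnitAddCircle) : ℝ) : ℂ) := integral_complex_ofReal
      rw [h3, hf (σm m) (Or.inr ⟨m, hm, rfl⟩), Complex.ofReal_zero]
    rw [h2] at h1
    refine h1.congr fun N => ?_
    congr 1
    funext n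
    have h3 : T m (orb b x n) = ((m * ((b : ℝ) ^ n * x) : ℝ) : UnitAddCircle) := by
      unfold orb
      rw [T_coe]
    rw [h3]
    rfl

end Pool.Agent.Helper34.NF
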