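import Pool.Agent.Helper34.NF.Peak

/-! A theorem of the type of F. and M. Riesz for the dilates of one function. -/

set_option autoImplicit false

open MeasureTheory Filter Topology Metric Set

namespace Pool.Agent.Helper34.NF

/-- multiplication by `h` on the circle -/
def T (h : ℤ) (y : UnitAddCircle) : UnitAddCircle := h • y

lemma T_cont (h : ℤ) : Continuous (T h) := continuous_zsmul h

lemma T_zero (y : UnitAddCircle) : T 0 y = 0 := zero_smul _ _

lemma T_mp (h : ℤ) (hh : h ≠ 0) :
    MeasurePreserving (T h) (volume : Measure UnitAddCircle) volume :=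
  MeasureTheory.Measure.measurePreserving_zsmul volume hh

instance vol_prob : IsProbabilityMeasure (volume : Measure UnitAddCircle) :=
  ⟨UnitAddCircle.measure_univ⟩

lemma fourier_T (m h : ℤ) (y : UnitAddCircle) : (fourier m (T h y) : ℂ) = fourier (h * m) y := by
  rw [fourier_apply, fourier_apply, T, smul_smul, mul_comm]

lemma cint (μ : Measure UnitAddCircle) [IsProbabilityMeasure μ] (g : C(UnitAddCircle, ℂ)) :
    Integrable (fun y => g y) μ :=
  g.continuous.integrable_of_hasCompactSupport (HasCompactSupport.of_compactSpace _)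

lemma cint_T (μ : Measure UnitAddCircle) [IsProbabilityMeasure μ] (g : C(UnitAddCircle, ℂ))
    (h : ℤ) : Integrable (fun y => g (T h y)) μ :=
  (g.continuous.comp (T_cont h)).integrable_of_hasCompactSupport
    (HasCompactSupport.of_compactSpace _)

lemma int_le (μ : Measure UnitAddCircle) [IsProbabilityMeasure μ] (g : C(UnitAddCircle, ℂ))
    (φ : UnitAddCircle → UnitAddCircle) : ‖∫ y, g (φ y) ∂μ‖ ≤ ‖g‖ := by
  have := norm_integral_le_of_norm_le_const (μ := μ) (f := fun y => g (φ y)) (C := ‖g‖)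
    (ae_of_all _ fun y => ContinuousMap.norm_coe_le_norm g _)
  simpa using this

/-- integration as a continuous functional -/
noncomputable def J (μ : Measure UnitAddCircle) [IsProbabilityMeasure μ] :
    C(UnitAddCircle, ℂ) →L[ℂ] ℂ :=
  LinearMap.mkContinuous
    { toFun := fun g => ∫ y, g y ∂μ
      map_add' := fun g₁ g₂ => integral_add (cint μ g₁) (cint μ g₂)
      map_smul' := fun a g => integral_const_mul a _ } 1
    (fun g => by
      rw [one_mul]
      exact int_le μ g fun y => y)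

lemma J_apply (μ : Measure UnitAddCircle) [IsProbabilityMeasure μ] (g : C(UnitAddCircle, ℂ)) :
    J μ g = ∫ y, g y ∂μ := rfl

lemma L_summable {c : ℤ → ℂ} (hc : Summable fun h => ‖c h‖) (μ : Measure UnitAddCircle)
    [IsProbabilityMeasure μ] (g : C(UnitAddCircle, ℂ)) :
    Summable fun h : ℤ => c h * ∫ y, g (T h y) ∂μ := by
  refine Summable.of_norm_bounded (hc.mul_right ‖g‖) fun h => ?_
  rw [norm_mul]
  exact mul_le_mul_of_nonneg_left (int_le μ g _) (norm_nonneg _)

/-- the functional of the dilates -/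
noncomputable def L {c : ℤ → ℂ} (hc : Summable fun h => ‖c h‖) (μ : Measure UnitAddCircle)
    [IsProbabilityMeasure μ] : C(UnitAddCircle, ℂ) →L[ℂ] ℂ :=
  LinearMap.mkContinuous
    { toFun := fun g => ∑' h : ℤ, c h * ∫ y, g (T h y) ∂μ
      map_add' := fun g₁ g₂ => by
        rw [← (L_summable hc μ g₁).tsum_add (L_summable hc μ g₂)]
        refine tsum_congr fun h => ?_
        rw [← mul_add, ← integral_add (cint_T μ g₁ h) (cint_T μ g₂ h)]
        rfl
      map_smul' := fun a g => by
        rw [RingHom.id_apply, smul_eq_mul, ← tsum_mul_left]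
        refine tsum_congr fun h => ?_
        have : ∫ y, (a • g) (T h y) ∂μ = a * ∫ y, g (T h y) ∂μ := integral_const_mul a _
        rw [this]
        ring } (∑' h, ‖c h‖)
    (fun g => by
      have h1 : ∀ h : ℤ, ‖c h * ∫ y, g (T h y) ∂μ‖ ≤ ‖c h‖ * ‖g‖ := fun h => by
        rw [norm_mul]
        exact mul_le_mul_of_nonneg_left (int_le μ g _) (norm_nonneg _)
      have h2 : Summable fun h : ℤ => ‖c h * ∫ y, g (T h y) ∂μ‖ :=
        Summable.of_nonneg_of_le (fun _ => norm_nonneg _) h1 (hc.mul_right _)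
      refine (norm_tsum_le_tsum_norm h2).trans ?_
      rw [← tsum_mul_right]
      exact h2.tsum_le_tsum h1 (hc.mul_right _))

lemma L_apply {c : ℤ → ℂ} (hc : Summable fun h => ‖c h‖) (μ : Measure UnitAddCircle)
    [IsProbabilityMeasure μ] (g : C(UnitAddCircle, ℂ)) :
    L hc μ g = ∑' h : ℤ, c h * ∫ y, g (T h y) ∂μ := rfl

/-- A continuous functional which vanishes on the powers of `z` vanishes on the disc algebra. -/
lemma disc_zero (D : C(UnitAddCircle, ℂ) →L[ℂ] ℂ) (h : ∀ m : ℕ, D (fourier m) = 0)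
    (g : C(UnitAddCircle, ℂ)) (hg : g ∈ disc) : D g = 0 := by
  have h1 : IsClosed {g : C(UnitAddCircle, ℂ) | D g = 0} :=
    isClosed_eq D.continuous continuous_const
  have h2 : ((Algebra.adjoin ℂ {zz} : Subalgebra ℂ C(UnitAddCircle, ℂ)) :
      Set C(UnitAddCircle, ℂ)) ⊆ {g | D g = 0} := by
    intro g hg
    have hg' : g ∈ Submodule.span ℂ ((Submonoid.closure {zz} : Submonoid C(UnitAddCircle, ℂ)) :
        Set C(UnitAddCircle, ℂ)) := by
      rw [← Algebra.adjoin_eq_span]
      exact hg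
    have h3 : Submodule.span ℂ ((Submonoid.closure {zz} : Submonoid C(UnitAddCircle, ℂ)) :
        Set C(UnitAddCircle, ℂ)) ≤ LinearMap.ker (D : C(UnitAddCircle, ℂ) →ₗ[ℂ] ℂ) := by
      rw [Submodule.span_le]
      intro u hu
      obtain ⟨n, rfl⟩ := Submonoid.mem_closure_singleton.1 hu
      have h4 : zz ^ n = fourier (n : ℤ) := by
        ext y
        rw [ContinuousMap.pow_apply, zz, fourier_one, fourier_apply, natCast_zsmul,
          AddCircle.toCircle_nsmul, Circle.coe_pow]
      rw [SetLike.mem_coe, LinearMap.mem_ker, h4]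
      exact h n
    exact h3 hg'
  have h5 : g ∈ closure ((Algebra.adjoin ℂ {zz} : Subalgebra ℂ C(UnitAddCircle, ℂ)) :
      Set C(UnitAddCircle, ℂ)) := by
    rw [← Subalgebra.topologicalClosure_coe]
    exact hg
  exact closure_minimal h2 h1 h5

lemma int_fourier_vol (m : ℕ) (hm : m ≠ 0) :
    ∫ z : UnitAddCircle, (fourier (m : ℤ) z : ℂ) = 0 := by
  have hm' : (m : ℤ) ≠ 0 := by exact_mod_cast hm
  have h1 : ∫ z : UnitAddCircle, (fourier (m : ℤ) (z + ((1 / 2 / (m : ℤ) : ℝ) : UnitAddCircle)) : ℂ) =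
      ∫ z : UnitAddCircle, (fourier (m : ℤ) z : ℂ) :=
    integral_add_right_eq_self (fun z : UnitAddCircle => (fourier (m : ℤ) z : ℂ)) _
  have h2 : ∀ z : UnitAddCircle, (fourier (m : ℤ) (z + ((1 / 2 / (m : ℤ) : ℝ) : UnitAddCircle)) : ℂ) =
      -fourier (m : ℤ) z := fun z => fourier_add_half_inv_index hm' one_pos z
  simp_rw [h2] at h1
  rw [integral_neg] at h1
  have h3 : (2 : ℂ) * ∫ z : UnitAddCircle, (fourier (m : ℤ) z : ℂ) = 0 := by linear_combination -h1
  simpa using h3

/-- The masses of the inverse images of a compact null set. -/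
theorem null_sum {c : ℤ → ℂ} (hc : Summable fun h => ‖c h‖) (μ : Measure UnitAddCircle)
    [IsProbabilityMeasure μ]
    (H : ∀ m : ℕ, 1 ≤ m → ∑' h : ℤ, c h * ∫ y, (fourier (h * m) y : ℂ) ∂μ = c 0)
    (K : Set UnitAddCircle) (hK : IsCompact K) (hK0 : volume K = 0) :
    ∑' h : ℤ, (if h = 0 then 0 else c h) * (μ.real (T h ⁻¹' K) : ℂ) = 0 := by
  classical
  obtain ⟨g, hg, hg1, hg2⟩ := peaks K hK hK0
  have hKm : MeasurableSet K := hK.isClosed.measurableSet
  set A : ℂ := ∑' h, c h - c 0 with hA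
  set D : C(UnitAddCircle, ℂ) →L[ℂ] ℂ :=
    L hc μ - c 0 • (ContinuousMap.evalCLM ℂ (0 : UnitAddCircle)) - A • J volume with hD
  have hDa : ∀ g, D g = ∑' h : ℤ, c h * ∫ y, g (T h y) ∂μ - c 0 * g 0 -
      A * ∫ y : UnitAddCircle, g y := fun g => rfl
  have hD0 : ∀ m : ℕ, D (fourier m) = 0 := by
    intro m
    rw [hDa]
    rcases Nat.eq_zero_or_pos m with h0 | h0
    · subst h0
      simp [hA]
    · rw [int_fourier_vol m h0.ne', mul_zero, sub_zero]
      simp_rw [fourier_T]
      rw [H m h0]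
      simp
  have hz : ∀ n, D (g n) = 0 := fun n => disc_zero D hD0 (g n) (hg n)
  -- the limits
  set I : UnitAddCircle → ℂ := Set.indicator Kᶜ (fun _ => (1 : ℂ)) with hI
  have hlim : ∀ (ν : Measure UnitAddCircle) [IsProbabilityMeasure ν] (φ : UnitAddCircle → UnitAddCircle)
      (hφ : Continuous φ), Tendsto (fun n => ∫ y, g n (φ y) ∂ν) atTop
        (𝓝 (1 - (ν.real (φ ⁻¹' K) : ℂ))) := by
    intro ν _ φ hφ
    have h1 : Tendsto (fun n => ∫ y, g n (φ y) ∂ν) atTop (𝓝 (∫ y, I (φ y) ∂ν)) := by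
      refine tendsto_integral_of_dominated_convergence (fun _ => 1) ?_ (integrable_const _) ?_ ?_
      · intro n
        exact ((g n).continuous.comp hφ).aestronglyMeasurable
      · intro n
        exact ae_of_all _ fun y => hg1 n _
      · exact ae_of_all _ fun y => hg2 _
    have h2 : ∫ y, I (φ y) ∂ν = 1 - (ν.real (φ ⁻¹' K) : ℂ) := by
      have h3 : (fun y => I (φ y)) = Set.indicator (φ ⁻¹' K)ᶜ (fun _ => (1 : ℂ)) := by
        ext y
        rw [hI]
        simp only [Set.indicator, Set.mem_compl_iff, Set.mem_preimage]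
      have hm : MeasurableSet (φ ⁻¹' K) := hφ.measurable hKm
      rw [h3, integral_indicator hm.compl, setIntegral_const]
      rw [probReal_compl_eq_one_sub hm]
      rw [Complex.real_smul]
      push_cast
      ring
    rwa [h2] at h1
  have e1 : Tendsto (fun n => ∑' h : ℤ, c h * ∫ y, g n (T h y) ∂μ) atTop
      (𝓝 (∑' h : ℤ, c h * (1 - (μ.real (T h ⁻¹' K) : ℂ)))) := by
    refine tendsto_tsum_of_dominated_convergence hc ?_ ?_
    · intro h
      exact (hlim μ (T h) (T_cont h)).const_mul _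
    · refine Eventually.of_forall fun n h => ?_
      rw [norm_mul]
      refine mul_le_of_le_one_right (norm_nonneg _) ?_
      have := norm_integral_le_of_norm_le_const (μ := μ) (f := fun y => g n (T h y)) (C := 1)
        (ae_of_all _ fun y => hg1 n _)
      simpa using this
  have e2 := hlim volume id continuous_id
  have e3 : (volume : Measure UnitAddCircle).real (id ⁻¹' K) = 0 := by
    rw [Set.preimage_id, Measure.real, hK0, ENNReal.toReal_zero]
  rw [e3] at e2
  have e4 := hg2 0
  have e5 : Tendsto (fun n => D (g n)) atTop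
      (𝓝 (∑' h : ℤ, c h * (1 - (μ.real (T h ⁻¹' K) : ℂ)) - c 0 * I 0 - A * (1 - ((0 : ℝ) : ℂ)))) := by
    refine (e1.sub (e4.const_mul _)).sub (e2.const_mul _)
  have e6 := tendsto_nhds_unique e5 (tendsto_const_nhds.congr fun n => (hz n).symm)
  -- the sum
  have hr : ∀ h, μ.real (T h ⁻¹' K) ≤ 1 := fun h => measureReal_le_one
  have hr0 : ∀ h, 0 ≤ μ.real (T h ⁻¹' K) := fun h => measureReal_nonneg
  have s1 : Summable fun h : ℤ => c h * (μ.real (T h ⁻¹' K) : ℂ) := by
    refine Summable.of_norm_bounded hc fun h => ?_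
    rw [norm_mul, Complex.norm_real, Real.norm_eq_abs, abs_of_nonneg (hr0 h)]
    exact mul_le_of_le_one_right (norm_nonneg _) (hr h)
  have s0 : Summable c := hc.of_norm
  have e7 : ∑' h : ℤ, c h * (1 - (μ.real (T h ⁻¹' K) : ℂ)) =
      ∑' h, c h - ∑' h : ℤ, c h * (μ.real (T h ⁻¹' K) : ℂ) := by
    rw [← s0.tsum_sub s1]
    exact tsum_congr fun h => by ring
  have e8 : ∑' h : ℤ, c h * (μ.real (T h ⁻¹' K) : ℂ) = c 0 * (μ.real (T 0 ⁻¹' K) : ℂ) +
      ∑' h : ℤ, (if h = 0 then 0 else c h) * (μ.real (T h ⁻¹' K) : ℂ) := by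
    rw [s1.tsum_eq_add_tsum_ite 0]
    congr 1
    refine tsum_congr fun h => ?_
    split_ifs <;> simp
  have e9 : 1 - (μ.real (T 0 ⁻¹' K) : ℂ) = I 0 := by
    rw [hI]
    have e10 : T 0 = fun _ => (0 : UnitAddCircle) := funext T_zero
    by_cases h0 : (0 : UnitAddCircle) ∈ K
    · rw [Set.indicator_of_notMem (by simpa using h0), e10, Set.preimage_const_of_mem h0]
      simp
    · rw [Set.indicator_of_mem (by simpa using h0), e10, Set.preimage_const_of_notMem h0]
      simp
  rw [e7, e8, ← e9] at e6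
  simp only [Complex.ofReal_zero, sub_zero, mul_one] at e6
  rw [hA] at e6
  linear_combination -e6

end Pool.Agent.Helper34.NF
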