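import Mathlib

/-! The distance to the nearest integer along the scales `b ^ p`. -/

set_option autoImplicit false

open Filter Topology

namespace Pool.Agent.Helper34.NF

/-- the distance to the nearest integer -/
noncomputable def nn (x : ℝ) : ℝ := ‖(x : UnitAddCircle)‖

lemma nn_eq (x : ℝ) : nn x = |x - round x| := UnitAddCircle.norm_eq

lemma nn_nonneg (x : ℝ) : 0 ≤ nn x := norm_nonneg _

lemma nn_half (x : ℝ) : nn x ≤ 1 / 2 := by
  rw [nn_eq]; exact abs_sub_round x

lemma nn_le (x : ℝ) (k : ℤ) : nn x ≤ |x - k| := by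
  rw [nn_eq]; exact round_le x k

lemma nn_abs (x : ℝ) : nn x ≤ |x| := by
  have := nn_le x 0
  simpa using this

lemma nn_int (k : ℤ) : nn (k : ℝ) = 0 := by
  refine le_antisymm ?_ (nn_nonneg _)
  have := nn_le (k : ℝ) k
  simpa using this

lemma nn_sub (x y : ℝ) : |nn x - nn y| ≤ nn (x - y) := by
  unfold nn
  rw [AddCircle.coe_sub]
  exact abs_norm_sub_norm_le _ _

lemma nn_mul (b : ℕ) (hb : 0 < b) (x : ℝ) (h : nn x < 1 / (2 * b)) : b * nn x ≤ nn (b * x) := by
  have hb0 : (0 : ℝ) < b := by exact_mod_cast hb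
  have h1 : b * nn x < 1 / 2 := by
    calc b * nn x < b * (1 / (2 * b)) := by gcongr
      _ = 1 / 2 := by field_simp
  rw [nn_eq x] at h1 ⊢
  set r := round x with hr
  rw [nn_eq (b * x)]
  set k := round (b * x) with hk
  have h2 : b * |x - r| = |b * x - b * r| := by
    rw [← mul_sub, abs_mul, abs_of_pos hb0]
  rw [h2] at h1 ⊢
  by_cases hkr : k = b * r
  · rw [hkr]
    push_cast
    exact le_rfl
  · have h3 : (1 : ℝ) ≤ |((k : ℤ) : ℝ) - b * r| := by
      have h4 : (1 : ℤ) ≤ |k - b * r| := Int.one_le_abs (sub_ne_zero.2 hkr)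
      exact_mod_cast h4
    have h5 : |((k : ℤ) : ℝ) - b * r| ≤ |b * x - k| + |b * x - b * r| := by
      have : ((k : ℤ) : ℝ) - b * r = -(b * x - k) + (b * x - b * r) := by ring
      rw [this]
      refine (abs_add_le _ _).trans ?_
      rw [abs_neg]
    linarith

lemma sin_nn (x : ℝ) : 2 * nn x ≤ |Real.sin (Real.pi * x)| ∧ |Real.sin (Real.pi * x)| ≤ Real.pi * nn x := by
  have hpi := Real.pi_pos
  have h1 : |Real.sin (Real.pi * x)| = Real.sin (Real.pi * nn x) := by
    rw [nn_eq]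
    set s := x - round x with hs
    have hs2 : |s| ≤ 1 / 2 := abs_sub_round x
    have h2 : |Real.sin (Real.pi * x)| = |Real.sin (Real.pi * s)| := by
      have h3 : Real.pi * s = Real.pi * x - round x * Real.pi := by rw [hs]; ring
      rw [h3, Real.sin_sub_int_mul_pi, abs_mul, abs_zpow, abs_neg, abs_one, one_zpow, one_mul]
    rw [h2]
    rcases le_total 0 s with h | h
    · rw [abs_of_nonneg h, abs_of_nonneg]
      refine Real.sin_nonneg_of_nonneg_of_le_pi (by positivity) ?_
      have := abs_of_nonneg h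
      nlinarith
    · rw [abs_of_nonpos h, abs_of_nonpos]
      · rw [mul_neg, Real.sin_neg]
      · refine Real.sin_nonpos_of_nonpos_of_neg_pi_le (by nlinarith) ?_
        have := abs_of_nonpos h
        nlinarith
  rw [h1]
  have h2 := nn_nonneg x
  have h3 := nn_half x
  constructor
  · have h4 := Real.mul_le_sin (x := Real.pi * nn x) (by positivity) (by nlinarith)
    have h5 : 2 / Real.pi * (Real.pi * nn x) = 2 * nn x := by field_simp
    rw [h5] at h4
    linarith
  · exact Real.sin_le (x := Real.pi * nn x) (by positivity)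

/-- the distance of `m / b ^ (p + 1)` to the nearest integer -/
noncomputable def A (b : ℕ) (m : ℤ) (p : ℕ) : ℝ := nn (m / (b : ℝ) ^ (p + 1))

lemma A_nonneg (b : ℕ) (m : ℤ) (p : ℕ) : 0 ≤ A b m p := nn_nonneg _

lemma A_half (b : ℕ) (m : ℤ) (p : ℕ) : A b m p ≤ 1 / 2 := nn_half _

variable {b : ℕ} (hb : 2 ≤ b)

include hb

lemma A_summable (m : ℤ) : Summable (A b m) := by
  have hb0 : (2 : ℝ) ≤ b := by exact_mod_cast hb
  have h1 : Summable fun p : ℕ => |(m : ℝ)| * (1 / 2 : ℝ) ^ p :=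
    (summable_geometric_of_lt_one (by norm_num) (by norm_num)).mul_left _
  refine Summable.of_nonneg_of_le (A_nonneg b m) (fun p => ?_) h1
  unfold A
  refine (nn_abs _).trans ?_
  rw [abs_div, abs_of_pos (by positivity : (0 : ℝ) < (b : ℝ) ^ (p + 1)), div_eq_mul_inv]
  refine mul_le_mul_of_nonneg_left ?_ (abs_nonneg _)
  rw [one_div, inv_pow]
  refine inv_anti₀ (by positivity) ?_
  calc (2 : ℝ) ^ p ≤ (b : ℝ) ^ p := by gcongr
    _ ≤ (b : ℝ) ^ (p + 1) := by
      refine pow_le_pow_right₀ (by linarith) (by omega)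

lemma A_step (m : ℤ) (p : ℕ) : A b m (p + 1) ≤ A b m p / b + 2 * b * A b m (p + 1) ^ 2 := by
  have hb0 : (2 : ℝ) ≤ b := by exact_mod_cast hb
  rcases lt_or_ge (A b m (p + 1)) (1 / (2 * b)) with h | h
  · have h1 := nn_mul b (by omega) _ h
    have h2 : (b : ℝ) * (m / (b : ℝ) ^ (p + 1 + 1)) = m / (b : ℝ) ^ (p + 1) := by
      rw [pow_succ _ (p + 1)]
      field_simp
    rw [h2] at h1
    have h3 : A b m (p + 1) ≤ A b m p / b := by
      rw [le_div_iff₀ (by linarith)]
      unfold A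
      linarith
    have : 0 ≤ 2 * b * A b m (p + 1) ^ 2 := by positivity
    linarith
  · have h1 : 0 ≤ A b m p / b := div_nonneg (A_nonneg _ _ _) (by linarith)
    have h2 : 1 ≤ 2 * b * A b m (p + 1) := by
      rw [div_le_iff₀ (by positivity)] at h
      linarith
    have h3 := A_nonneg b m (p + 1)
    nlinarith

lemma A_first (m : ℤ) : A b m 0 ≤ 2 * b * A b m 0 ^ 2 := by
  have hb0 : (2 : ℝ) ≤ b := by exact_mod_cast hb
  rcases lt_or_ge (A b m 0) (1 / (2 * b)) with h | h
  · have h1 := nn_mul b (by omega) _ h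
    have h2 : (b : ℝ) * (m / (b : ℝ) ^ (0 + 1)) = m := by
      rw [zero_add, pow_one]
      field_simp
    rw [h2, nn_int] at h1
    have h3 : A b m 0 ≤ 0 := by
      unfold A
      have h4 : 0 ≤ nn (m / (b : ℝ) ^ (0 + 1)) := nn_nonneg _
      nlinarith
    have : 0 ≤ 2 * b * A b m 0 ^ 2 := by positivity
    linarith
  · have h2 : 1 ≤ 2 * b * A b m 0 := by
      rw [div_le_iff₀ (by positivity)] at h
      linarith
    have h3 := A_nonneg b m 0
    nlinarith

lemma A_sq_summable (m : ℤ) : Summable fun p => A b m p ^ 2 := by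
  refine Summable.of_nonneg_of_le (fun p => by positivity) (fun p => ?_) (A_summable hb m)
  have h1 := A_nonneg b m p
  have h2 := A_half b m p
  nlinarith

/-- **Rigidity** -/
lemma A_rigid (m : ℤ) : ∑' p, A b m p ≤ 4 * b * ∑' p, A b m p ^ 2 := by
  have hb0 : (2 : ℝ) ≤ b := by exact_mod_cast hb
  have hs := A_summable hb m
  have hq := A_sq_summable hb m
  have e1 := hs.tsum_eq_zero_add
  have e2 := hq.tsum_eq_zero_add
  have hs' := (summable_nat_add_iff 1).2 hs
  have hq' := (summable_nat_add_iff 1).2 hq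
  have h1 : ∑' p, A b m (p + 1) ≤ ∑' p, (A b m p / b + 2 * b * A b m (p + 1) ^ 2) :=
    hs'.tsum_le_tsum (A_step hb m) ((hs.div_const _).add (hq'.mul_left _))
  rw [(hs.div_const _).tsum_add (hq'.mul_left _), tsum_div_const, tsum_mul_left] at h1
  have h2 := A_first hb m
  have h3 : 0 ≤ ∑' p, A b m p := tsum_nonneg (A_nonneg b m)
  have h4 : (∑' p, A b m p) / b ≤ (∑' p, A b m p) / 2 := by gcongr
  nlinarith

lemma A_mul (m : ℤ) (k p : ℕ) : A b (m * (b : ℤ) ^ k) (p + k) = A b m p := by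
  have hb0 : (2 : ℝ) ≤ b := by exact_mod_cast hb
  unfold A
  congr 1
  push_cast
  have : (b : ℝ) ^ (p + k + 1) = (b : ℝ) ^ (p + 1) * (b : ℝ) ^ k := by ring
  rw [this]
  field_simp

lemma A_mul_lt (m : ℤ) (k p : ℕ) (h : p < k) : A b (m * (b : ℤ) ^ k) p = 0 := by
  have hb0 : (2 : ℝ) ≤ b := by exact_mod_cast hb
  obtain ⟨j, rfl⟩ := Nat.exists_eq_add_of_lt h
  unfold A
  have : ((m * (b : ℤ) ^ (p + j + 1) : ℤ) : ℝ) / (b : ℝ) ^ (p + 1) = ((m * (b : ℤ) ^ j : ℤ) : ℝ) := by
    push_cast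
    have : (b : ℝ) ^ (p + j + 1) = (b : ℝ) ^ (p + 1) * (b : ℝ) ^ j := by ring
    rw [this]
    field_simp
  rw [this, nn_int]

omit hb in
lemma A_sub (m m' : ℤ) (p : ℕ) : |A b m p - A b m' p| ≤ A b (m - m') p := by
  unfold A
  refine (nn_sub _ _).trans (le_of_eq ?_)
  congr 1
  push_cast
  ring

lemma block (m : ℤ) (k n : ℕ) :
    ∑ j ∈ Finset.range k, A b m (n + j) ≤ ∑' p, A b (m * (b : ℤ) ^ k - m) p := by
  have h1 := Finset.sum_range_add (A b m) n k
  have h2 := Finset.sum_range_add (A b (m * (b : ℤ) ^ k)) k n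
  have h3 : ∑ p ∈ Finset.range k, A b (m * (b : ℤ) ^ k) p = 0 :=
    Finset.sum_eq_zero fun p hp => A_mul_lt hb m k p (Finset.mem_range.1 hp)
  have h4 : ∑ j ∈ Finset.range n, A b (m * (b : ℤ) ^ k) (k + j) = ∑ p ∈ Finset.range n, A b m p := by
    refine Finset.sum_congr rfl fun j _ => ?_
    rw [add_comm k j]
    exact A_mul hb m k j
  rw [h3, h4, zero_add] at h2
  have h5 : ∑ p ∈ Finset.range (n + k), A b m p - ∑ p ∈ Finset.range (n + k), A b (m * (b : ℤ) ^ k) p ≤
      ∑ p ∈ Finset.range (n + k), A b (m * (b : ℤ) ^ k - m) p := by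
    rw [← Finset.sum_sub_distrib]
    refine Finset.sum_le_sum fun p _ => ?_
    have := A_sub (b := b) (m * (b : ℤ) ^ k) m p
    rw [abs_sub_comm] at this
    exact (le_abs_self _).trans this
  have h6 : ∑ p ∈ Finset.range (n + k), A b (m * (b : ℤ) ^ k - m) p ≤
      ∑' p, A b (m * (b : ℤ) ^ k - m) p :=
    (A_summable hb _).sum_le_tsum _ fun p _ => A_nonneg _ _ _
  rw [add_comm k n] at h2
  linarith

/-- **The number of the lags** -/
lemma lags (m : ℤ) (D : ℝ) (hD : 0 < D) (hB : D ≤ ∑' p, A b m p ^ 2) (K : Finset ℕ)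
    (hK : ∀ k ∈ K, 1 ≤ k ∧ ∑' p, A b (m * (b : ℤ) ^ k - m) p ≤ D) : (K.card : ℝ) ≤ 8 * b * D := by
  have hb0 : (2 : ℝ) ≤ b := by exact_mod_cast hb
  rcases K.eq_empty_or_nonempty with h0 | h0
  · rw [h0]
    simp only [Finset.card_empty, Nat.cast_zero]
    positivity
  set B : ℝ := ∑' p, A b m p ^ 2 with hBd
  set S : ℝ := ∑' p, A b m p with hS
  have hs := A_summable hb m
  have hq := A_sq_summable hb m
  set κ := K.max' h0 with hκ
  have hκK : κ ∈ K := K.max'_mem h0
  have hblock : ∀ n, ∑ j ∈ Finset.range κ, A b m (n + j) ≤ D := fun n =>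
    (block hb m κ n).trans (hK κ hκK).2
  have hpair : ∀ k, Summable fun p => A b m p * A b m (p + k) := by
    intro k
    refine Summable.of_nonneg_of_le (fun p => mul_nonneg (A_nonneg _ _ _) (A_nonneg _ _ _))
      (fun p => ?_) hs
    have h1 := A_nonneg b m p
    have h2 := A_half b m (p + k)
    nlinarith
  have hlow : ∀ k ∈ K, B - D / 2 ≤ ∑' p, A b m p * A b m (p + k) := by
    intro k hk
    have hw := A_summable hb (m * (b : ℤ) ^ k - m)
    have hw' := (summable_nat_add_iff k).2 hw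
    have h1 : ∑' p, (A b m p ^ 2 - A b (m * (b : ℤ) ^ k - m) (p + k) / 2) ≤
        ∑' p, A b m p * A b m (p + k) := by
      refine (hq.sub (hw'.div_const 2)).tsum_le_tsum (fun p => ?_) (hpair k)
      have h2 := A_sub (b := b) (m * (b : ℤ) ^ k) m (p + k)
      rw [A_mul hb] at h2
      have h3 := A_nonneg b m p
      have h4 := A_half b m p
      have h5 := (le_abs_self _).trans h2
      have h6 := A_nonneg b (m * (b : ℤ) ^ k - m) (p + k)
      nlinarith
    rw [hq.tsum_sub (hw'.div_const 2), tsum_div_const] at h1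
    have h2 := hw.sum_add_tsum_nat_add k
    have h3 : 0 ≤ ∑ i ∈ Finset.range k, A b (m * (b : ℤ) ^ k - m) i :=
      Finset.sum_nonneg fun i _ => A_nonneg _ _ _
    have h4 := (hK k hk).2
    linarith
  have hup : ∑ k ∈ K, ∑' p, A b m p * A b m (p + k) ≤ S * D := by
    rw [← Summable.tsum_finsetSum fun k _ => hpair k]
    have h1 : ∀ p, ∑ k ∈ K, A b m p * A b m (p + k) ≤ A b m p * D := by
      intro p
      rw [← Finset.mul_sum]
      refine mul_le_mul_of_nonneg_left ?_ (A_nonneg _ _ _)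
      refine le_trans ?_ (hblock (p + 1))
      have h2 : K ⊆ (Finset.range κ).image (fun j => j + 1) := by
        intro k hk
        rw [Finset.mem_image]
        have h3 := (hK k hk).1
        have h4 := K.le_max' k hk
        exact ⟨k - 1, Finset.mem_range.2 (by omega), by omega⟩
      refine (Finset.sum_le_sum_of_subset_of_nonneg h2 fun k _ _ => A_nonneg _ _ _).trans ?_
      rw [Finset.sum_image fun x _ y _ h => by omega]
      refine le_of_eq (Finset.sum_congr rfl fun j _ => ?_)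
      congr 1
      ring
    have h2 : Summable fun p => ∑ k ∈ K, A b m p * A b m (p + k) :=
      summable_sum fun k _ => hpair k
    refine (h2.tsum_le_tsum h1 (hs.mul_right D)).trans (le_of_eq ?_)
    rw [tsum_mul_right]
  have h1 : (K.card : ℝ) * (B - D / 2) ≤ S * D := by
    refine le_trans ?_ hup
    rw [← nsmul_eq_mul]
    exact Finset.card_nsmul_le_sum _ _ _ hlow
  have h2 := A_rigid hb m
  rw [← hS, ← hBd] at h2
  have hB0 : 0 < B := hD.trans_le hB
  have h3 : (K.card : ℝ) * (B / 2) ≤ 4 * b * B * D := by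
    calc (K.card : ℝ) * (B / 2) ≤ (K.card : ℝ) * (B - D / 2) := by
          refine mul_le_mul_of_nonneg_left ?_ (Nat.cast_nonneg _)
          linarith
      _ ≤ S * D := h1
      _ ≤ 4 * b * B * D := by gcongr
  have h4 : (K.card : ℝ) * (B / 2) ≤ (8 * b * D) * (B / 2) := by linarith
  exact le_of_mul_le_mul_right h4 (by positivity)

end Pool.Agent.Helper34.NF
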