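import Mathlib

/-! Null sets of the circle and functions of the disc algebra (after Øksendal). -/

set_option autoImplicit false

open MeasureTheory Filter Topology Metric Set

namespace Pool.Agent.Helper34.NF

/-- the variable `z` on the circle -/
noncomputable def zz : C(UnitAddCircle, ℂ) := fourier 1

/-- the disc algebra on the circle: the uniform closure of the polynomials in `z` -/
noncomputable def disc : Subalgebra ℂ C(UnitAddCircle, ℂ) :=
  (Algebra.adjoin ℂ {zz}).topologicalClosure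

lemma zz_mem : zz ∈ disc :=
  Subalgebra.le_topologicalClosure _ (Algebra.subset_adjoin rfl)

lemma zz_norm (y : UnitAddCircle) : ‖zz y‖ = 1 := by
  unfold zz
  exact Circle.norm_coe _

lemma isClosed_disc : IsClosed (disc : Set C(UnitAddCircle, ℂ)) :=
  Subalgebra.isClosed_topologicalClosure _

lemma inv_mem (a : ℂ) (ha : 1 < ‖a‖) (ψ : C(UnitAddCircle, ℂ)) (hψ : ∀ y, ψ y * (zz y - a) = 1) :
    ψ ∈ disc := by
  have ha0 : a ≠ 0 := by
    rintro rfl
    simp at ha
    linarith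
  set u : C(UnitAddCircle, ℂ) := a⁻¹ • zz with hu
  have hnorm : ‖u‖ < 1 := by
    rw [ContinuousMap.norm_lt_iff _ one_pos]
    intro y
    rw [hu, ContinuousMap.smul_apply, norm_smul, zz_norm, mul_one, norm_inv]
    exact inv_lt_one_of_one_lt₀ ha
  have hs : Summable fun n : ℕ => u ^ n := summable_geometric_of_norm_lt_one hnorm
  have hS : (∑' n : ℕ, u ^ n) ∈ disc := by
    refine isClosed_disc.mem_of_tendsto hs.hasSum ?_
    filter_upwards with s
    refine Subalgebra.sum_mem _ fun n _ => Subalgebra.pow_mem _ ?_ _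
    exact Subalgebra.smul_mem _ zz_mem _
  have hg : (∑' n : ℕ, u ^ n) * (1 - u) = 1 := geom_series_mul_neg u hnorm
  have : ψ = (-a⁻¹) • (∑' n : ℕ, u ^ n) := by
    ext y
    have h1 := congrArg (fun g : C(UnitAddCircle, ℂ) => g y) hg
    simp only [ContinuousMap.mul_apply, ContinuousMap.sub_apply, ContinuousMap.one_apply] at h1
    have h2 := hψ y
    have h3 : u y = a⁻¹ * zz y := rfl
    rw [h3] at h1
    rw [ContinuousMap.smul_apply, smul_eq_mul]
    have h4 : zz y - a ≠ 0 := right_ne_zero_of_mul_eq_one h2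
    have h5 : 1 - a⁻¹ * zz y = -a⁻¹ * (zz y - a) := by field_simp; ring
    rw [h5] at h1
    have h6 : ψ y = (zz y - a)⁻¹ := eq_inv_of_mul_eq_one_left h2
    have h7 : -a⁻¹ * (∑' n : ℕ, u ^ n) y = (zz y - a)⁻¹ := by
      refine eq_inv_of_mul_eq_one_left ?_
      rw [← h1]; ring
    rw [h6, h7]
  rw [this]
  exact Subalgebra.smul_mem _ hS _

lemma zz_sub_one (d : UnitAddCircle) :
    4 * ‖d‖ ≤ ‖zz d - 1‖ ∧ ‖zz d - 1‖ ≤ 2 * Real.pi * ‖d‖ := by
  induction d using QuotientAddGroup.induction_on with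
  | H x =>
    have hx1 : ((x : ℝ) : UnitAddCircle) = ((x - round x : ℝ) : UnitAddCircle) := by
      rw [AddCircle.coe_sub]
      have : ((round x : ℝ) : UnitAddCircle) = 0 := by
        rw [AddCircle.coe_eq_zero_iff]
        exact ⟨round x, by simp⟩
      rw [this, sub_zero]
    change 4 * ‖(x : UnitAddCircle)‖ ≤ ‖zz (x : UnitAddCircle) - 1‖ ∧
      ‖zz (x : UnitAddCircle) - 1‖ ≤ 2 * Real.pi * ‖(x : UnitAddCircle)‖
    have hn : ‖(x : UnitAddCircle)‖ = |x - round x| := UnitAddCircle.norm_eq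
    rw [hn]
    rw [hx1]
    set s : ℝ := x - round x with hs
    have hs2 : |s| ≤ 1 / 2 := abs_sub_round x
    have h1 : zz (s : UnitAddCircle) = Complex.exp (Complex.I * ((2 * Real.pi * s : ℝ) : ℂ)) := by
      unfold zz
      rw [fourier_coe_apply]
      congr 1
      push_cast
      ring
    rw [h1, Complex.norm_exp_I_mul_ofReal_sub_one]
    have h2 : ‖2 * Real.sin (2 * Real.pi * s / 2)‖ = 2 * |Real.sin (Real.pi * s)| := by
      rw [Real.norm_eq_abs, abs_mul, abs_of_pos (by norm_num : (0 : ℝ) < 2)]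
      congr 3
      ring
    rw [h2]
    have hpi := Real.pi_pos
    have h3 : |Real.sin (Real.pi * s)| = Real.sin (Real.pi * |s|) := by
      rcases le_total 0 s with h | h
      · rw [abs_of_nonneg h, abs_of_nonneg]
        refine Real.sin_nonneg_of_nonneg_of_le_pi (by positivity) ?_
        have := abs_of_nonneg h
        nlinarith
      · rw [abs_of_nonpos h, abs_of_nonpos]
        · rw [mul_neg, Real.sin_neg]
        · refine Real.sin_nonpos_of_nonpos_of_neg_pi_le (by nlinarith) ?_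
          have := abs_of_nonpos h
          nlinarith
    rw [h3]
    constructor
    · have h4 := Real.mul_le_sin (x := Real.pi * |s|) (by positivity) (by nlinarith)
      have h5 : 2 / Real.pi * (Real.pi * |s|) = 2 * |s| := by field_simp
      rw [h5] at h4
      linarith
    · have h4 := Real.sin_le (x := Real.pi * |s|) (by positivity)
      nlinarith

lemma zz_dist (y t : UnitAddCircle) :
    4 * ‖y - t‖ ≤ ‖zz y - zz t‖ ∧ ‖zz y - zz t‖ ≤ 2 * Real.pi * ‖y - t‖ := by
  have h1 : zz y = zz (y - t) * zz t := by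
    unfold zz
    rw [fourier_one, fourier_one, fourier_one, ← Circle.coe_mul, ← AddCircle.toCircle_add,
      sub_add_cancel]
  have h2 : zz y - zz t = (zz (y - t) - 1) * zz t := by rw [h1]; ring
  rw [h2, norm_mul, zz_norm, mul_one]
  exact zz_sub_one _

lemma circle_id (u v : ℂ) (hu : ‖u‖ = 1) (hv : ‖v‖ = 1) (ε : ℝ) :
    ‖u - (1 + ε : ℝ) * v‖ ^ 2 = (1 + ε) * ‖u - v‖ ^ 2 + ε ^ 2 := by
  have h1 : u.re ^ 2 + u.im ^ 2 = 1 := by
    have := Complex.sq_norm u
    rw [hu, Complex.normSq_apply] at this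
    nlinarith
  have h2 : v.re ^ 2 + v.im ^ 2 = 1 := by
    have := Complex.sq_norm v
    rw [hv, Complex.normSq_apply] at this
    nlinarith
  rw [Complex.sq_norm, Complex.sq_norm, Complex.normSq_apply, Complex.normSq_apply]
  simp only [Complex.sub_re, Complex.sub_im, Complex.mul_re, Complex.mul_im, Complex.ofReal_re,
    Complex.ofReal_im, zero_mul, sub_zero, add_zero]
  linear_combination (-ε) * h1 + (ε + ε ^ 2) * h2

/-- One factor. -/
lemma factor (t : UnitAddCircle) (ρ : ℝ) (hρ : 0 < ρ) :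
    ∃ φ ∈ disc, (∀ y, ‖φ y‖ ≤ 1) ∧ (∀ y, ‖y - t‖ ≤ ρ → ‖φ y‖ ^ 2 ≤ 1 / 2) ∧
      ∀ y, ‖1 - φ y‖ * ‖y - t‖ ≤ 2 * ρ := by
  have hpi := Real.pi_pos
  set ε : ℝ := 2 * Real.pi * ρ with hε
  have hε0 : 0 < ε := by positivity
  set a : ℂ := ((1 + ε : ℝ) : ℂ) * zz t with ha
  have han : ‖a‖ = 1 + ε := by
    rw [ha, norm_mul, zz_norm, mul_one, Complex.norm_real, Real.norm_eq_abs,
      abs_of_pos (by positivity)]
  have hkey : ∀ y, ‖zz y - a‖ ^ 2 = (1 + ε) * ‖zz y - zz t‖ ^ 2 + ε ^ 2 := fun y =>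
    circle_id _ _ (zz_norm y) (zz_norm t) ε
  have hpos : ∀ y, 0 < ‖zz y - a‖ := by
    intro y
    have h1 := hkey y
    have h2 : 0 < ‖zz y - a‖ ^ 2 := by rw [h1]; positivity
    refine lt_of_le_of_ne (norm_nonneg _) fun h => ?_
    rw [← h] at h2
    norm_num at h2
  have hne : ∀ y, zz y - a ≠ 0 := fun y => norm_pos_iff.1 (hpos y)
  set ψ : C(UnitAddCircle, ℂ) := ⟨fun y => (zz y - a)⁻¹,
    ((map_continuous zz).sub continuous_const).inv₀ hne⟩ with hψ
  have hψm : ψ ∈ disc := by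
    refine inv_mem a (by rw [han]; linarith) ψ fun y => ?_
    exact inv_mul_cancel₀ (hne y)
  refine ⟨(zz - algebraMap ℂ _ (zz t)) * ψ, ?_, ?_, ?_, ?_⟩
  · exact Subalgebra.mul_mem _ (Subalgebra.sub_mem _ zz_mem (Subalgebra.algebraMap_mem _ _)) hψm
  all_goals
    have hval : ∀ y, ((zz - algebraMap ℂ _ (zz t)) * ψ) y = (zz y - zz t) * (zz y - a)⁻¹ :=
      fun y => rfl
  · intro y
    rw [hval, norm_mul, norm_inv, ← div_eq_mul_inv, div_le_one (hpos y)]
    refine le_of_sq_le_sq ?_ (hpos y).le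
    rw [hkey]
    nlinarith [sq_nonneg ‖zz y - zz t‖]
  · intro y hy
    rw [hval, norm_mul, norm_inv, ← div_eq_mul_inv, div_pow,
      div_le_div_iff₀ (by have := hpos y; positivity) (by norm_num), hkey]
    have h1 := (zz_dist y t).2
    have h2 : ‖zz y - zz t‖ ≤ ε := by
      rw [hε]; nlinarith
    nlinarith [norm_nonneg (zz y - zz t)]
  · intro y
    have h1 : 1 - (zz y - zz t) * (zz y - a)⁻¹ = (zz t - a) * (zz y - a)⁻¹ := by
      have := hne y
      field_simp
      ring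
    have h2 : ‖zz t - a‖ = ε := by
      have h3 := hkey t
      rw [sub_self, norm_zero] at h3
      have h4 : ‖zz t - a‖ ^ 2 = ε ^ 2 := by rw [h3]; ring
      exact (pow_left_inj₀ (norm_nonneg _) hε0.le two_ne_zero).1 h4
    rw [hval, h1, norm_mul, norm_inv, h2]
    have h5 := (zz_dist y t).1
    have h6 : ‖zz y - zz t‖ ≤ ‖zz y - a‖ := by
      refine le_of_sq_le_sq ?_ (hpos y).le
      rw [hkey]
      nlinarith [sq_nonneg ‖zz y - zz t‖]
    have h7 : ‖y - t‖ ≤ ‖zz y - a‖ / 4 := by linarith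
    have h8 : ε ≤ 8 * ρ := by
      rw [hε]; nlinarith [Real.pi_lt_four]
    have h9 := hpos y
    calc ε * ‖zz y - a‖⁻¹ * ‖y - t‖ ≤ ε * ‖zz y - a‖⁻¹ * (‖zz y - a‖ / 4) := by gcongr
      _ = ε / 4 := by field_simp
      _ ≤ 2 * ρ := by linarith

/-- Finite covers of compact null sets by closed balls with a small sum of the radii. -/
lemma cover (K : Set UnitAddCircle) (hK : IsCompact K) (hK0 : volume K = 0) (η : ℝ) (hη : 0 < η) :
    ∃ (s : Finset UnitAddCircle) (ρ : UnitAddCircle → ℝ), (∀ t ∈ s, t ∈ K ∧ 0 < ρ t) ∧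
      (∀ y ∈ K, ∃ t ∈ s, ‖y - t‖ ≤ ρ t) ∧ ∑ t ∈ s, ρ t ≤ η := by
  classical
  obtain ⟨U, hKU, hU, hUv⟩ := K.exists_isOpen_lt_of_lt (ENNReal.ofReal (η / 2)) (μ := volume)
    (by rw [hK0]; exact ENNReal.ofReal_pos.2 (by positivity))
  have hr : ∀ x : UnitAddCircle, ∃ r : ℝ, 0 < r ∧ r ≤ 1 / 2 ∧ (x ∈ K → closedBall x r ⊆ U) := by
    intro x
    by_cases hx : x ∈ K
    · obtain ⟨r, hr0, hr⟩ := Metric.isOpen_iff.1 hU x (hKU hx)
      refine ⟨min (r / 2) (1 / 2), by positivity, min_le_right _ _, fun _ => ?_⟩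
      refine (closedBall_subset_ball ?_).trans hr
      exact (min_le_left _ _).trans_lt (by linarith)
    · exact ⟨1 / 2, by norm_num, le_rfl, fun h => absurd h hx⟩
  choose r hr0 hr1 hrU using hr
  obtain ⟨t, htK, htc⟩ := hK.elim_nhds_subcover (fun x => ball x (r x))
    (fun x _ => ball_mem_nhds x (hr0 x))
  obtain ⟨u, hut, hud, huc⟩ := Vitali.exists_disjoint_subfamily_covering_enlargement_closedBall
    (t : Set UnitAddCircle) (fun x => x) r (1 / 2) (fun a _ => hr1 a) 4 (by norm_num)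
  have hufin : u.Finite := t.finite_toSet.subset hut
  refine ⟨hufin.toFinset, fun x => 4 * r x, ?_, ?_, ?_⟩
  · intro x hx
    rw [Set.Finite.mem_toFinset] at hx
    exact ⟨htK x (hut hx), by have := hr0 x; positivity⟩
  · intro y hy
    obtain ⟨x, hx, hyx⟩ := Set.mem_iUnion₂.1 (htc hy)
    obtain ⟨c, hc, hcc⟩ := huc x hx
    refine ⟨c, hufin.mem_toFinset.2 hc, ?_⟩
    have h1 := hcc (ball_subset_closedBall hyx)
    rw [mem_closedBall, dist_eq_norm] at h1
    exact h1
  · have h1 : volume (⋃ x ∈ hufin.toFinset, closedBall x (r x)) =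
        ∑ x ∈ hufin.toFinset, volume (closedBall x (r x)) := by
      refine measure_biUnion_finset ?_ fun _ _ => isClosed_closedBall.measurableSet
      intro x hx y hy hxy
      exact hud (hufin.mem_toFinset.1 hx) (hufin.mem_toFinset.1 hy) hxy
    have h2 : volume (⋃ x ∈ hufin.toFinset, closedBall x (r x)) ≤ volume U := by
      refine measure_mono (Set.iUnion₂_subset fun x hx => hrU x ?_)
      exact htK x (hut (hufin.mem_toFinset.1 hx))
    have h3 : ∀ x, volume (closedBall x (r x)) = ENNReal.ofReal (2 * r x) := by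
      intro x
      rw [AddCircle.volume_closedBall, min_eq_right]
      have := hr1 x
      linarith
    have h4 : ENNReal.ofReal (∑ x ∈ hufin.toFinset, 2 * r x) ≤ ENNReal.ofReal (η / 2) := by
      rw [ENNReal.ofReal_sum_of_nonneg fun x _ => by have := hr0 x; positivity]
      calc ∑ x ∈ hufin.toFinset, ENNReal.ofReal (2 * r x)
          = ∑ x ∈ hufin.toFinset, volume (closedBall x (r x)) :=
            Finset.sum_congr rfl fun x _ => (h3 x).symm
        _ = _ := h1.symm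
        _ ≤ _ := h2.trans hUv.le
    have h5 := (ENNReal.ofReal_le_ofReal_iff (by positivity)).1 h4
    rw [← Finset.mul_sum] at h5 ⊢
    linarith

lemma prod_near (s : Finset UnitAddCircle) (w : UnitAddCircle → ℂ) (hw : ∀ t ∈ s, ‖w t‖ ≤ 1) :
    ‖∏ t ∈ s, w t‖ ≤ 1 ∧ ‖1 - ∏ t ∈ s, w t‖ ≤ ∑ t ∈ s, ‖1 - w t‖ := by
  classical
  induction s using Finset.induction_on with
  | empty => simp
  | insert a s ha ih =>
    have h1 := ih fun t ht => hw t (Finset.mem_insert_of_mem ht)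
    have h2 := hw a (Finset.mem_insert_self _ _)
    rw [Finset.prod_insert ha, Finset.sum_insert ha]
    constructor
    · rw [norm_mul]
      exact mul_le_one₀ h2 (norm_nonneg _) h1.1
    · have e1 : 1 - w a * ∏ t ∈ s, w t = (1 - w a) + w a * (1 - ∏ t ∈ s, w t) := by ring
      rw [e1]
      refine (norm_add_le _ _).trans ?_
      rw [norm_mul]
      have := mul_le_mul h2 h1.2 (norm_nonneg _) zero_le_one
      linarith

lemma pow_near (w : ℂ) (hw : ‖w‖ ≤ 1) (p : ℕ) : ‖1 - w ^ p‖ ≤ p * ‖1 - w‖ := by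
  induction p with
  | zero => simp
  | succ p ih =>
    have e1 : 1 - w ^ (p + 1) = (1 - w) + w * (1 - w ^ p) := by ring
    rw [e1]
    refine (norm_add_le _ _).trans ?_
    rw [norm_mul]
    have := mul_le_mul hw ih (norm_nonneg _) zero_le_one
    push_cast
    linarith

/-- Functions of the disc algebra which are small on a compact null set. -/
lemma peak (K : Set UnitAddCircle) (hK : IsCompact K) (hK0 : volume K = 0) (p : ℕ) (δ : ℝ)
    (hδ : 0 < δ) :
    ∃ g ∈ disc, (∀ y, ‖g y‖ ≤ 1) ∧ (∀ y ∈ K, ‖g y‖ ^ 2 ≤ (1 / 2) ^ p) ∧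
      ∀ y, ∀ d : ℝ, 0 < d → (∀ t ∈ K, d ≤ ‖y - t‖) → ‖1 - g y‖ ≤ p * (δ / d) := by
  classical
  obtain ⟨s, ρ, hs, hc, hsum⟩ := cover K hK hK0 (δ / 2) (by positivity)
  have hf : ∀ t : UnitAddCircle, ∃ φ : C(UnitAddCircle, ℂ), t ∈ s → φ ∈ disc ∧
      (∀ y, ‖φ y‖ ≤ 1) ∧ (∀ y, ‖y - t‖ ≤ ρ t → ‖φ y‖ ^ 2 ≤ 1 / 2) ∧
      ∀ y, ‖1 - φ y‖ * ‖y - t‖ ≤ 2 * ρ t := by
    intro t
    by_cases ht : t ∈ s
    · obtain ⟨φ, h1, h2, h3, h4⟩ := factor t (ρ t) (hs t ht).2
      exact ⟨φ, fun _ => ⟨h1, h2, h3, h4⟩⟩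
    · exact ⟨0, fun h => absurd h ht⟩
  choose φ hφ using hf
  have hval : ∀ y, ((∏ t ∈ s, φ t) ^ p) y = (∏ t ∈ s, φ t y) ^ p := by
    intro y
    rw [ContinuousMap.pow_apply, ContinuousMap.prod_apply]
  have hn : ∀ y, ∀ t ∈ s, ‖φ t y‖ ≤ 1 := fun y t ht => (hφ t ht).2.1 y
  refine ⟨(∏ t ∈ s, φ t) ^ p, ?_, ?_, ?_, ?_⟩
  · exact Subalgebra.pow_mem _ (Subalgebra.prod_mem _ fun t ht => (hφ t ht).1) _
  · intro y
    rw [hval, norm_pow]
    exact pow_le_one₀ (norm_nonneg _) (prod_near s _ (hn y)).1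
  · intro y hy
    rw [hval, norm_pow, ← pow_mul, mul_comm p 2, pow_mul]
    refine pow_le_pow_left₀ (by positivity) ?_ p
    obtain ⟨t, ht, hyt⟩ := hc y hy
    rw [← Finset.mul_prod_erase s (fun t => φ t y) ht, norm_mul, mul_pow]
    have h1 := (hφ t ht).2.2.1 y hyt
    have h2 := (prod_near (s.erase t) (fun t => φ t y)
      (fun t ht => hn y t (Finset.mem_of_mem_erase ht))).1
    have h3 : ‖∏ x ∈ s.erase t, φ x y‖ ^ 2 ≤ 1 := pow_le_one₀ (norm_nonneg _) h2
    have h4 : 0 ≤ ‖φ t y‖ ^ 2 := by positivity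
    nlinarith
  · intro y d hd hyd
    rw [hval]
    refine (pow_near _ (prod_near s _ (hn y)).1 p).trans ?_
    refine mul_le_mul_of_nonneg_left ?_ (by positivity)
    refine (prod_near s _ (hn y)).2.trans ?_
    calc ∑ t ∈ s, ‖1 - φ t y‖ ≤ ∑ t ∈ s, 2 * ρ t / d := by
          refine Finset.sum_le_sum fun t ht => ?_
          rw [le_div_iff₀ hd]
          refine le_trans ?_ ((hφ t ht).2.2.2 y)
          exact mul_le_mul_of_nonneg_left (hyd t (hs t ht).1) (norm_nonneg _)
      _ = 2 * (∑ t ∈ s, ρ t) / d := by rw [← Finset.sum_div, ← Finset.mul_sum]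
      _ ≤ δ / d := by
          refine div_le_div_of_nonneg_right ?_ hd.le
          linarith

/-- **Øksendal's functions**: the indicator function of the complement of a compact null set is a
bounded pointwise limit of functions of the disc algebra. -/
theorem peaks (K : Set UnitAddCircle) (hK : IsCompact K) (hK0 : volume K = 0) :
    ∃ g : ℕ → C(UnitAddCircle, ℂ), (∀ n, g n ∈ disc) ∧ (∀ n y, ‖g n y‖ ≤ 1) ∧
      (∀ y, Tendsto (fun n => g n y) atTop (𝓝 (Set.indicator Kᶜ (fun _ => (1 : ℂ)) y))) := by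
  have h := fun n : ℕ => peak K hK hK0 n (1 / ((n : ℝ) + 1) ^ 2) (by positivity)
  choose g hg h1 h2 h3 using h
  refine ⟨g, hg, h1, fun y => ?_⟩
  by_cases hy : y ∈ K
  · rw [Set.indicator_of_notMem (by simpa using hy)]
    rw [tendsto_zero_iff_norm_tendsto_zero]
    have h4 : Tendsto (fun n => ‖g n y‖ ^ 2) atTop (𝓝 0) := by
      refine squeeze_zero (fun n => by positivity) (fun n => h2 n y hy) ?_
      exact tendsto_pow_atTop_nhds_zero_of_lt_one (by norm_num) (by norm_num)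
    have h5 := h4.sqrt
    simp only [Real.sqrt_zero] at h5
    refine h5.congr fun n => ?_
    exact Real.sqrt_sq (norm_nonneg _)
  · rw [Set.indicator_of_mem (by simpa using hy)]
    have hd : ∃ d : ℝ, 0 < d ∧ ∀ t ∈ K, d ≤ ‖y - t‖ := by
      have h4 : Kᶜ ∈ 𝓝 y := hK.isClosed.isOpen_compl.mem_nhds hy
      obtain ⟨d, hd, hd2⟩ := Metric.mem_nhds_iff.1 h4
      refine ⟨d, hd, fun t ht => ?_⟩
      by_contra hc
      push Not at hc
      have : t ∈ ball y d := by
        rw [mem_ball, dist_eq_norm, norm_sub_rev]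
        exact hc
      exact hd2 this ht
    obtain ⟨d, hd, hd2⟩ := hd
    rw [← tendsto_sub_nhds_zero_iff, tendsto_zero_iff_norm_tendsto_zero]
    refine squeeze_zero (fun n => norm_nonneg _) (fun n => ?_)
      (g := fun n : ℕ => (1 / d) * (1 / ((n : ℝ) + 1))) ?_
    · rw [norm_sub_rev]
      refine (h3 n y d hd hd2).trans ?_
      rw [div_div, mul_one_div, one_div_mul_one_div, div_le_div_iff₀ (by positivity) (by positivity)]
      nlinarith [mul_pos hd hd]
    · have := tendsto_one_div_add_atTop_nhds_zero_nat (𝕜 := ℝ)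
      have h5 := this.const_mul (1 / d)
      simpa using h5

end Pool.Agent.Helper34.NF
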