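import Pool.Agent.Helper34.NF.AC
import Pool.Graph.R_pool_sql_team_seeded_3997aac3.Q241.SW.C

/-! From the limits of the means to normality. -/

set_option autoImplicit false

open MeasureTheory Filter Topology Metric Set
open Q241.SW (avg e ex ex_norm Normal)

namespace Pool.Agent.Helper34.NF

/-- the orbit on the circle -/
noncomputable def orb (b : ℕ) (x : ℝ) (n : ℕ) : UnitAddCircle := (((b : ℝ) ^ n * x : ℝ) : UnitAddCircle)

lemma orb_succ (b : ℕ) (x : ℝ) (n : ℕ) : T (b : ℤ) (orb b x n) = orb b x (n + 1) := by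
  unfold T orb
  rw [← AddCircle.coe_zsmul]
  congr 1
  rw [zsmul_eq_mul]
  push_cast
  ring

lemma T_coe (m : ℤ) (y : ℝ) : T m (y : UnitAddCircle) = ((m * y : ℝ) : UnitAddCircle) := by
  unfold T
  rw [← AddCircle.coe_zsmul, zsmul_eq_mul]

lemma fourier_e (m : ℤ) (y : ℝ) : (fourier m (y : UnitAddCircle) : ℂ) = e (m * y) := by
  rw [fourier_coe_apply]
  unfold e
  congr 1
  push_cast
  ring

lemma fourier_orb (b : ℕ) (x : ℝ) (m : ℤ) (n : ℕ) : (fourier m (orb b x n) : ℂ) = ex b x m n :=
  fourier_e _ _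

/-- the empirical measures -/
noncomputable def emp (b : ℕ) (x : ℝ) (N : ℕ) : Measure UnitAddCircle :=
  ENNReal.ofReal (1 / ((N : ℝ) + 1)) • ∑ n ∈ Finset.range (N + 1), Measure.dirac (orb b x n)

instance emp_prob (b : ℕ) (x : ℝ) (N : ℕ) : IsProbabilityMeasure (emp b x N) := by
  constructor
  unfold emp
  rw [Measure.smul_apply, Measure.finset_sum_apply]
  simp only [measure_univ, Finset.sum_const, Finset.card_range, smul_eq_mul, nsmul_eq_mul, mul_one]
  have h1 : ((N + 1 : ℕ) : ENNReal) = ENNReal.ofReal ((N : ℝ) + 1) := by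
    rw [← ENNReal.ofReal_natCast]
    push_cast
    rfl
  rw [h1, ← ENNReal.ofReal_mul (by positivity), one_div, inv_mul_cancel₀ (by positivity),
    ENNReal.ofReal_one]

lemma emp_int (b : ℕ) (x : ℝ) (N : ℕ) (f : UnitAddCircle → ℂ) :
    ∫ y, f y ∂(emp b x N) = avg (fun n => f (orb b x n)) (N + 1) := by
  unfold emp avg
  rw [integral_smul_measure, integral_finsetSum_measure]
  · simp only [integral_dirac]
    rw [ENNReal.toReal_ofReal (by positivity), Complex.real_smul]
    push_cast
    rw [one_div, mul_comm, div_eq_mul_inv]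
  · intro i _
    exact integrable_dirac (by simp)

/-- Every ultrafilter gives a limit measure. -/
lemma limit (b : ℕ) (x : ℝ) (U : Ultrafilter ℕ) :
    ∃ μ : ProbabilityMeasure UnitAddCircle, ∀ f : C(UnitAddCircle, ℂ),
      Tendsto (fun N => avg (fun n => f (orb b x n)) (N + 1)) U (𝓝 (∫ y, f y ∂(μ : Measure _))) := by
  set P : ℕ → ProbabilityMeasure UnitAddCircle := fun N => ⟨emp b x N, emp_prob b x N⟩ with hP
  have h1 := Ultrafilter.le_nhds_lim (U.map P)
  refine ⟨(U.map P).lim, fun f => ?_⟩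
  have h2 : Tendsto P U (𝓝 (U.map P).lim) := h1
  have h3 := (ProbabilityMeasure.tendsto_iff_forall_integral_rclike_tendsto ℂ).1 h2
    (BoundedContinuousFunction.mkOfCompact f)
  refine h3.congr fun N => ?_
  exact emp_int b x N _

lemma avg_succ (u : ℕ → ℂ) (N : ℕ) :
    avg (fun n => u (n + 1)) (N + 1) = avg u (N + 1) + (u (N + 1) - u 0) / ((N + 1 : ℕ) : ℂ) := by
  unfold avg
  rw [← add_div]
  congr 1
  have h1 := Finset.sum_range_succ u (N + 1)
  have h2 := Finset.sum_range_succ' u (N + 1)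
  rw [h2] at h1
  linear_combination h1

/-- Limit measures are invariant. -/
lemma limit_inv (b : ℕ) (x : ℝ) (U : Ultrafilter ℕ) (hU : (U : Filter ℕ) ≤ atTop)
    (μ : ProbabilityMeasure UnitAddCircle)
    (hμ : ∀ f : C(UnitAddCircle, ℂ),
      Tendsto (fun N => avg (fun n => f (orb b x n)) (N + 1)) U (𝓝 (∫ y, f y ∂(μ : Measure _)))) :
    MeasurePreserving (T (b : ℤ)) (μ : Measure UnitAddCircle) μ := by
  have hTm : Measurable (T (b : ℤ)) := (T_cont _).measurable
  refine ⟨hTm, ?_⟩
  have : IsProbabilityMeasure ((μ : Measure UnitAddCircle).map (T (b : ℤ))) :=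
    Measure.isProbabilityMeasure_map hTm.aemeasurable
  refine ext_of_forall_integral_eq_of_IsFiniteMeasure fun f => ?_
  rw [integral_map hTm.aemeasurable f.continuous.aestronglyMeasurable]
  obtain ⟨F, hF⟩ : ∃ F : C(UnitAddCircle, ℂ), ∀ y, F y = (f y : ℂ) :=
    ⟨⟨fun y => (f y : ℂ), Complex.continuous_ofReal.comp f.continuous⟩, fun y => rfl⟩
  obtain ⟨G, hG⟩ : ∃ G : C(UnitAddCircle, ℂ), ∀ y, G y = F (T b y) :=
    ⟨⟨fun y => F (T b y), F.continuous.comp (T_cont _)⟩, fun y => rfl⟩
  have h1 := hμ F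
  have h2 := hμ G
  have h3 : Tendsto (fun N => avg (fun n => G (orb b x n)) (N + 1)) U
      (𝓝 (∫ y, F y ∂(μ : Measure _))) := by
    have h4 : ∀ N, avg (fun n => G (orb b x n)) (N + 1) = avg (fun n => F (orb b x n)) (N + 1) +
        (F (orb b x (N + 1)) - F (orb b x 0)) / ((N + 1 : ℕ) : ℂ) := by
      intro N
      rw [← avg_succ]
      congr 1
      funext n
      rw [hG, orb_succ]
    simp_rw [h4]
    have h5 : Tendsto (fun N : ℕ => (F (orb b x (N + 1)) - F (orb b x 0)) / ((N + 1 : ℕ) : ℂ)) atTop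
        (𝓝 0) := by
      rw [tendsto_zero_iff_norm_tendsto_zero]
      refine squeeze_zero (fun _ => norm_nonneg _) (fun N => ?_)
        (g := fun N : ℕ => (2 * ‖F‖) * (1 / ((N : ℝ) + 1))) ?_
      · rw [norm_div, Complex.norm_natCast]
        push_cast
        rw [mul_one_div]
        refine div_le_div_of_nonneg_right ?_ (by positivity)
        refine (norm_sub_le _ _).trans ?_
        have := ContinuousMap.norm_coe_le_norm F (orb b x (N + 1))
        have := ContinuousMap.norm_coe_le_norm F (orb b x 0)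
        linarith
      · have := (tendsto_one_div_add_atTop_nhds_zero_nat (𝕜 := ℝ)).const_mul (2 * ‖F‖)
        rwa [mul_zero] at this
    have h6 := h1.add (h5.mono_left hU)
    rwa [add_zero] at h6
  have h7 := tendsto_nhds_unique h2 h3
  simp_rw [hG, hF] at h7
  rw [integral_complex_ofReal, integral_complex_ofReal] at h7
  exact_mod_cast h7

/-- the function with the coefficients `c` -/
noncomputable def Fn (c : ℤ → ℂ) (y : ℝ) : ℂ := ∑' h : ℤ, c h * e (h * y)

/-- the function on the circle -/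
noncomputable def FC (c : ℤ → ℂ) : C(UnitAddCircle, ℂ) := ∑' h : ℤ, c h • fourier h

lemma FC_summable {c : ℤ → ℂ} (hc : Summable fun h => ‖c h‖) :
    Summable fun h : ℤ => c h • (fourier h : C(UnitAddCircle, ℂ)) := by
  refine Summable.of_norm_bounded hc fun h => ?_
  rw [norm_smul, fourier_norm, mul_one]

lemma FC_apply {c : ℤ → ℂ} (hc : Summable fun h => ‖c h‖) (y : UnitAddCircle) :
    FC c y = ∑' h : ℤ, c h * fourier h y := by
  unfold FC
  rw [← ContinuousMap.tsum_apply (FC_summable hc)]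
  rfl

lemma FC_coe {c : ℤ → ℂ} (hc : Summable fun h => ‖c h‖) (y : ℝ) :
    FC c (y : UnitAddCircle) = Fn c y := by
  rw [FC_apply hc]
  unfold Fn
  simp_rw [fourier_e]

lemma FC_int {c : ℤ → ℂ} (hc : Summable fun h => ‖c h‖) (μ : Measure UnitAddCircle)
    [IsProbabilityMeasure μ] (m : ℤ) :
    ∫ y, FC c (T m y) ∂μ = ∑' h : ℤ, c h * ∫ y, (fourier (h * m) y : ℂ) ∂μ := by
  have h1 : ∀ y, FC c (T m y) = ∑' h : ℤ, c h * fourier (h * m) y := by
    intro y
    rw [FC_apply hc]
    refine tsum_congr fun h => ?_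
    rw [fourier_T, mul_comm m h]
  simp_rw [h1]
  rw [← integral_tsum_of_summable_integral_norm]
  · refine tsum_congr fun h => integral_const_mul _ _
  · exact fun h => (cint μ (fourier (h * m))).const_mul _
  · refine hc.congr fun h => ?_
    have : ∀ y : UnitAddCircle, ‖c h * (fourier (h * m) y : ℂ)‖ = ‖c h‖ := by
      intro y
      rw [norm_mul]
      have : ‖(fourier (h * m) y : ℂ)‖ = 1 := Circle.norm_coe _
      rw [this, mul_one]
    simp_rw [this]
    simp

/-- the tests with the dilates of a function -/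
def Tests (f : ℝ → ℂ) (a : ℂ) (b : ℕ) (x : ℝ) : Prop :=
  ∀ m : ℕ, 1 ≤ m → Tendsto (avg fun n => f (m * ((b : ℝ) ^ n * x))) atTop (𝓝 a)

/-- **Tests give normality.** -/
theorem normal_of_tests {c : ℤ → ℂ} (hc : Summable fun h => ‖c h‖) (hA : ∑' h, c h ≠ c 0)
    (b : ℕ) (hb : 2 ≤ b) (x : ℝ) (H : Tests (Fn c) (c 0) b x) : Normal b x := by
  refine Q241.SW.normal_of b hb x fun m hm => ?_
  rw [← tendsto_add_atTop_iff_nat 1, tendsto_iff_ultrafilter]
  intro U hU
  obtain ⟨μ, hμ⟩ := limit b x U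
  have hinv := limit_inv b x U hU μ hμ
  have h1 : ∀ m : ℕ, 1 ≤ m →
      ∑' h : ℤ, c h * ∫ y, (fourier (h * m) y : ℂ) ∂(μ : Measure UnitAddCircle) = c 0 := by
    intro m hm
    rw [← FC_int hc]
    obtain ⟨G, hG⟩ : ∃ G : C(UnitAddCircle, ℂ), ∀ y, G y = FC c (T m y) :=
      ⟨⟨fun y => FC c (T m y), (FC c).continuous.comp (T_cont _)⟩, fun y => rfl⟩
    have h2 := hμ G
    simp_rw [hG] at h2
    refine tendsto_nhds_unique h2 ?_
    have h3 := ((tendsto_add_atTop_iff_nat 1).2 (H m hm)).mono_left hU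
    refine h3.congr fun N => ?_
    congr 1
    funext n
    unfold orb
    rw [T_coe, FC_coe hc]
    push_cast
    rfl
  have h2 := ac hc hA μ h1
  have h3 : (μ : Measure UnitAddCircle) = volume :=
    (AddCircle.ergodic_nsmul (T := 1) (n := b) (by omega)).eq_of_absolutelyContinuous
      (by
        have h4 : (fun y : UnitAddCircle => b • y) = T (b : ℤ) := by
          funext y
          unfold T
          rw [natCast_zsmul]
        rw [h4]
        exact hinv) h2
  have h4 := hμ (fourier m)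
  rw [h3, Q241.SW.int_fourier hm] at h4
  simp_rw [fourier_orb] at h4
  exact h4

/-- **Normality gives the tests.** -/
theorem tests_of_normal {c : ℤ → ℂ} (hc : Summable fun h => ‖c h‖)
    (b : ℕ) (hb : 2 ≤ b) (x : ℝ) (H : Normal b x) : Tests (Fn c) (c 0) b x := by
  intro m hm
  have h1 : ∀ k : ℤ, k ≠ 0 → Tendsto (avg fun n => e (k * (m * ((b : ℝ) ^ n * x)))) atTop (𝓝 0) := by
    intro k hk
    have h2 := Q241.SW.exp_of_normal b hb x H (k * m) (mul_ne_zero hk (by exact_mod_cast (by omega : m ≠ 0)))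
    refine h2.congr fun N => ?_
    congr 1
    funext n
    unfold ex
    congr 1
    push_cast
    ring
  have h2 := Q241.SW.weyl (fun n => m * ((b : ℝ) ^ n * x)) h1 (FC c)
  have h3 : ∫ z : UnitAddCircle, FC c z = c 0 := by
    have h4 := FC_int hc (volume : Measure UnitAddCircle) 1
    have h5 : ∀ y : UnitAddCircle, T 1 y = y := fun y => one_smul _ _
    simp_rw [h5, mul_one] at h4
    rw [h4, tsum_eq_single 0]
    · have : ∫ z : UnitAddCircle, (fourier 0 z : ℂ) = 1 := by
        simp [Q241.SW.vol_one]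
      rw [this, mul_one]
    · intro h hh
      rw [Q241.SW.int_fourier hh, mul_zero]
  rw [h3] at h2
  refine h2.congr fun N => ?_
  congr 1
  funext n
  exact FC_coe hc _

end Pool.Agent.Helper34.NF
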