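import Pool.Agent.Helper34.NF.Var
import Pool.Agent.Helper34.NF.Seq

/-! A measure with the Fourier coefficients `F b m`. -/

set_option autoImplicit false

open MeasureTheory Filter Topology
open Q241.SW (avg e ex ex_norm Normal)

namespace Pool.Agent.Helper34.NF

/-- one step -/
noncomputable def stepM (a : UnitAddCircle) (μ : Measure UnitAddCircle) : Measure UnitAddCircle :=
  ENNReal.ofReal (3 / 4) • μ + (ENNReal.ofReal (1 / 8) • μ.map (fun y => y + a) +
    ENNReal.ofReal (1 / 8) • μ.map (fun y => y - a))

lemma meas_add (a : UnitAddCircle) : Measurable fun y : UnitAddCircle => y + a :=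
  (continuous_id.add continuous_const).measurable

lemma meas_sub (a : UnitAddCircle) : Measurable fun y : UnitAddCircle => y - a :=
  (continuous_id.sub continuous_const).measurable

instance stepM_prob (a : UnitAddCircle) (μ : Measure UnitAddCircle) [IsProbabilityMeasure μ] :
    IsProbabilityMeasure (stepM a μ) := by
  have h1 : IsProbabilityMeasure (μ.map (fun y => y + a)) :=
    Measure.isProbabilityMeasure_map (meas_add a).aemeasurable
  have h2 : IsProbabilityMeasure (μ.map (fun y => y - a)) :=
    Measure.isProbabilityMeasure_map (meas_sub a).aemeasurable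
  constructor
  unfold stepM
  rw [Measure.add_apply, Measure.add_apply, Measure.smul_apply, Measure.smul_apply,
    Measure.smul_apply]
  simp only [measure_univ, smul_eq_mul, mul_one]
  rw [← ENNReal.ofReal_add (by norm_num) (by norm_num), ← ENNReal.ofReal_add (by norm_num) (by norm_num)]
  norm_num

lemma stepM_int (a : UnitAddCircle) (μ : Measure UnitAddCircle) [IsProbabilityMeasure μ]
    (g : C(UnitAddCircle, ℂ)) : ∫ y, g y ∂(stepM a μ) =
      3 / 4 * ∫ y, g y ∂μ + (1 / 8 * ∫ y, g (y + a) ∂μ + 1 / 8 * ∫ y, g (y - a) ∂μ) := by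
  have h1 : IsProbabilityMeasure (μ.map (fun y => y + a)) :=
    Measure.isProbabilityMeasure_map (meas_add a).aemeasurable
  have h2 : IsProbabilityMeasure (μ.map (fun y => y - a)) :=
    Measure.isProbabilityMeasure_map (meas_sub a).aemeasurable
  have i0 := cint μ g
  have i1 := cint (μ.map (fun y => y + a)) g
  have i2 := cint (μ.map (fun y => y - a)) g
  unfold stepM
  rw [integral_add_measure, integral_add_measure, integral_smul_measure, integral_smul_measure,
    integral_smul_measure, integral_map (meas_add a).aemeasurable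
      g.continuous.aestronglyMeasurable, integral_map (meas_sub a).aemeasurable
      g.continuous.aestronglyMeasurable]
  · rw [ENNReal.toReal_ofReal (by norm_num), ENNReal.toReal_ofReal (by norm_num)]
    simp only [Complex.real_smul]
    push_cast
    ring
  · exact i1.smul_measure ENNReal.ofReal_ne_top
  · exact i2.smul_measure ENNReal.ofReal_ne_top
  · exact i0.smul_measure ENNReal.ofReal_ne_top
  · exact (i1.smul_measure ENNReal.ofReal_ne_top).add_measure (i2.smul_measure ENNReal.ofReal_ne_top)

/-- the finite approximations -/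
noncomputable def apx (b : ℕ) : ℕ → Measure UnitAddCircle
  | 0 => Measure.dirac 0
  | n + 1 => stepM ((1 / (b : ℝ) ^ (n + 1) : ℝ) : UnitAddCircle) (apx b n)

instance apx_prob (b n : ℕ) : IsProbabilityMeasure (apx b n) := by
  induction n with
  | zero => unfold apx; infer_instance
  | succ n ih => unfold apx; infer_instance

lemma fourier_add' (m : ℤ) (y z : UnitAddCircle) :
    (fourier m (y + z) : ℂ) = fourier m y * fourier m z := by
  rw [fourier_apply, fourier_apply, fourier_apply, smul_add, AddCircle.toCircle_add, Circle.coe_mul]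

lemma q_eq (x : ℝ) : ((q x : ℝ) : ℂ) = 3 / 4 + (1 / 8 * e x + 1 / 8 * e (-x)) := by
  have h1 : e x + e (-x) = ((2 * Real.cos (2 * Real.pi * x) : ℝ) : ℂ) := by
    rw [Q241.SW.e_neg]
    rw [Complex.add_conj, Q241.SW.e_re]
  have h2 : q x = 3 / 4 + 1 / 4 * Real.cos (2 * Real.pi * x) := by
    unfold q
    have h3 : 2 * Real.pi * x = 2 * (Real.pi * x) := by ring
    rw [h3, Real.cos_two_mul]
    have h4 := Real.sin_sq_add_cos_sq (Real.pi * x)
    linarith
  rw [h2]
  have h3 : (3 / 4 + (1 / 8 * e x + 1 / 8 * e (-x)) : ℂ) = 3 / 4 + 1 / 8 * (e x + e (-x)) := by ring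
  rw [h3, h1]
  push_cast
  ring

lemma apx_int (b : ℕ) (m : ℤ) (n : ℕ) :
    ∫ y, (fourier m y : ℂ) ∂(apx b n) = ((PF b m n : ℝ) : ℂ) := by
  induction n with
  | zero =>
    unfold apx PF
    rw [integral_dirac]
    simp
  | succ n ih =>
    unfold apx
    rw [stepM_int]
    set a : UnitAddCircle := ((1 / (b : ℝ) ^ (n + 1) : ℝ) : UnitAddCircle) with ha
    have h1 : ∀ y : UnitAddCircle, (fourier m (y + a) : ℂ) = fourier m y * e (m / (b : ℝ) ^ (n + 1)) := by
      intro y
      rw [fourier_add', ha, fourier_e, mul_one_div]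
    have h2 : ∀ y : UnitAddCircle, (fourier m (y - a) : ℂ) =
        fourier m y * e (-(m / (b : ℝ) ^ (n + 1))) := by
      intro y
      rw [sub_eq_add_neg, fourier_add', ha, ← AddCircle.coe_neg, fourier_e]
      congr 2
      ring
    simp_rw [h1, h2]
    rw [integral_mul_const, integral_mul_const, ih]
    have h3 : PF b m (n + 1) = PF b m n * q (m / (b : ℝ) ^ (n + 1)) := by
      unfold PF
      rw [Finset.prod_range_succ]
    rw [h3]
    push_cast
    rw [q_eq]
    ring

/-- **The measure** -/
theorem sig (b : ℕ) : ∃ σ : ProbabilityMeasure UnitAddCircle,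
    ∀ m : ℤ, ∫ y, (fourier m y : ℂ) ∂(σ : Measure UnitAddCircle) = ((F b m : ℝ) : ℂ) := by
  set P : ℕ → ProbabilityMeasure UnitAddCircle := fun n => ⟨apx b n, apx_prob b n⟩ with hP
  set U : Ultrafilter ℕ := Ultrafilter.of atTop with hU
  have hU' : (U : Filter ℕ) ≤ atTop := Ultrafilter.of_le atTop
  refine ⟨(U.map P).lim, fun m => ?_⟩
  have h2 : Tendsto P U (𝓝 (U.map P).lim) := Ultrafilter.le_nhds_lim (U.map P)
  have h3 := (ProbabilityMeasure.tendsto_iff_forall_integral_rclike_tendsto ℂ).1 h2
    (BoundedContinuousFunction.mkOfCompact (fourier m))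
  refine tendsto_nhds_unique h3 ?_
  have h4 := (Complex.continuous_ofReal.tendsto _).comp (PF_tendsto b m)
  refine (h4.mono_left hU').congr fun n => ?_
  exact (apx_int b m n).symm

end Pool.Agent.Helper34.NF
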