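import Pool.Agent.Helper34.NF.Gen

/-! Few frequencies. -/

set_option autoImplicit false

open MeasureTheory Filter Topology
open Q241.SW (avg e ex ex_norm Normal shift_avg)

namespace Pool.Agent.Helper34.NF

lemma Fn_bdd {c : ℤ → ℂ} (hc : Summable fun h => ‖c h‖) (y : ℝ) : ‖Fn c y‖ ≤ ∑' h, ‖c h‖ := by
  unfold Fn
  have h1 : ∀ h : ℤ, ‖c h * e (h * y)‖ = ‖c h‖ := fun h => by
    rw [norm_mul, Q241.SW.e_norm, mul_one]
  have h2 : Summable fun h : ℤ => ‖c h * e (h * y)‖ := hc.congr fun h => (h1 h).symm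
  exact (norm_tsum_le_tsum_norm h2).trans (le_of_eq (tsum_congr h1))

lemma shift_bdd (u : ℕ → ℂ) (C : ℝ) (hu : ∀ n, ‖u n‖ ≤ C) (s : ℕ) (a : ℂ)
    (h : Tendsto (avg fun n => u (n + s)) atTop (𝓝 a)) : Tendsto (avg u) atTop (𝓝 a) := by
  have hC : 0 ≤ C := (norm_nonneg _).trans (hu 0)
  have hC1 : ((C + 1 : ℝ) : ℂ) ≠ 0 := by
    have : (C + 1 : ℝ) ≠ 0 := by linarith
    exact_mod_cast this
  have h1 := shift_avg (fun n => u n / ((C + 1 : ℝ) : ℂ)) (fun n => by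
    rw [norm_div, Complex.norm_real, Real.norm_eq_abs, abs_of_nonneg (by linarith),
      div_le_one (by linarith)]
    linarith [hu n]) s
  have h2 := h1.const_mul ((C + 1 : ℝ) : ℂ)
  rw [mul_zero] at h2
  have h3 : ∀ (v : ℕ → ℂ) N, ((C + 1 : ℝ) : ℂ) * avg (fun n => v n / ((C + 1 : ℝ) : ℂ)) N = avg v N := by
    intro v N
    unfold avg
    rw [← Finset.sum_div]
    field_simp
  have h4 : Tendsto (fun N => avg (fun n => u (n + s)) N - avg u N) atTop (𝓝 0) := by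
    refine h2.congr fun N => ?_
    rw [mul_sub, h3 u, h3 fun n => u (n + s)]
  have h5 := h.sub h4
  rw [sub_zero] at h5
  refine h5.congr fun N => ?_
  ring

/-- the tests at the frequencies in `M` -/
def TestsAt (M : Set ℤ) (f : ℝ → ℂ) (a : ℂ) (b : ℕ) (x : ℝ) : Prop :=
  ∀ m ∈ M, Tendsto (avg fun n => f (m * ((b : ℝ) ^ n * x))) atTop (𝓝 a)

lemma testsAt_all {c : ℤ → ℂ} (hc : Summable fun h => ‖c h‖) (b : ℕ) (M : Set ℤ)
    (hM : ∀ n : ℤ, 1 ≤ n → ∃ t : ℕ, n * (b : ℤ) ^ t ∈ M) (a : ℂ) (x : ℝ)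
    (h : TestsAt M (Fn c) a b x) : Tests (Fn c) a b x := by
  intro m hm
  obtain ⟨t, ht⟩ := hM m (by exact_mod_cast hm)
  refine shift_bdd _ _ (fun n => Fn_bdd hc _) t a ?_
  refine (h _ ht).congr fun N => ?_
  congr 1
  funext n
  congr 1
  push_cast
  rw [pow_add]
  ring

lemma testsAt_of_normal {c : ℤ → ℂ} (hc : Summable fun h => ‖c h‖)
    (b : ℕ) (hb : 2 ≤ b) (x : ℝ) (H : Normal b x) (M : Set ℤ) (hM : (0 : ℤ) ∉ M) :
    TestsAt M (Fn c) (c 0) b x := by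
  intro m hm
  have hm0 : m ≠ 0 := fun h => hM (h ▸ hm)
  have h1 : ∀ k : ℤ, k ≠ 0 → Tendsto (avg fun n => e (k * (m * ((b : ℝ) ^ n * x)))) atTop (𝓝 0) := by
    intro k hk
    have h2 := Q241.SW.exp_of_normal b hb x H (k * m) (mul_ne_zero hk hm0)
    refine h2.congr fun N => ?_
    congr 1
    funext n
    unfold ex
    congr 1
    push_cast
    ring
  have h2 := Q241.SW.weyl (fun n => m * ((b : ℝ) ^ n * x)) h1 (FC c)
  rw [FC_vol hc] at h2
  refine h2.congr fun N => ?_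
  congr 1
  funext n
  exact FC_coe hc _

theorem exactAt {c : ℤ → ℂ} (hc : Summable fun h => ‖c h‖) (b : ℕ) (hb : 2 ≤ b) (M : Set ℤ)
    (hM0 : (0 : ℤ) ∉ M) (hM : ∀ n : ℤ, 1 ≤ n → ∃ t : ℕ, n * (b : ℤ) ^ t ∈ M) :
    (∀ x : ℝ, Normal b x ↔ TestsAt M (Fn c) (c 0) b x) ↔ Fn c 0 ≠ c 0 := by
  constructor
  · intro h hA
    refine not_normal_zero b hb ((h 0).2 fun m _ => ?_)
    refine tendsto_const_nhds.congr' ?_
    filter_upwards [eventually_gt_atTop 0] with N hN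
    have hN0 : (N : ℂ) ≠ 0 := by exact_mod_cast hN.ne'
    unfold avg
    simp [hA, hN0]
  · intro hA x
    exact ⟨fun h => testsAt_of_normal hc b hb x h M hM0,
      fun h => ((exact hc b hb).2 hA x).2 (testsAt_all hc b M hM (c 0) x h)⟩

theorem sparse (ω : ℕ → ℕ) (hω : Tendsto ω atTop atTop) :
    ∃ M : Set ℤ, (∀ m ∈ M, 0 < m) ∧ (∀ X : ℕ, (M ∩ Set.Iic (X : ℤ)).ncard ≤ ω X) ∧
      ∀ b : ℕ, 2 ≤ b → ∀ n : ℤ, 1 ≤ n → ∃ t : ℕ, n * (b : ℤ) ^ t ∈ M := by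
  classical
  have hL : ∀ j : ℕ, ∃ L : ℕ, ∀ X, L ≤ X → j < ω X := fun j =>
    eventually_atTop.1 (hω.eventually_gt_atTop j)
  choose L hL using hL
  refine ⟨{y | ∃ n b : ℕ, 1 ≤ n ∧ 2 ≤ b ∧ y = ((n * b ^ L (Nat.pair n b) : ℕ) : ℤ)}, ?_, ?_, ?_⟩
  · rintro _ ⟨n, b, hn, hb, rfl⟩
    have : 1 ≤ b ^ L (Nat.pair n b) := Nat.one_le_pow _ _ (by omega)
    exact_mod_cast Nat.mul_pos hn this
  · intro X
    have hsub : {y | ∃ n b : ℕ, 1 ≤ n ∧ 2 ≤ b ∧ y = ((n * b ^ L (Nat.pair n b) : ℕ) : ℤ)} ∩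
        Set.Iic (X : ℤ) ⊆ (((Finset.range (ω X)).image fun j =>
          (((Nat.unpair j).1 * (Nat.unpair j).2 ^ L j : ℕ) : ℤ) : Finset ℤ) : Set ℤ) := by
      rintro _ ⟨⟨n, b, hn, hb, rfl⟩, hX⟩
      rw [Set.mem_Iic] at hX
      rw [Finset.mem_coe, Finset.mem_image]
      refine ⟨Nat.pair n b, ?_, by rw [Nat.unpair_pair]⟩
      rw [Finset.mem_range]
      refine hL _ X (le_trans ?_ (by exact_mod_cast hX : n * b ^ L (Nat.pair n b) ≤ X))
      have h1 : L (Nat.pair n b) < b ^ L (Nat.pair n b) := Nat.lt_pow_self (by omega)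
      have h2 : b ^ L (Nat.pair n b) ≤ n * b ^ L (Nat.pair n b) := Nat.le_mul_of_pos_left _ hn
      omega
    refine (Set.ncard_le_ncard hsub (Finset.finite_toSet _)).trans ?_
    rw [Set.ncard_coe_finset]
    exact Finset.card_image_le.trans (le_of_eq (Finset.card_range _))
  · intro b hb n hn
    obtain ⟨n', rfl⟩ := Int.eq_ofNat_of_zero_le (by omega : 0 ≤ n)
    refine ⟨L (Nat.pair n' b), n', b, by exact_mod_cast hn, hb, ?_⟩
    push_cast
    rfl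

/-- the real function of a real variable -/
lemma counter_real (b : ℕ) (hb : 2 ≤ b) : ∃ f : ℝ → ℝ, Continuous f ∧ (∀ y, f (y + 1) = f y) ∧
    f 0 ≠ ∫ y in (0 : ℝ)..1, f y ∧ ∃ x : ℝ, ¬ Normal b x ∧
      TestsAt {m | m ≠ 0} (fun y => (f y : ℂ)) (∫ y in (0 : ℝ)..1, (f y : ℂ)) b x := by
  obtain ⟨f, x, h1, h2, h3, h4⟩ := counter b hb
  have h5 : ∫ y in (0 : ℝ)..1, f (y : UnitAddCircle) = 0 := by
    have h6 := UnitAddCircle.intervalIntegral_preimage 0 (fun z => f z)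
    rw [zero_add, h2] at h6
    exact h6
  refine ⟨fun y => f (y : UnitAddCircle), f.continuous.comp (AddCircle.continuous_mk' 1), ?_, ?_,
    x, h3, ?_⟩
  · intro y
    simp only
    rw [AddCircle.coe_add, AddCircle.coe_period, add_zero]
  · simp only
    rw [h5]
    have : ((0 : ℝ) : UnitAddCircle) = 0 := rfl
    rw [this]
    exact h1.ne'
  · intro m hm
    simp only
    have h7 : ∫ y in (0 : ℝ)..1, ((f (y : UnitAddCircle) : ℝ) : ℂ) = 0 := by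
      rw [intervalIntegral.integral_ofReal, h5, Complex.ofReal_zero]
    rw [h7]
    exact h4 m hm

end Pool.Agent.Helper34.NF
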