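import Pool.Agent.Helper34.NF.Sig

/-! Uniform mean ergodicity of a family of measures. -/

set_option autoImplicit false

open MeasureTheory Filter Topology
open Q241.SW (avg e ex ex_norm Normal)

namespace Pool.Agent.Helper34.NF

/-- the ergodic averages of a function on the circle -/
noncomputable def AN (b N : ℕ) (g : C(UnitAddCircle, ℂ)) (y : UnitAddCircle) : ℂ :=
  avg (fun n => g (T ((b : ℤ) ^ n) y)) N

lemma AN_cont (b N : ℕ) (g : C(UnitAddCircle, ℂ)) : Continuous (AN b N g) := by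
  unfold AN avg
  refine Continuous.div_const ?_ _
  exact continuous_finsetSum _ fun n _ => g.continuous.comp (T_cont _)

lemma AN_norm (b N : ℕ) (g : C(UnitAddCircle, ℂ)) (y : UnitAddCircle) : ‖AN b N g y‖ ≤ ‖g‖ := by
  unfold AN avg
  rw [norm_div, Complex.norm_natCast]
  rcases Nat.eq_zero_or_pos N with h | h
  · subst h
    simp
  have hN : (0 : ℝ) < N := by exact_mod_cast h
  rw [div_le_iff₀ hN]
  refine (norm_sum_le _ _).trans ?_
  have := Finset.sum_le_card_nsmul (Finset.range N) (fun n => ‖g (T ((b : ℤ) ^ n) y)‖) ‖g‖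
    fun n _ => ContinuousMap.norm_coe_le_norm g _
  rw [Finset.card_range, nsmul_eq_mul] at this
  linarith

lemma AN_add (b N : ℕ) (g₁ g₂ : C(UnitAddCircle, ℂ)) (y : UnitAddCircle) :
    AN b N (g₁ + g₂) y = AN b N g₁ y + AN b N g₂ y := by
  unfold AN avg
  rw [← add_div, ← Finset.sum_add_distrib]
  rfl

lemma AN_smul (b N : ℕ) (a : ℂ) (g : C(UnitAddCircle, ℂ)) (y : UnitAddCircle) :
    AN b N (a • g) y = a * AN b N g y := by
  unfold AN avg
  rw [← mul_div_assoc, Finset.mul_sum]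
  rfl

/-- the variance of the averages -/
noncomputable def V (b N : ℕ) (g : C(UnitAddCircle, ℂ)) (τ : ProbabilityMeasure UnitAddCircle) : ℝ :=
  ∫ y, ‖AN b N g y - ∫ z, g z ∂(τ : Measure UnitAddCircle)‖ ^ 2 ∂(τ : Measure UnitAddCircle)

lemma V_integrable (b N : ℕ) (g : C(UnitAddCircle, ℂ)) (τ : ProbabilityMeasure UnitAddCircle) (c : ℂ) :
    Integrable (fun y => ‖AN b N g y - c‖ ^ 2) (τ : Measure UnitAddCircle) :=
  Continuous.integrable_of_hasCompactSupport
    (((AN_cont b N g).sub continuous_const).norm.pow 2) (HasCompactSupport.of_compactSpace _)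

lemma V_nonneg (b N : ℕ) (g : C(UnitAddCircle, ℂ)) (τ : ProbabilityMeasure UnitAddCircle) :
    0 ≤ V b N g τ := integral_nonneg fun _ => by positivity

lemma V_add (b N : ℕ) (g₁ g₂ : C(UnitAddCircle, ℂ)) (τ : ProbabilityMeasure UnitAddCircle) :
    V b N (g₁ + g₂) τ ≤ 2 * V b N g₁ τ + 2 * V b N g₂ τ := by
  unfold V
  rw [← integral_const_mul, ← integral_const_mul, ← integral_add
    ((V_integrable b N g₁ τ _).const_mul 2) ((V_integrable b N g₂ τ _).const_mul 2)]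
  refine integral_mono (V_integrable b N _ τ _)
    (((V_integrable b N g₁ τ _).const_mul 2).add ((V_integrable b N g₂ τ _).const_mul 2)) fun y => ?_
  simp only
  have h1 : ∫ z, (g₁ + g₂) z ∂(τ : Measure UnitAddCircle) =
      ∫ z, g₁ z ∂(τ : Measure UnitAddCircle) + ∫ z, g₂ z ∂(τ : Measure UnitAddCircle) :=
    integral_add (cint _ g₁) (cint _ g₂)
  rw [h1, AN_add]
  set p := AN b N g₁ y - ∫ z, g₁ z ∂(τ : Measure UnitAddCircle) with hp
  set r := AN b N g₂ y - ∫ z, g₂ z ∂(τ : Measure UnitAddCircle) with hr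
  have h2 : AN b N g₁ y + AN b N g₂ y - (∫ z, g₁ z ∂(τ : Measure UnitAddCircle) +
      ∫ z, g₂ z ∂(τ : Measure UnitAddCircle)) = p + r := by
    rw [hp, hr]; ring
  rw [h2]
  have h3 := norm_add_le p r
  have h4 := norm_nonneg (p + r)
  nlinarith [sq_nonneg (‖p‖ - ‖r‖), norm_nonneg p, norm_nonneg r]

lemma V_smul (b N : ℕ) (a : ℂ) (g : C(UnitAddCircle, ℂ)) (τ : ProbabilityMeasure UnitAddCircle) :
    V b N (a • g) τ = ‖a‖ ^ 2 * V b N g τ := by
  unfold V
  rw [← integral_const_mul]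
  refine integral_congr_ae (ae_of_all _ fun y => ?_)
  simp only
  have h1 : ∫ z, (a • g) z ∂(τ : Measure UnitAddCircle) = a * ∫ z, g z ∂(τ : Measure UnitAddCircle) :=
    integral_const_mul _ _
  rw [h1, AN_smul, ← mul_sub, norm_mul, mul_pow]

lemma V_norm (b N : ℕ) (g : C(UnitAddCircle, ℂ)) (τ : ProbabilityMeasure UnitAddCircle) :
    V b N g τ ≤ 4 * ‖g‖ ^ 2 := by
  unfold V
  have h1 : ∀ y, ‖AN b N g y - ∫ z, g z ∂(τ : Measure UnitAddCircle)‖ ^ 2 ≤ 4 * ‖g‖ ^ 2 := by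
    intro y
    have h2 := AN_norm b N g y
    have h3 : ‖∫ z, g z ∂(τ : Measure UnitAddCircle)‖ ≤ ‖g‖ := int_le _ g fun y => y
    have h4 := norm_sub_le (AN b N g y) (∫ z, g z ∂(τ : Measure UnitAddCircle))
    have h5 := norm_nonneg (AN b N g y - ∫ z, g z ∂(τ : Measure UnitAddCircle))
    nlinarith
  have h2 := integral_mono (V_integrable b N g τ _) (integrable_const (4 * ‖g‖ ^ 2)) h1
  refine h2.trans (le_of_eq ?_)
  simp

/-- uniform convergence to zero of the variances -/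
def UE (b : ℕ) (M : Set (ProbabilityMeasure UnitAddCircle)) (g : C(UnitAddCircle, ℂ)) : Prop :=
  ∀ η : ℝ, 0 < η → ∃ N₀ : ℕ, ∀ N, N₀ ≤ N → ∀ τ ∈ M, V b N g τ ≤ η

lemma UE_all {b : ℕ} {M : Set (ProbabilityMeasure UnitAddCircle)} (h : ∀ m : ℤ, UE b M (fourier m))
    (g : C(UnitAddCircle, ℂ)) : UE b M g := by
  have hspan : ∀ g ∈ Submodule.span ℂ (Set.range (@fourier 1)), UE b M g := by
    intro g hg
    refine Submodule.span_induction ?_ ?_ ?_ ?_ hg
    · rintro _ ⟨m, rfl⟩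
      exact h m
    · intro η hη
      refine ⟨0, fun N _ τ _ => ?_⟩
      have := V_norm b N 0 τ
      rw [norm_zero] at this
      linarith
    · intro g₁ g₂ _ _ h1 h2 η hη
      obtain ⟨N₁, hN₁⟩ := h1 (η / 4) (by positivity)
      obtain ⟨N₂, hN₂⟩ := h2 (η / 4) (by positivity)
      refine ⟨max N₁ N₂, fun N hN τ hτ => ?_⟩
      have h3 := hN₁ N ((le_max_left _ _).trans hN) τ hτ
      have h4 := hN₂ N ((le_max_right _ _).trans hN) τ hτ
      have h5 := V_add b N g₁ g₂ τ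
      linarith
    · intro a g₁ _ h1 η hη
      obtain ⟨N₁, hN₁⟩ := h1 (η / (‖a‖ ^ 2 + 1)) (by positivity)
      refine ⟨N₁, fun N hN τ hτ => ?_⟩
      have h3 := hN₁ N hN τ hτ
      rw [V_smul]
      have h4 := V_nonneg b N g₁ τ
      rw [le_div_iff₀ (by positivity)] at h3
      nlinarith
  have hf : g ∈ closure (Submodule.span ℂ (Set.range (@fourier 1)) : Set C(UnitAddCircle, ℂ)) := by
    rw [← Submodule.topologicalClosure_coe, span_fourier_closure_eq_top]
    trivial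
  intro η hη
  obtain ⟨δ, hδ⟩ : ∃ δ : ℝ, δ = Real.sqrt (η / 16) := ⟨_, rfl⟩
  have hδ0 : 0 < δ := by rw [hδ]; positivity
  have hδ2 : δ ^ 2 = η / 16 := by rw [hδ, Real.sq_sqrt (by positivity)]
  obtain ⟨p, hp, hgp⟩ := Metric.mem_closure_iff.1 hf δ hδ0
  obtain ⟨N₀, hN₀⟩ := hspan p hp (η / 4) (by positivity)
  refine ⟨N₀, fun N hN τ hτ => ?_⟩
  have h1 := hN₀ N hN τ hτ
  have h2 := V_add b N p (g - p) τ
  rw [add_sub_cancel] at h2
  have h3 := V_norm b N (g - p) τ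
  rw [dist_eq_norm] at hgp
  have h4 : ‖g - p‖ ^ 2 ≤ δ ^ 2 := by gcongr
  linarith

/-- **The variances of the exponentials** -/
lemma V_fourier (b N : ℕ) (hN : 0 < N) (τ : ProbabilityMeasure UnitAddCircle) (φ : ℤ → ℝ)
    (hφ : ∀ m : ℤ, ∫ y, (fourier m y : ℂ) ∂(τ : Measure UnitAddCircle) = ((φ m : ℝ) : ℂ))
    (hb : ∀ (m : ℤ) (n : ℕ), φ (m * (b : ℤ) ^ n) = φ m) (h : ℤ) :
    V b N (fourier h) τ = (∑ i ∈ Finset.range N, ∑ j ∈ Finset.range N,
      (φ (h * ((b : ℤ) ^ i - (b : ℤ) ^ j)) - φ h ^ 2)) / (N : ℝ) ^ 2 := by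
  have hNc : (N : ℂ) ≠ 0 := by exact_mod_cast hN.ne'
  have hNr : (N : ℝ) ≠ 0 := by exact_mod_cast hN.ne'
  unfold V
  rw [hφ h]
  have h1 : ∀ y : UnitAddCircle, ((‖AN b N (fourier h) y - ((φ h : ℝ) : ℂ)‖ ^ 2 : ℝ) : ℂ) =
      (∑ i ∈ Finset.range N, ∑ j ∈ Finset.range N,
        (fourier (h * ((b : ℤ) ^ i - (b : ℤ) ^ j)) y : ℂ)) / (N : ℂ) ^ 2 -
      (φ h : ℂ) / N * (∑ i ∈ Finset.range N, (fourier (h * (b : ℤ) ^ i) y : ℂ)) -
      (φ h : ℂ) / N * (∑ i ∈ Finset.range N, (fourier (-h * (b : ℤ) ^ i) y : ℂ)) + (φ h : ℂ) ^ 2 := by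
    intro y
    have e1 : ∀ n, (fourier h (T ((b : ℤ) ^ n) y) : ℂ) = fourier (h * (b : ℤ) ^ n) y := by
      intro n
      rw [fourier_T, mul_comm]
    have e2 : AN b N (fourier h) y = (∑ i ∈ Finset.range N, (fourier (h * (b : ℤ) ^ i) y : ℂ)) / N := by
      unfold AN avg
      simp_rw [e1]
    have e3 : ∀ m : ℤ, (starRingEnd ℂ) (fourier m y : ℂ) = fourier (-m) y := by
      intro m
      rw [fourier_neg]
    have e4 : ((‖AN b N (fourier h) y - ((φ h : ℝ) : ℂ)‖ ^ 2 : ℝ) : ℂ) =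
        (AN b N (fourier h) y - ((φ h : ℝ) : ℂ)) *
        (starRingEnd ℂ) (AN b N (fourier h) y - ((φ h : ℝ) : ℂ)) := by
      rw [Complex.mul_conj, Complex.normSq_eq_norm_sq]
    rw [e4, e2, map_sub, map_div₀, map_sum, map_natCast, Complex.conj_ofReal]
    have e5 : ∀ i, (starRingEnd ℂ) (fourier (h * (b : ℤ) ^ i) y : ℂ) = fourier (-h * (b : ℤ) ^ i) y := by
      intro i
      rw [e3, neg_mul]
    simp_rw [e5]
    have e6 : (∑ i ∈ Finset.range N, ∑ j ∈ Finset.range N,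
        (fourier (h * ((b : ℤ) ^ i - (b : ℤ) ^ j)) y : ℂ)) =
        (∑ i ∈ Finset.range N, (fourier (h * (b : ℤ) ^ i) y : ℂ)) *
        (∑ i ∈ Finset.range N, (fourier (-h * (b : ℤ) ^ i) y : ℂ)) := by
      rw [Finset.sum_mul_sum]
      refine Finset.sum_congr rfl fun i _ => Finset.sum_congr rfl fun j _ => ?_
      rw [← fourier_add]
      congr 2
      ring
    rw [e6]
    ring
  have h2 : ∫ y, ((‖AN b N (fourier h) y - ((φ h : ℝ) : ℂ)‖ ^ 2 : ℝ) : ℂ) ∂(τ : Measure UnitAddCircle) =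
      (((∑ i ∈ Finset.range N, ∑ j ∈ Finset.range N,
      (φ (h * ((b : ℤ) ^ i - (b : ℤ) ^ j)) - φ h ^ 2)) / (N : ℝ) ^ 2 : ℝ) : ℂ) := by
    simp_rw [h1]
    have i0 : ∀ m : ℤ, Integrable (fun y => (fourier m y : ℂ)) (τ : Measure UnitAddCircle) :=
      fun m => cint _ _
    have iA : Integrable (fun y => (∑ i ∈ Finset.range N, ∑ j ∈ Finset.range N,
        (fourier (h * ((b : ℤ) ^ i - (b : ℤ) ^ j)) y : ℂ)) / (N : ℂ) ^ 2) (τ : Measure UnitAddCircle) :=
      (integrable_finsetSum _ fun i _ => integrable_finsetSum _ fun j _ => i0 _).div_const _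
    have iB : ∀ k : ℤ, Integrable (fun y => (φ h : ℂ) / N *
        (∑ i ∈ Finset.range N, (fourier (k * (b : ℤ) ^ i) y : ℂ))) (τ : Measure UnitAddCircle) :=
      fun k => (integrable_finsetSum _ fun i _ => i0 _).const_mul _
    have j1 : Integrable (fun y => (∑ i ∈ Finset.range N, ∑ j ∈ Finset.range N,
        (fourier (h * ((b : ℤ) ^ i - (b : ℤ) ^ j)) y : ℂ)) / (N : ℂ) ^ 2 - (φ h : ℂ) / N *
        (∑ i ∈ Finset.range N, (fourier (h * (b : ℤ) ^ i) y : ℂ))) (τ : Measure UnitAddCircle) :=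
      iA.sub (iB h)
    have j2 : Integrable (fun y => (∑ i ∈ Finset.range N, ∑ j ∈ Finset.range N,
        (fourier (h * ((b : ℤ) ^ i - (b : ℤ) ^ j)) y : ℂ)) / (N : ℂ) ^ 2 - (φ h : ℂ) / N *
        (∑ i ∈ Finset.range N, (fourier (h * (b : ℤ) ^ i) y : ℂ)) - (φ h : ℂ) / N *
        (∑ i ∈ Finset.range N, (fourier (-h * (b : ℤ) ^ i) y : ℂ))) (τ : Measure UnitAddCircle) :=
      j1.sub (iB (-h))
    rw [integral_add j2 (integrable_const _),
      integral_sub j1 (iB (-h)), integral_sub iA (iB h), integral_div,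
      integral_const_mul, integral_const_mul,
      integral_finsetSum _ fun i _ => integrable_finsetSum _ fun j _ => i0 _,
      integral_finsetSum _ fun i _ => i0 _, integral_finsetSum _ fun i _ => i0 _, integral_const]
    have e1 : ∀ i, ∫ y, ∑ j ∈ Finset.range N,
        (fourier (h * ((b : ℤ) ^ i - (b : ℤ) ^ j)) y : ℂ) ∂(τ : Measure UnitAddCircle) =
        ∑ j ∈ Finset.range N, ((φ (h * ((b : ℤ) ^ i - (b : ℤ) ^ j)) : ℝ) : ℂ) := by
      intro i
      rw [integral_finsetSum _ fun j _ => i0 _]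
      exact Finset.sum_congr rfl fun j _ => hφ _
    simp_rw [e1, hφ, hb]
    have e2 : φ (-h) = φ h := by
      have h3 := hφ (-h)
      have h4 : ∫ y, (fourier (-h) y : ℂ) ∂(τ : Measure UnitAddCircle) =
          (starRingEnd ℂ) (∫ y, (fourier h y : ℂ) ∂(τ : Measure UnitAddCircle)) := by
        rw [← integral_conj]
        refine integral_congr_ae (ae_of_all _ fun y => ?_)
        simp only
        rw [fourier_neg]
      rw [h4, hφ h, Complex.conj_ofReal] at h3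
      exact_mod_cast h3.symm
    rw [e2]
    simp only [Finset.sum_const, Finset.card_range, nsmul_eq_mul, Finset.sum_sub_distrib,
      probReal_univ, one_smul]
    push_cast
    field_simp
    ring
  rw [integral_complex_ofReal] at h2
  exact_mod_cast h2

end Pool.Agent.Helper34.NF
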