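import Pool.Agent.Helper34.NF.FF

/-! The uniform bound for the variances. -/

set_option autoImplicit false

open Filter Topology

namespace Pool.Agent.Helper34.NF

/-- the positive part of a covariance -/
noncomputable def Rp (b : ℕ) (m : ℤ) (k : ℕ) : ℝ := max 0 (F b (m * (b : ℤ) ^ k - m) - F b m ^ 2)

lemma Rp_nonneg (b : ℕ) (m : ℤ) (k : ℕ) : 0 ≤ Rp b m k := le_max_left _ _

lemma Rp_le_one (b : ℕ) (m : ℤ) (k : ℕ) : Rp b m k ≤ 1 := by
  refine max_le zero_le_one ?_
  have h1 := F_le_one b (m * (b : ℤ) ^ k - m)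
  have h2 := sq_nonneg (F b m)
  linarith

lemma dist_sum (g : ℕ → ℝ) (hg : ∀ k, 0 ≤ g k) (N i : ℕ) (hi : i < N) :
    ∑ j ∈ Finset.range N, g ((i - j) + (j - i)) ≤ g 0 + 2 * ∑ k ∈ Finset.Icc 1 N, g k := by
  classical
  have h1 : ∀ j, g ((i - j) + (j - i)) = (if j = i then g 0 else 0) +
      ((if j < i then g (i - j) else 0) + (if i < j then g (j - i) else 0)) := by
    intro j
    rcases lt_trichotomy j i with h | h | h
    · rw [if_neg (by omega), if_pos h, if_neg (by omega), zero_add, add_zero]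
      congr 1
      omega
    · subst h
      simp
    · rw [if_neg (by omega), if_neg (by omega), if_pos h, zero_add, zero_add]
      congr 1
      omega
  simp_rw [h1]
  rw [Finset.sum_add_distrib, Finset.sum_add_distrib, Finset.sum_ite_eq',
    if_pos (Finset.mem_range.2 hi)]
  have h2 : ∑ j ∈ Finset.range N, (if j < i then g (i - j) else 0) ≤ ∑ k ∈ Finset.Icc 1 N, g k := by
    rw [← Finset.sum_filter]
    have e1 : ∑ j ∈ (Finset.range N).filter (fun j => j < i), g (i - j) =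
        ∑ k ∈ ((Finset.range N).filter (fun j => j < i)).image (fun j => i - j), g k := by
      rw [Finset.sum_image]
      intro x hx y hy hxy
      rw [Finset.mem_coe, Finset.mem_filter] at hx hy
      simp only at hxy
      omega
    rw [e1]
    refine Finset.sum_le_sum_of_subset_of_nonneg ?_ fun k _ _ => hg k
    intro k hk
    rw [Finset.mem_image] at hk
    obtain ⟨j, hj, rfl⟩ := hk
    rw [Finset.mem_filter, Finset.mem_range] at hj
    rw [Finset.mem_Icc]
    omega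
  have h3 : ∑ j ∈ Finset.range N, (if i < j then g (j - i) else 0) ≤ ∑ k ∈ Finset.Icc 1 N, g k := by
    rw [← Finset.sum_filter]
    have e1 : ∑ j ∈ (Finset.range N).filter (fun j => i < j), g (j - i) =
        ∑ k ∈ ((Finset.range N).filter (fun j => i < j)).image (fun j => j - i), g k := by
      rw [Finset.sum_image]
      intro x hx y hy hxy
      rw [Finset.mem_coe, Finset.mem_filter] at hx hy
      simp only at hxy
      omega
    rw [e1]
    refine Finset.sum_le_sum_of_subset_of_nonneg ?_ fun k _ _ => hg k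
    intro k hk
    rw [Finset.mem_image] at hk
    obtain ⟨j, hj, rfl⟩ := hk
    rw [Finset.mem_filter, Finset.mem_range] at hj
    rw [Finset.mem_Icc]
    omega
  linarith

variable {b : ℕ} (hb : 2 ≤ b)

include hb

lemma pair_sum (m : ℤ) (N : ℕ) :
    ∑ k ∈ Finset.Icc 1 N, ∑' p, A b m p * A b m (p + k) ≤ (∑' p, A b m p) ^ 2 := by
  have hs := A_summable hb m
  rw [← Summable.tsum_finsetSum fun k _ => pair_summable hb m k]
  have h1 : ∀ p, ∑ k ∈ Finset.Icc 1 N, A b m p * A b m (p + k) ≤ A b m p * ∑' p, A b m p := by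
    intro p
    rw [← Finset.mul_sum]
    refine mul_le_mul_of_nonneg_left ?_ (A_nonneg _ _ _)
    have e1 : ∑ k ∈ Finset.Icc 1 N, A b m (p + k) =
        ∑ k ∈ (Finset.Icc 1 N).image (fun k => p + k), A b m k := by
      rw [Finset.sum_image fun x _ y _ h => Nat.add_left_cancel h]
    rw [e1]
    exact hs.sum_le_tsum _ fun k _ => A_nonneg _ _ _
  have h2 : Summable fun p => ∑ k ∈ Finset.Icc 1 N, A b m p * A b m (p + k) :=
    summable_sum fun k _ => pair_summable hb m k
  refine (h2.tsum_le_tsum h1 (hs.mul_right _)).trans (le_of_eq ?_)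
  rw [tsum_mul_right, sq]

/-- the constant -/
noncomputable def CD (b : ℕ) (D : ℝ) : ℝ := 8 * b * D + 2 * Real.pi ^ 2 * (4 * b * D) ^ 2

lemma Rp_sum (m : ℤ) (D : ℝ) (hD : 0 < D) (N : ℕ) :
    ∑ k ∈ Finset.Icc 1 N, Rp b m k ≤ CD b D + N * Real.exp (-D / (2 * b)) := by
  classical
  have hb0 : (2 : ℝ) ≤ b := by exact_mod_cast hb
  rcases le_or_gt D (∑' p, A b m p ^ 2) with hB | hB
  · set K := (Finset.Icc 1 N).filter fun k => ∑' p, A b (m * (b : ℤ) ^ k - m) p ≤ D with hK
    have h1 := lags hb m D hD hB K (by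
      intro k hk
      rw [hK, Finset.mem_filter, Finset.mem_Icc] at hk
      exact ⟨hk.1.1, hk.2⟩)
    rw [← Finset.sum_filter_add_sum_filter_not (Finset.Icc 1 N)
      (fun k => ∑' p, A b (m * (b : ℤ) ^ k - m) p ≤ D)]
    have h2 : ∑ k ∈ K, Rp b m k ≤ K.card := by
      have := Finset.sum_le_card_nsmul K (fun k => Rp b m k) 1 fun k _ => Rp_le_one b m k
      simpa using this
    have h3 : ∑ k ∈ (Finset.Icc 1 N).filter (fun k => ¬ ∑' p, A b (m * (b : ℤ) ^ k - m) p ≤ D),
        Rp b m k ≤ N * Real.exp (-D / (2 * b)) := by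
      have h4 : ∀ k ∈ (Finset.Icc 1 N).filter (fun k => ¬ ∑' p, A b (m * (b : ℤ) ^ k - m) p ≤ D),
          Rp b m k ≤ Real.exp (-D / (2 * b)) := by
        intro k hk
        rw [Finset.mem_filter, not_le] at hk
        refine max_le (Real.exp_pos _).le ?_
        have h5 := F_exp hb (m * (b : ℤ) ^ k - m)
        have h6 := A_rigid hb (m * (b : ℤ) ^ k - m)
        have h7 : -2 * ∑' p, A b (m * (b : ℤ) ^ k - m) p ^ 2 ≤ -D / (2 * b) := by
          rw [le_div_iff₀ (by positivity)]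
          nlinarith [hk.2]
        have h8 := Real.exp_le_exp.2 h7
        have h9 := sq_nonneg (F b m)
        linarith
      have h5 := Finset.sum_le_card_nsmul _ _ _ h4
      refine h5.trans ?_
      rw [nsmul_eq_mul]
      refine mul_le_mul_of_nonneg_right ?_ (Real.exp_pos _).le
      have h6 := Finset.card_filter_le (Finset.Icc 1 N)
        (fun k => ¬ ∑' p, A b (m * (b : ℤ) ^ k - m) p ≤ D)
      rw [Nat.card_Icc, Nat.add_sub_cancel] at h6
      exact_mod_cast h6
    have h10 : (0 : ℝ) ≤ 2 * Real.pi ^ 2 * (4 * b * D) ^ 2 := by positivity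
    unfold CD
    linarith
  · have h1 : ∑ k ∈ Finset.Icc 1 N, Rp b m k ≤
        ∑ k ∈ Finset.Icc 1 N, 2 * Real.pi ^ 2 * ∑' p, A b m p * A b m (p + k) := by
      refine Finset.sum_le_sum fun k _ => max_le ?_ ?_
      · have : 0 ≤ ∑' p, A b m p * A b m (p + k) :=
          tsum_nonneg fun p => mul_nonneg (A_nonneg _ _ _) (A_nonneg _ _ _)
        positivity
      · exact (le_abs_self _).trans (F_diff hb m k)
    rw [← Finset.mul_sum] at h1
    have h2 := pair_sum hb m N
    have h3 := A_rigid hb m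
    have h4 : ∑' p, A b m p ≤ 4 * b * D := by
      refine h3.trans ?_
      gcongr
    have h5 : 0 ≤ ∑' p, A b m p := tsum_nonneg (A_nonneg b m)
    have h6 : (∑' p, A b m p) ^ 2 ≤ (4 * b * D) ^ 2 := by gcongr
    have h7 : 2 * Real.pi ^ 2 * ∑ k ∈ Finset.Icc 1 N, ∑' p, A b m p * A b m (p + k) ≤
        2 * Real.pi ^ 2 * (4 * b * D) ^ 2 := by
      refine mul_le_mul_of_nonneg_left (h2.trans h6) (by positivity)
    have h8 : (0 : ℝ) ≤ 8 * b * D := by positivity
    have h9 : (0 : ℝ) ≤ N * Real.exp (-D / (2 * b)) := by positivity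
    unfold CD
    linarith

lemma F_pair (m : ℤ) (i j : ℕ) :
    F b (m * ((b : ℤ) ^ i - (b : ℤ) ^ j)) = F b (m * (b : ℤ) ^ ((i - j) + (j - i)) - m) := by
  rcases le_total j i with h | h
  · obtain ⟨k, rfl⟩ := Nat.exists_eq_add_of_le h
    have e1 : m * ((b : ℤ) ^ (j + k) - (b : ℤ) ^ j) = (m * (b : ℤ) ^ k - m) * (b : ℤ) ^ j := by ring
    rw [e1, F_mul hb]
    congr 3
    congr 1
    omega
  · obtain ⟨k, rfl⟩ := Nat.exists_eq_add_of_le h
    have e1 : m * ((b : ℤ) ^ i - (b : ℤ) ^ (i + k)) = -((m * (b : ℤ) ^ k - m) * (b : ℤ) ^ i) := by ring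
    rw [e1, F_neg, F_mul hb]
    congr 3
    congr 1
    omega

/-- the variance -/
noncomputable def Va (b : ℕ) (m : ℤ) (N : ℕ) : ℝ :=
  (∑ i ∈ Finset.range N, ∑ j ∈ Finset.range N,
    (F b (m * ((b : ℤ) ^ i - (b : ℤ) ^ j)) - F b m ^ 2)) / (N : ℝ) ^ 2

lemma Va_le (m : ℤ) (D : ℝ) (hD : 0 < D) (N : ℕ) (hN : 0 < N) :
    Va b m N ≤ (1 + 2 * CD b D) / N + 2 * Real.exp (-D / (2 * b)) := by
  have hNr : (0 : ℝ) < N := by exact_mod_cast hN
  unfold Va
  have h1 : ∑ i ∈ Finset.range N, ∑ j ∈ Finset.range N,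
      (F b (m * ((b : ℤ) ^ i - (b : ℤ) ^ j)) - F b m ^ 2) ≤
      ∑ i ∈ Finset.range N, (1 + 2 * (CD b D + N * Real.exp (-D / (2 * b)))) := by
    refine Finset.sum_le_sum fun i hi => ?_
    have h2 : ∑ j ∈ Finset.range N, (F b (m * ((b : ℤ) ^ i - (b : ℤ) ^ j)) - F b m ^ 2) ≤
        ∑ j ∈ Finset.range N, Rp b m ((i - j) + (j - i)) := by
      refine Finset.sum_le_sum fun j _ => ?_
      rw [F_pair hb]
      exact le_max_right _ _
    refine h2.trans ((dist_sum (Rp b m) (Rp_nonneg b m) N i (Finset.mem_range.1 hi)).trans ?_)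
    have h3 := Rp_sum hb m D hD N
    have h4 := Rp_le_one b m 0
    linarith
  rw [Finset.sum_const, Finset.card_range, nsmul_eq_mul] at h1
  rw [div_le_iff₀ (by positivity)]
  refine h1.trans (le_of_eq ?_)
  field_simp
  ring

/-- **The uniform bound for the variances** -/
theorem Va_unif (η : ℝ) (hη : 0 < η) : ∃ N₀ : ℕ, ∀ N, N₀ ≤ N → ∀ m : ℤ, Va b m N ≤ η := by
  have hb0 : (2 : ℝ) ≤ b := by exact_mod_cast hb
  have h1 : Tendsto (fun D : ℝ => 2 * Real.exp (-D / (2 * b))) atTop (𝓝 0) := by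
    have h2 : Tendsto (fun D : ℝ => -D / (2 * b)) atTop atBot :=
      tendsto_neg_atTop_atBot.atBot_div_const (by positivity)
    have h3 := (Real.tendsto_exp_atBot.comp h2).const_mul 2
    rwa [mul_zero] at h3
  obtain ⟨D, hD1, hD2⟩ := ((h1.eventually (gt_mem_nhds (half_pos hη))).and
    (eventually_gt_atTop 0)).exists
  obtain ⟨N₀, hN₀⟩ := exists_nat_gt ((1 + 2 * CD b D) / (η / 2))
  refine ⟨max N₀ 1, fun N hN m => ?_⟩
  have hN1 : 0 < N := lt_of_lt_of_le one_pos ((le_max_right _ _).trans hN)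
  have hNr : (0 : ℝ) < N := by exact_mod_cast hN1
  refine (Va_le hb m D hD2 N hN1).trans ?_
  have h2 : (1 + 2 * CD b D) / N ≤ η / 2 := by
    rw [div_le_iff₀ hNr]
    rw [div_lt_iff₀ (by positivity)] at hN₀
    have h3 : (N₀ : ℝ) ≤ N := by exact_mod_cast (le_max_left _ _).trans hN
    nlinarith
  linarith

/-- the variance for fixed `m` -/
theorem Va_fixed (m : ℤ) : ∃ C : ℝ, 0 ≤ C ∧ ∀ N : ℕ, 0 < N → Va b m N ≤ C / N := by
  refine ⟨1 + 2 * (2 * Real.pi ^ 2 * (∑' p, A b m p) ^ 2), by positivity, fun N hN => ?_⟩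
  have hNr : (0 : ℝ) < N := by exact_mod_cast hN
  unfold Va
  have h0 : ∑ k ∈ Finset.Icc 1 N, Rp b m k ≤ 2 * Real.pi ^ 2 * (∑' p, A b m p) ^ 2 := by
    have h1 : ∑ k ∈ Finset.Icc 1 N, Rp b m k ≤
        ∑ k ∈ Finset.Icc 1 N, 2 * Real.pi ^ 2 * ∑' p, A b m p * A b m (p + k) := by
      refine Finset.sum_le_sum fun k _ => max_le ?_ ?_
      · have : 0 ≤ ∑' p, A b m p * A b m (p + k) :=
          tsum_nonneg fun p => mul_nonneg (A_nonneg _ _ _) (A_nonneg _ _ _)
        positivity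
      · exact (le_abs_self _).trans (F_diff hb m k)
    rw [← Finset.mul_sum] at h1
    exact h1.trans (mul_le_mul_of_nonneg_left (pair_sum hb m N) (by positivity))
  have h1 : ∑ i ∈ Finset.range N, ∑ j ∈ Finset.range N,
      (F b (m * ((b : ℤ) ^ i - (b : ℤ) ^ j)) - F b m ^ 2) ≤
      ∑ i ∈ Finset.range N, (1 + 2 * (2 * Real.pi ^ 2 * (∑' p, A b m p) ^ 2)) := by
    refine Finset.sum_le_sum fun i hi => ?_
    have h2 : ∑ j ∈ Finset.range N, (F b (m * ((b : ℤ) ^ i - (b : ℤ) ^ j)) - F b m ^ 2) ≤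
        ∑ j ∈ Finset.range N, Rp b m ((i - j) + (j - i)) := by
      refine Finset.sum_le_sum fun j _ => ?_
      rw [F_pair hb]
      exact le_max_right _ _
    refine h2.trans ((dist_sum (Rp b m) (Rp_nonneg b m) N i (Finset.mem_range.1 hi)).trans ?_)
    have h4 := Rp_le_one b m 0
    linarith
  rw [Finset.sum_const, Finset.card_range, nsmul_eq_mul] at h1
  rw [div_le_iff₀ (by positivity)]
  refine h1.trans (le_of_eq ?_)
  field_simp

end Pool.Agent.Helper34.NF
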